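import Pool.Agent.Helper64.IPC.TPC
import Pool.Agent.Helper64.IPC.Defs

/-!
One-arm exponent, determinant side: definitions.

`L` parameters `b 0, ..., b (L-1)`; `s x = sin (pi / 3 + x)` (`IP.s`).
`pp b i j = s (b i - b j) * s (b j - b i)`,
`mm theta b i j = e^{i theta/2} s (b i - b j) + e^{-i theta/2} s (b j - b i)`.
The matrix of the formula is `Mm i j = mm i j / pp i j = e^{i theta/2} / s (b j - b i) + e^{-i theta/2} / s (b i - b j)`;
row `i` multiplied by `∏_{k ≠ i} pp i k` gives the polynomial matrix `RR`.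
-/

namespace OneArm
open IP IPC Finset Real

noncomputable section

/-- pair factor -/
def pp (b : ℕ → ℝ) (i j : ℕ) : ℝ := s (b i - b j) * s (b j - b i)

/-- numerator of the matrix entry -/
def mm (θ : ℝ) (b : ℕ → ℝ) (i j : ℕ) : ℂ :=
  Complex.exp (Complex.I * θ / 2) * (s (b i - b j) : ℂ) +
    Complex.exp (-(Complex.I * θ / 2)) * (s (b j - b i) : ℂ)

/-- the constant diagonal entry `2 cos (theta/2) / s 0` -/
def aa (θ : ℝ) : ℂ := ((2 * Real.cos (θ / 2) / s 0 : ℝ) : ℂ)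

/-- the matrix of the determinant formula -/
def Mm (θ : ℝ) (L : ℕ) (b : ℕ → ℝ) : Matrix (Fin L) (Fin L) ℂ :=
  Matrix.of fun i j =>
    Complex.exp (Complex.I * θ / 2) / (s (b j - b i) : ℂ) +
      Complex.exp (-(Complex.I * θ / 2)) / (s (b i - b j) : ℂ)

/-- the polynomial matrix: row `i` of `Mm` multiplied by `∏_{k ≠ i} pp b i k` -/
def RR (θ : ℝ) (L : ℕ) (b : ℕ → ℝ) : Matrix (Fin L) (Fin L) ℂ :=
  Matrix.of fun i j =>
    if i = j then aa θ * ((∏ k ∈ (range L).erase i, pp b i k : ℝ) : ℂ)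
    else mm θ b i j * ((∏ k ∈ ((range L).erase i).erase j, pp b i k : ℝ) : ℂ)

/-- `NN = ∏_{i<j} pp i j ^ 2 * det Mm` as a polynomial function -/
def NN (θ : ℝ) (L : ℕ) (b : ℕ → ℝ) : ℂ := (RR θ L b).det

/-- `∏_{i<j} sin (b i - b j) ^ 2` -/
def SQ (L : ℕ) (b : ℕ → ℝ) : ℝ := ∏ j ∈ range L, ∏ i ∈ range j, Real.sin (b i - b j) ^ 2

/-- `∏_{i<j} pp i j ^ 2` -/
def PQ (L : ℕ) (b : ℕ → ℝ) : ℝ := ∏ j ∈ range L, ∏ i ∈ range j, pp b i j ^ 2

end
end OneArm
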