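import Pool.Agent.Helper18.OneArm.Tc2
import Pool.Agent.Helper18.OneArm.NDefs

/-! One-arm algebra: the axioms of the partition functions `Z L` (`L` even), `w = 2 cos theta`. -/

namespace OneArm
open IP IPC Finset Real

/-- the function `y ↦ e^{2iy} * (top coefficient in x of Z L (x, y, β))`, degree `2 (L-1)` in `x`, `L = m + 2` -/
noncomputable def ld (m : ℕ) (Z : (ℕ → ℝ) → ℝ) (β : ℕ → ℝ) (y : ℝ) : ℂ :=
  Complex.exp (2 * y * Complex.I) *
    tc (2 * (m + 1)) (fun x => ((Z (IPC.cons x (IPC.cons y β)) : ℝ) : ℂ))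

/-- axioms of the family of partition functions with loop weight `w` around the marked gap -/
structure Fam (w : ℝ) (Z : ℕ → (ℕ → ℝ) → ℝ) : Prop where
  zero : ∀ b, Z 0 b = 1
  sep : ∀ n, Sep (2 * n + 2) (2 * (2 * n + 1)) (Z (2 * n + 2))
  swp : ∀ n i b, i + 1 < 2 * n + 2 → Z (2 * n + 2) (sw i b) = Z (2 * n + 2) b
  recu : ∀ n b, b 1 = b 0 + π / 3 → Z (2 * n + 2) b =
    3 / 4 * (∏ k ∈ range (2 * n), s (b (k + 2) - b 0) ^ 4) * Z (2 * n) (fun j => b (j + 2))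
  lead1 : ∀ n β, TPC (2 * (2 * n)) (ld (2 * n) (Z (2 * n + 2)) β)
  lead2 : ∀ n β, tc (2 * (2 * n)) (ld (2 * n) (Z (2 * n + 2)) β) =
    ((w + 2) / 4 : ℝ) * (∏ k ∈ range (2 * n), ((1 / 16) * Complex.exp (-(4 * β k * Complex.I)))) *
      ((Z (2 * n) β : ℝ) : ℂ)

end OneArm
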