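import Pool.Agent.Helper18.OneArm.Fam
import Pool.Agent.Helper25.OneArm.GapB
import Pool.Agent.Helper64.IPC.Recur
import Pool.Agent.Helper64.IPC.Bil

/-! MODULE FamForm: the bilinear forms of the stationary vectors, exchange and recursion
(the axioms `Fam` are completed in `FamForm2`).
Exchange at `b 0 = b 1 + π/3`: `V (sw 0 b) = Es 0 (V b)`. -/

namespace OneArm
open IP IPC Finset Real

/-- the partition function of the form -/
noncomputable def Zf (f : ℕ → St → St → ℝ) (L : ℕ) (b : ℕ → ℝ) : ℝ :=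
  bil (f L) (IPC.V L (fun j => -b j)) (IPC.V L b)

theorem ff_Rs_apply (i : ℕ) (u : ℝ) (v : M) : Rs i u v = s (-u) • v + Real.sin u • Es i v := rfl

theorem ff_D4 (i : ℕ) : D4 (2 * i + 4) (2 * i + 6) (2 * i + 5) (2 * i + 7) := by
  refine ⟨?_, ?_, ?_, ?_, ?_, ?_⟩ <;> omega

theorem ff_unitarity (i : ℕ) (u : ℝ) (v : M) : Rs i u (Rs i (-u) v) = (s u * s (-u)) • v :=
  IPC.unitarity (ff_D4 i) u v

theorem V_sw_third {L : ℕ} (hL : 2 ≤ L) (b : ℕ → ℝ) (h : b 0 = b 1 + π / 3) :
    IPC.V L (sw 0 b) = Es 0 (IPC.V L b) := by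
  have h1 := V_sw (L := L) (i := 0) (by omega) b
  have hd : b 0 - b (0 + 1) = π / 3 := by
    rw [zero_add, h]
    ring
  rw [hd, rc_s_pi_third, ff_Rs_apply, rc_s_neg, zero_smul, zero_add] at h1
  exact smul_right_injective M (ne_of_gt rc_sin_pos) h1

/-- `Rs i u` is self-adjoint -/
theorem ff_Rs_adj {w : ℝ} {f : ℕ → St → St → ℝ} (hf : OAForm w f) {L i : ℕ} (hi : i + 1 < L) (u : ℝ)
    {v v' : M} (hv : v ∈ Sup (IPC.W L ∩ IPC.NC L)) (hv' : v' ∈ Sup (IPC.W L ∩ IPC.NC L)) :
    bil (f L) (Rs i u v) v' = bil (f L) v (Rs i u v') := by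
  rw [ff_Rs_apply, ff_Rs_apply, IPC.bil_add_left, IPC.bil_add_right, IPC.bil_smul_left,
    IPC.bil_smul_left, IPC.bil_smul_right, IPC.bil_smul_right, hf.es L i hi v hv v' hv']

theorem ff_Rs_NCSup {L i : ℕ} (hi : i + 1 < L) (u : ℝ) {v : M} (hv : v ∈ Sup (IPC.W L ∩ IPC.NC L)) :
    Rs i u v ∈ Sup (IPC.W L ∩ IPC.NC L) := by
  rw [ff_Rs_apply]
  exact add_mem (Submodule.smul_mem _ _ hv) (Submodule.smul_mem _ _ (Es_NCSup hi hv))

theorem ff_sw_neg (i : ℕ) (b : ℕ → ℝ) : (fun j => -sw i b j) = sw i (fun j => -b j) := rfl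

/-- the exchange where the factors do not vanish -/
theorem ff_Zf_sw_good {w : ℝ} {f : ℕ → St → St → ℝ} (hf : OAForm w f) {L i : ℕ} (hi : i + 1 < L)
    (b : ℕ → ℝ) (h : s (b i - b (i + 1)) * s (-(b i - b (i + 1))) ≠ 0) :
    Zf f L (sw i b) = Zf f L b := by
  set u := b i - b (i + 1) with hu
  have h1 : s u • IPC.V L (sw i b) = Rs i u (IPC.V L b) := V_sw hi b
  have h2 : s (-u) • IPC.V L (fun j => -sw i b j) = Rs i (-u) (IPC.V L (fun j => -b j)) := by
    have h3 := V_sw hi (fun j => -b j)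
    have h4 : (-b i) - (-b (i + 1)) = -u := by
      rw [hu]
      ring
    rw [h4] at h3
    rw [ff_sw_neg]
    exact h3
  have h5 : bil (f L) (s (-u) • IPC.V L (fun j => -sw i b j)) (s u • IPC.V L (sw i b)) =
      s u * s (-u) * Zf f L (sw i b) := by
    unfold Zf
    rw [IPC.bil_smul_left, IPC.bil_smul_right]
    ring
  have h6 : bil (f L) (Rs i (-u) (IPC.V L (fun j => -b j))) (Rs i u (IPC.V L b)) =
      s u * s (-u) * Zf f L b := by
    unfold Zf
    rw [ff_Rs_adj hf hi (-u) (V_NCSup L _) (ff_Rs_NCSup hi u (V_NCSup L _))]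
    have h7 := ff_unitarity i (-u) (IPC.V L b)
    rw [neg_neg] at h7
    rw [h7, IPC.bil_smul_right]
    ring
  rw [h2, h1, h6] at h5
  exact (mul_left_cancel₀ h h5).symm

theorem ff_s_continuous : Continuous s := by
  unfold s
  fun_prop

/-- `Zf` is continuous -/
theorem ff_Zf_continuous (f : ℕ → St → St → ℝ) (L : ℕ) : Continuous (Zf f L) := by
  have h : Zf f L = fun b => ∑ σ ∈ (IPC.W_finite L).toFinset, ∑ τ ∈ (IPC.W_finite L).toFinset,
      IPC.V L (fun j => -b j) σ * IPC.V L b τ * f L σ τ := by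
    funext b
    unfold Zf
    exact OneArm.bil_eq_sum (f L) L (IPC.V_Sup L _) (IPC.V_Sup L _)
  rw [h]
  refine continuous_finsetSum _ fun σ _ => continuous_finsetSum _ fun τ _ => ?_
  refine Continuous.mul (Continuous.mul ?_ (V_continuous L τ)) continuous_const
  exact (V_continuous L σ).comp (continuous_pi fun j => (continuous_apply j).neg)

theorem ff_good_dense (u : ℝ) : Dense {t : ℝ | s (u + t) * s (-(u + t)) ≠ 0} := by
  have hA : {t : ℝ | s (u + t) = 0}.Countable := by
    refine (Set.countable_range (fun k : ℤ => (k : ℝ) * π - π / 3 - u)).mono ?_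
    intro t ht
    obtain ⟨k, hk⟩ := Real.sin_eq_zero_iff.mp ht
    exact ⟨k, by simp only; linarith⟩
  have hB : {t : ℝ | s (-(u + t)) = 0}.Countable := by
    refine (Set.countable_range (fun k : ℤ => π / 3 - u - (k : ℝ) * π)).mono ?_
    intro t ht
    obtain ⟨k, hk⟩ := Real.sin_eq_zero_iff.mp ht
    exact ⟨k, by simp only; linarith⟩
  have := (hA.union hB).dense_compl ℝ
  refine this.mono ?_
  intro t ht
  simp only [Set.mem_compl_iff, Set.mem_union, Set.mem_ofPred_eq, not_or] at ht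
  exact mul_ne_zero ht.1 ht.2

theorem Zf_sw {w : ℝ} {f : ℕ → St → St → ℝ} (hf : OAForm w f) {L i : ℕ} (hi : i + 1 < L) (b : ℕ → ℝ) :
    Zf f L (sw i b) = Zf f L b := by
  -- shift the coordinate `i`
  let c : ℝ → ℕ → ℝ := fun t => Function.update b i (b i + t)
  have hc : Continuous c := by
    refine continuous_pi fun j => ?_
    by_cases hj : j = i
    · subst hj
      have : (fun t => c t j) = fun t => b j + t := by
        funext t
        exact Function.update_self _ _ _
      rw [this]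
      fun_prop
    · have : (fun t => c t j) = fun _ => b j := by
        funext t
        exact Function.update_of_ne hj _ _
      rw [this]
      exact continuous_const
  have hcs : Continuous (fun t => sw i (c t)) := by
    refine continuous_pi fun j => ?_
    exact (continuous_apply _).comp hc
  have h1 : Continuous (fun t => Zf f L (sw i (c t))) := (ff_Zf_continuous f L).comp hcs
  have h2 : Continuous (fun t => Zf f L (c t)) := (ff_Zf_continuous f L).comp hc
  have h3 : Set.EqOn (fun t => Zf f L (sw i (c t))) (fun t => Zf f L (c t))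
      {t : ℝ | s ((b i - b (i + 1)) + t) * s (-((b i - b (i + 1)) + t)) ≠ 0} := by
    intro t ht
    refine ff_Zf_sw_good hf hi (c t) ?_
    have e1 : c t i = b i + t := Function.update_self _ _ _
    have e2 : c t (i + 1) = b (i + 1) := Function.update_of_ne (by omega) _ _
    rw [e1, e2, show b i + t - b (i + 1) = (b i - b (i + 1)) + t by ring]
    exact ht
  have h4 := congrFun (Continuous.ext_on (ff_good_dense _) h1 h2 h3) 0
  have e0 : c 0 = b := by
    funext j
    by_cases hj : j = i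
    · subst hj
      show Function.update b j (b j + 0) j = b j
      rw [Function.update_self, add_zero]
    · exact Function.update_of_ne hj _ _
  simp only [e0] at h4
  exact h4

theorem Zf_rec {w : ℝ} {f : ℕ → St → St → ℝ} (hf : OAForm w f) (L : ℕ) (b : ℕ → ℝ) (h : b 1 = b 0 + π / 3) :
    Zf f (L + 2) b = 3 / 4 * (∏ k ∈ range L, s (b (k + 2) - b 0) ^ 4) * Zf f L (fun j => b (j + 2)) := by
  have hV := V_rec0 L b h
  have hneg : (fun j => -b j) 0 = (fun j => -b j) 1 + π / 3 := by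
    simp only
    rw [h]
    ring
  have hs := V_sw_third (L := L + 2) (by omega) (fun j => -b j) hneg
  set c : ℕ → ℝ := sw 0 (fun j => -b j) with hc
  have c0 : c 0 = -b 1 := by
    rw [hc]
    unfold sw
    simp
  have c1 : c 1 = -b 0 := by
    rw [hc]
    unfold sw
    simp
  have cj : ∀ j, c (j + 2) = -b (j + 2) := by
    intro j
    rw [hc]
    unfold sw
    rw [Equiv.swap_apply_of_ne_of_ne (by omega) (by omega)]
  have hVc := V_rec0 L c (by rw [c0, c1, h]; ring)
  have hcc : (fun j => c (j + 2)) = fun j => -b (j + 2) := funext cj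
  rw [hcc] at hVc
  have hE : Es 0 (IPC.V (L + 2) b) = IPC.V (L + 2) b := by
    rw [hV, map_smul, Es_In]
  have e1 : Zf f (L + 2) b = bil (f (L + 2)) (IPC.V (L + 2) c) (IPC.V (L + 2) b) := by
    unfold Zf
    conv_lhs => rw [← hE]
    rw [← hf.es (L + 2) 0 (by omega) _ (V_NCSup _ _) _ (V_NCSup _ _), hs]
  have hK : KK (L + 2) 0 c = KK (L + 2) 0 b := by
    rw [rc_KK_eq (Nat.zero_le L), rc_KK_eq (Nat.zero_le L)]
    unfold rc_K
    congr 1
    refine prod_congr rfl fun k hk => ?_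
    have er : ∀ d : ℕ → ℝ, rem 0 d k = d (k + 2) := fun d => by simp [rem]
    rw [er, er, cj, c0, h]
    congr 1
    rw [show -b (k + 2) - -(b 0 + π / 3) = -(b (k + 2) - b 0) + π / 3 by ring, rc_s_add, neg_neg]
  have hK2 : KK (L + 2) 0 b = Real.sqrt 3 / 2 * ∏ k ∈ range L, s (b (k + 2) - b 0) ^ 2 := by
    rw [rc_KK_eq (Nat.zero_le L)]
    unfold rc_K
    congr 1
  rw [e1, hVc, hV, IPC.bil_smul_left, IPC.bil_smul_right, hK,
    hf.ins L _ (IPC.V_Sup L _) _ (IPC.V_Sup L _), hK2]
  have h3 : Real.sqrt 3 ^ 2 = 3 := Real.sq_sqrt (by norm_num)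
  have h4 : ∏ k ∈ range L, s (b (k + 2) - b 0) ^ 4 = (∏ k ∈ range L, s (b (k + 2) - b 0) ^ 2) ^ 2 := by
    rw [← prod_pow]
    refine prod_congr rfl fun k _ => ?_
    ring
  rw [h4]
  unfold Zf
  linear_combination ((1 / 4) * (∏ k ∈ range L, s (b (k + 2) - b 0) ^ 2) ^ 2 *
    bil (f L) (IPC.V L (fun j => -b (j + 2))) (IPC.V L (fun j => b (j + 2)))) * h3

end OneArm
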