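import Pool.Agent.Helper64.IPC.Vsol

/-! MODULE JDeg: joint degree of the coordinates of `V L` when two parameters are shifted together
(proved by helper53).
Induction over `Gen` (`cyclic`): `F_l b = l (V L b)`.  `top`: `f0 L` (`2 (L-2)` factors depend on the shift);
`rt`: `V_rb`; `es`: `sin (b p - b (p+1)) * l (Es p (V L b)) = s (b p - b (p+1)) * l (V L (sw p b)) - s (-(b p - b (p+1))) * l (V L b)`
(from `V_sw`); if the shift does not change `b p - b (p+1)` divide by the constant (if it is zero: perturb, limit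
`TP.of_tendsto`), otherwise the numerator has degree `2 (L-2) + 1` in `c` and one divides by `sin (c - c0)` (`TP.div`). -/

namespace OneArm
open IP IPC Finset Real

/-- degree `d` in `c` when two different coordinates are shifted by `c` -/
def JD (L d : ℕ) (F : (ℕ → ℝ) → ℝ) : Prop := ∀ i < L, ∀ j < L, i ≠ j → ∀ b : ℕ → ℝ,
  TP d (fun c => F (Function.update (Function.update b i (b i + c)) j (b j + c)))

/-- indicator of `{i, j}` -/
def jdeg_chi (i j k : ℕ) : ℕ := (if k = i then 1 else 0) + (if k = j then 1 else 0)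

/-- shift of the coordinates `i`, `j` -/
noncomputable def jdeg_sh (i j : ℕ) (b : ℕ → ℝ) (c : ℝ) : ℕ → ℝ := fun k => b k + (jdeg_chi i j k : ℝ) * c

theorem jdeg_sh_eq {i j : ℕ} (h : i ≠ j) (b : ℕ → ℝ) (c : ℝ) :
    Function.update (Function.update b i (b i + c)) j (b j + c) = jdeg_sh i j b c := by
  funext k
  unfold jdeg_sh jdeg_chi
  by_cases h1 : k = j
  · subst h1
    rw [Function.update_self, if_neg (fun e => h e.symm), if_pos rfl]
    push_cast
    ring
  · rw [Function.update_of_ne h1]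
    by_cases h2 : k = i
    · subst h2
      rw [Function.update_self, if_pos rfl, if_neg h]
      push_cast
      ring
    · rw [Function.update_of_ne h2, if_neg h2, if_neg h1]
      push_cast
      ring

/-! ### counting -/

theorem jdeg_double (m : ℕ → ℕ → ℕ) (hs : ∀ x y, m x y = m y x) (h0 : ∀ x, m x x = 0) (L : ℕ) :
    2 * ∑ y ∈ range L, ∑ x ∈ range y, m x y = ∑ y ∈ range L, ∑ x ∈ range L, m x y := by
  induction L with
  | zero => simp
  | succ L ih =>
    rw [sum_range_succ, mul_add, ih, sum_range_succ (fun y => ∑ x ∈ range (L + 1), m x y)]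
    have h1 : ∑ y ∈ range L, ∑ x ∈ range (L + 1), m x y =
        ∑ y ∈ range L, ∑ x ∈ range L, m x y + ∑ y ∈ range L, m L y := by
      rw [← sum_add_distrib]
      exact sum_congr rfl fun y _ => sum_range_succ _ _
    have h2 : ∑ x ∈ range (L + 1), m x L = ∑ x ∈ range L, m x L := by
      rw [sum_range_succ, h0, add_zero]
    have h3 : ∑ y ∈ range L, m L y = ∑ x ∈ range L, m x L := sum_congr rfl fun y _ => hs _ _
    rw [h1, h2, h3]
    ring

theorem jdeg_chi_sum {L i j : ℕ} (hi : i < L) (hj : j < L) : ∑ k ∈ range L, jdeg_chi i j k = 2 := by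
  unfold jdeg_chi
  rw [sum_add_distrib, Finset.sum_ite_eq' (range L) i, Finset.sum_ite_eq' (range L) j,
    if_pos (mem_range.2 hi), if_pos (mem_range.2 hj)]

theorem jdeg_chi_le {i j : ℕ} (h : i ≠ j) (k : ℕ) : jdeg_chi i j k = 0 ∨ jdeg_chi i j k = 1 := by
  unfold jdeg_chi
  by_cases h1 : k = i
  · by_cases h2 : k = j
    · exact absurd (h1.symm.trans h2) h
    · right; rw [if_pos h1, if_neg h2]
  · by_cases h2 : k = j
    · right; rw [if_neg h1, if_pos h2]
    · left; rw [if_neg h1, if_neg h2]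

/-- degree of the factor `s (b x - b y)` -/
def jdeg_m (i j x y : ℕ) : ℕ := if jdeg_chi i j x = jdeg_chi i j y then 0 else 1

theorem jdeg_m_id {i j : ℕ} (h : i ≠ j) (x y : ℕ) :
    jdeg_m i j x y + 2 * (jdeg_chi i j x * jdeg_chi i j y) = jdeg_chi i j x + jdeg_chi i j y := by
  unfold jdeg_m
  rcases jdeg_chi_le h x with hx | hx <;> rcases jdeg_chi_le h y with hy | hy <;> rw [hx, hy] <;> simp

theorem jdeg_count {L i j : ℕ} (hi : i < L) (hj : j < L) (h : i ≠ j) :
    ∑ y ∈ range L, ∑ x ∈ range y, jdeg_m i j x y = 2 * (L - 2) := by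
  have h1 := jdeg_double (jdeg_m i j) (fun x y => by unfold jdeg_m; simp only [eq_comm])
    (fun x => by unfold jdeg_m; rw [if_pos rfl]) L
  have h2 : ∑ y ∈ range L, ∑ x ∈ range L, jdeg_m i j x y +
      2 * ∑ y ∈ range L, ∑ x ∈ range L, jdeg_chi i j x * jdeg_chi i j y =
      ∑ y ∈ range L, ∑ x ∈ range L, (jdeg_chi i j x + jdeg_chi i j y) := by
    rw [mul_sum, ← sum_add_distrib]
    refine sum_congr rfl fun y _ => ?_
    rw [mul_sum, ← sum_add_distrib]
    exact sum_congr rfl fun x _ => jdeg_m_id h x y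
  have h3 : ∑ y ∈ range L, ∑ x ∈ range L, jdeg_chi i j x * jdeg_chi i j y = 4 := by
    have : ∀ y ∈ range L, ∑ x ∈ range L, jdeg_chi i j x * jdeg_chi i j y = 2 * jdeg_chi i j y := by
      intro y _
      rw [← sum_mul, jdeg_chi_sum hi hj]
    rw [sum_congr rfl this, ← mul_sum, jdeg_chi_sum hi hj]
    norm_num
  have h4 : ∑ y ∈ range L, ∑ x ∈ range L, (jdeg_chi i j x + jdeg_chi i j y) = 4 * L := by
    have : ∀ y ∈ range L, ∑ x ∈ range L, (jdeg_chi i j x + jdeg_chi i j y) = 2 + L * jdeg_chi i j y := by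
      intro y _
      rw [sum_add_distrib, jdeg_chi_sum hi hj, sum_const, card_range, smul_eq_mul]
    rw [sum_congr rfl this, sum_add_distrib, ← mul_sum, jdeg_chi_sum hi hj, sum_const, card_range,
      smul_eq_mul]
    ring
  omega

/-! ### the top coordinate -/

theorem jdeg_fac {i j : ℕ} (h : i ≠ j) (b : ℕ → ℝ) (x y : ℕ) :
    TP (jdeg_m i j x y) (fun c => s (jdeg_sh i j b c x - jdeg_sh i j b c y)) := by
  unfold jdeg_m jdeg_sh
  rcases jdeg_chi_le h x with hx | hx <;> rcases jdeg_chi_le h y with hy | hy <;> rw [hx, hy]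
  · rw [if_pos rfl]
    refine (TP.const (s (b x - b y))).tb_congr fun c => ?_
    congr 1
    push_cast
    ring
  · rw [if_neg (by norm_num)]
    refine (TP.s_sub (b x - b y)).tb_congr fun c => ?_
    congr 1
    push_cast
    ring
  · rw [if_neg (by norm_num)]
    refine (TP.s_add (b x - b y)).tb_congr fun c => ?_
    congr 1
    push_cast
    ring
  · rw [if_pos rfl]
    refine (TP.const (s (b x - b y))).tb_congr fun c => ?_
    congr 1
    push_cast
    ring

theorem jdeg_top {L i j : ℕ} (hi : i < L) (hj : j < L) (h : i ≠ j) (b : ℕ → ℝ) :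
    TP (2 * (L - 2)) (fun c => IPC.f0 L (jdeg_sh i j b c)) := by
  rw [← jdeg_count hi hj h]
  unfold IPC.f0
  exact TP.prod _ fun y _ => TP.prod _ fun x _ => jdeg_fac h b x y

/-! ### continuity -/

theorem jdeg_expand (L : ℕ) (l : M →ₗ[ℝ] ℝ) {v : M} (hv : v ∈ Sup (IPC.W L)) :
    l v = ∑ σ ∈ (IPC.W_finite L).toFinset, v σ * l (Finsupp.single σ 1) := by
  have h1 : v = ∑ σ ∈ v.support, Finsupp.single σ (v σ) := by
    have := Finsupp.sum_single v
    rw [Finsupp.sum] at this
    exact this.symm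
  have h2 : l v = ∑ σ ∈ v.support, v σ * l (Finsupp.single σ 1) := by
    conv_lhs => rw [h1]
    rw [map_sum]
    refine sum_congr rfl fun σ _ => ?_
    have : Finsupp.single σ (v σ) = v σ • Finsupp.single σ (1 : ℝ) := by
      rw [Finsupp.smul_single, smul_eq_mul, mul_one]
    rw [this, map_smul, smul_eq_mul]
  rw [h2]
  refine sum_subset ?_ ?_
  · intro σ hσ
    rw [Set.Finite.mem_toFinset]
    exact hv hσ
  · intro σ _ hσ
    rw [Finsupp.notMem_support_iff.1 hσ, zero_mul]

theorem jdeg_cont (L : ℕ) (l : M →ₗ[ℝ] ℝ) : Continuous (fun b => l (V L b)) := by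
  have : (fun b => l (V L b)) =
      fun b => ∑ σ ∈ (IPC.W_finite L).toFinset, V L b σ * l (Finsupp.single σ 1) := by
    funext b
    exact jdeg_expand L l (V_Sup L b)
  rw [this]
  exact continuous_finsetSum _ fun σ _ => (V_continuous L σ).mul continuous_const

theorem jdeg_sh_cont (i j : ℕ) (b : ℕ → ℝ) : Continuous (jdeg_sh i j b) := by
  unfold jdeg_sh
  exact continuous_pi fun k => continuous_const.add (continuous_const.mul continuous_id)

/-! ### division -/

theorem jdeg_sin_ne {u : ℝ} (hu : Real.sin u = 0) (n : ℕ) :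
    Real.sin (u + 1 / ((n : ℝ) + 1)) ≠ 0 := by
  rw [Real.sin_add, hu, zero_mul, zero_add]
  have hc : Real.cos u ≠ 0 := by
    intro h
    have := Real.sin_sq_add_cos_sq u
    rw [hu, h] at this
    norm_num at this
  refine mul_ne_zero hc (ne_of_gt (Real.sin_pos_of_pos_of_lt_pi (by positivity) ?_))
  have h1 : 1 / ((n : ℝ) + 1) ≤ 1 := by
    rw [div_le_one (by positivity)]
    linarith [n.cast_nonneg (α := ℝ)]
  linarith [Real.pi_gt_three]

theorem jdeg_lim : Filter.Tendsto (fun n : ℕ => 1 / ((n : ℝ) + 1)) Filter.atTop (nhds 0) :=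
  tendsto_one_div_add_atTop_nhds_zero_nat

theorem jdeg_div {m : ℕ} {N H : ℝ → ℝ} (hN : TP (m + 1) N) (hH : Continuous H) (y : ℝ)
    (h : ∀ c, N c = Real.sin (c - y) * H c) : TP m H := by
  obtain ⟨G, hG, hG'⟩ := hN.div y (by rw [h, sub_self, Real.sin_zero, zero_mul])
  refine hG.tb_congr fun c => ?_
  have key : ∀ c, Real.sin (c - y) ≠ 0 → H c = G c := by
    intro c hc
    have := (h c).symm.trans (hG' c)
    exact mul_left_cancel₀ hc this
  by_cases hc : Real.sin (c - y) = 0
  · have h1 : Filter.Tendsto (fun n : ℕ => c + 1 / ((n : ℝ) + 1)) Filter.atTop (nhds c) := by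
      have := jdeg_lim.const_add c
      rwa [add_zero] at this
    have h2 : ∀ n : ℕ, H (c + 1 / ((n : ℝ) + 1)) = G (c + 1 / ((n : ℝ) + 1)) := by
      intro n
      apply key
      have := jdeg_sin_ne hc n
      have e : c + 1 / ((n : ℝ) + 1) - y = c - y + 1 / ((n : ℝ) + 1) := by ring
      rw [e]
      exact this
    have h3 := (hH.tendsto c).comp h1
    have h4 := (hG.continuous.tendsto c).comp h1
    have h5 : (H ∘ fun n : ℕ => c + 1 / ((n : ℝ) + 1)) = (G ∘ fun n : ℕ => c + 1 / ((n : ℝ) + 1)) :=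
      funext h2
    rw [h5] at h3
    exact tendsto_nhds_unique h3 h4
  · exact key c hc

/-! ### the relations -/

theorem jdeg_es {L p : ℕ} (hp : p + 1 < L) (l : M →ₗ[ℝ] ℝ) (b : ℕ → ℝ) :
    Real.sin (b p - b (p + 1)) * (l ∘ₗ Es p) (V L b) =
      s (b p - b (p + 1)) * l (V L (sw p b)) - s (-(b p - b (p + 1))) * l (V L b) := by
  have h := congrArg l (V_sw hp b)
  have e : Rs p (b p - b (p + 1)) (V L b) =
      s (-(b p - b (p + 1))) • V L b + Real.sin (b p - b (p + 1)) • Es p (V L b) := rfl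
  rw [e, map_smul, map_add, map_smul, map_smul, smul_eq_mul, smul_eq_mul, smul_eq_mul] at h
  rw [LinearMap.comp_apply]
  linarith

theorem jdeg_sw (p i j : ℕ) (b : ℕ → ℝ) (c : ℝ) :
    sw p (jdeg_sh i j b c) = jdeg_sh (Equiv.swap p (p + 1) i) (Equiv.swap p (p + 1) j) (sw p b) c := by
  funext k
  unfold sw jdeg_sh jdeg_chi
  have h1 : ∀ i, (Equiv.swap p (p + 1) k = i) ↔ (k = Equiv.swap p (p + 1) i) := by
    intro i
    constructor
    · rintro rfl
      rw [Equiv.swap_apply_self]
    · rintro rfl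
      rw [Equiv.swap_apply_self]
  simp only [h1]

/-- rotated index -/
def jdeg_r (L i : ℕ) : ℕ := if i + 1 = L then 0 else i + 1

theorem jdeg_rb {L i j : ℕ} (hi : i < L) (hj : j < L) (b : ℕ → ℝ) (c : ℝ) :
    rb L (jdeg_sh i j b c) = jdeg_sh (jdeg_r L i) (jdeg_r L j) (rb L b) c := by
  funext k
  unfold rb jdeg_sh
  dsimp only
  by_cases hk : k < L
  · rw [if_pos hk, if_pos hk]
    by_cases h0 : k = 0
    · rw [if_pos h0, if_pos h0]
      congr 3
      unfold jdeg_chi jdeg_r
      subst h0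
      have e : ∀ i, i < L → ((L - 1 = i) ↔ (0 = if i + 1 = L then 0 else i + 1)) := by
        intro i hi
        by_cases hh : i + 1 = L
        · rw [if_pos hh]
          exact ⟨fun _ => rfl, fun _ => by omega⟩
        · rw [if_neg hh]
          exact ⟨fun h => by omega, fun h => by omega⟩
      have e1 := e i hi
      have e2 := e j hj
      simp only [e1, e2]
    · rw [if_neg h0, if_neg h0]
      congr 3
      unfold jdeg_chi jdeg_r
      have e1 : (k - 1 = i) ↔ (k = if i + 1 = L then 0 else i + 1) := by split_ifs <;> omega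
      have e2 : (k - 1 = j) ↔ (k = if j + 1 = L then 0 else j + 1) := by split_ifs <;> omega
      simp only [e1, e2]
  · rw [if_neg hk, if_neg hk]
    congr 3
    unfold jdeg_chi jdeg_r
    have e1 : (k = i) ↔ (k = if i + 1 = L then 0 else i + 1) := by split_ifs <;> omega
    have e2 : (k = j) ↔ (k = if j + 1 = L then 0 else j + 1) := by split_ifs <;> omega
    simp only [e1, e2]

theorem jdeg_r_lt {L i : ℕ} (hi : i < L) : jdeg_r L i < L := by
  unfold jdeg_r
  split_ifs <;> omega

theorem jdeg_r_ne {L i j : ℕ} (h : i ≠ j) : jdeg_r L i ≠ jdeg_r L j := by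
  unfold jdeg_r
  split_ifs <;> omega

theorem jdeg_chi_swap (p i j k : ℕ) :
    jdeg_chi (Equiv.swap p (p + 1) i) (Equiv.swap p (p + 1) j) k = jdeg_chi i j (Equiv.swap p (p + 1) k) := by
  unfold jdeg_chi
  have h1 : ∀ i, (Equiv.swap p (p + 1) k = i) ↔ (k = Equiv.swap p (p + 1) i) := by
    intro i
    constructor
    · rintro rfl
      rw [Equiv.swap_apply_self]
    · rintro rfl
      rw [Equiv.swap_apply_self]
  simp only [h1]

/-- the inductive step for `Es` -/
theorem jdeg_step {L p : ℕ} (hp : p + 1 < L) (l : M →ₗ[ℝ] ℝ)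
    (ih : ∀ i < L, ∀ j < L, i ≠ j → ∀ b : ℕ → ℝ, TP (2 * (L - 2)) (fun c => l (V L (jdeg_sh i j b c))))
    {i j : ℕ} (hi : i < L) (hj : j < L) (hij : i ≠ j) (b : ℕ → ℝ) :
    TP (2 * (L - 2)) (fun c => (l ∘ₗ Es p) (V L (jdeg_sh i j b c))) := by
  have hF2 : ∀ b : ℕ → ℝ, TP (2 * (L - 2)) (fun c => l (V L (jdeg_sh i j b c))) := ih i hi j hj hij
  have hF1 : ∀ b : ℕ → ℝ, TP (2 * (L - 2)) (fun c => l (V L (sw p (jdeg_sh i j b c)))) := by
    intro b
    simp only [jdeg_sw]
    exact ih _ (tb_swap_lt hp hi) _ (tb_swap_lt hp hj)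
      (fun e => hij ((Equiv.swap p (p + 1)).injective e)) _
  have hcont : ∀ b : ℕ → ℝ, Continuous (fun c => (l ∘ₗ Es p) (V L (jdeg_sh i j b c))) := fun b =>
    (jdeg_cont L (l ∘ₗ Es p)).comp (jdeg_sh_cont i j b)
  have hrel := fun b : ℕ → ℝ => fun c : ℝ => jdeg_es hp l (jdeg_sh i j b c)
  rcases jdeg_chi_le hij p with h1 | h1 <;> rcases jdeg_chi_le hij (p + 1) with h2 | h2
  all_goals
    have hu : ∀ b : ℕ → ℝ, ∀ c : ℝ, jdeg_sh i j b c p - jdeg_sh i j b c (p + 1) =
        b p - b (p + 1) + ((jdeg_chi i j p : ℝ) - jdeg_chi i j (p + 1)) * c := by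
      intro b c
      unfold jdeg_sh
      ring
    rw [h1, h2] at hu
  -- the difference does not change
  · have hA : ∀ b : ℕ → ℝ, Real.sin (b p - b (p + 1)) ≠ 0 →
        TP (2 * (L - 2)) (fun c => (l ∘ₗ Es p) (V L (jdeg_sh i j b c))) := by
      intro b hb
      refine (((hF1 b).smul (s (b p - b (p + 1)))).sub
        ((hF2 b).smul (s (-(b p - b (p + 1)))))).smul ((Real.sin (b p - b (p + 1)))⁻¹) |>.tb_congr fun c => ?_
      have h := hrel b c
      rw [hu b c] at h
      simp only [Nat.cast_zero, sub_self, zero_mul, add_zero] at h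
      rw [← h, ← mul_assoc, inv_mul_cancel₀ hb, one_mul]
    by_cases hb : Real.sin (b p - b (p + 1)) = 0
    · refine TP.of_tendsto (F := fun n c => (l ∘ₗ Es p) (V L (jdeg_sh i j
        (Function.update b p (b p + 1 / ((n : ℝ) + 1))) c))) (fun n => hA _ ?_) fun c => ?_
      · rw [Function.update_self, Function.update_of_ne (by omega : p + 1 ≠ p)]
        have := jdeg_sin_ne hb n
        have e : b p + 1 / ((n : ℝ) + 1) - b (p + 1) = b p - b (p + 1) + 1 / ((n : ℝ) + 1) := by ring
        rw [e]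
        exact this
      · have h3 : Filter.Tendsto (fun n : ℕ => jdeg_sh i j (Function.update b p (b p + 1 / ((n : ℝ) + 1))) c)
            Filter.atTop (nhds (jdeg_sh i j b c)) := by
          rw [tendsto_pi_nhds]
          intro k
          unfold jdeg_sh
          refine Filter.Tendsto.add ?_ tendsto_const_nhds
          by_cases hk : k = p
          · subst hk
            simp only [Function.update_self]
            have := jdeg_lim.const_add (b k)
            rwa [add_zero] at this
          · simp only [Function.update_of_ne hk]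
            exact tendsto_const_nhds
        exact ((jdeg_cont L (l ∘ₗ Es p)).tendsto _).comp h3
    · exact hA b hb
  -- `b p - b (p+1)` decreases
  · have hN : TP (2 * (L - 2) + 1) (fun c => -(s (b p - b (p + 1) - c) * l (V L (sw p (jdeg_sh i j b c))) -
        s (c - (b p - b (p + 1))) * l (V L (jdeg_sh i j b c)))) := by
      have g1 := (TP.s_sub (b p - b (p + 1))).mul (hF1 b)
      have g2 := (TP.s_add (-(b p - b (p + 1)))).mul (hF2 b)
      rw [add_comm 1] at g1 g2
      exact (g1.sub g2).neg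
    refine jdeg_div hN (hcont b) (b p - b (p + 1)) fun c => ?_
    have h := hrel b c
    rw [hu b c] at h
    simp only [Nat.cast_zero, Nat.cast_one] at h
    have e1 : b p - b (p + 1) + (0 - 1) * c = b p - b (p + 1) - c := by ring
    have e2 : -(b p - b (p + 1) - c) = c - (b p - b (p + 1)) := by ring
    rw [e1, e2] at h
    rw [← h]
    have e3 : Real.sin (c - (b p - b (p + 1))) = -Real.sin (b p - b (p + 1) - c) := by
      rw [← Real.sin_neg]
      congr 1
      ring
    rw [e3]
    ring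
  -- `b p - b (p+1)` increases
  · have hN : TP (2 * (L - 2) + 1) (fun c => s (c + (b p - b (p + 1))) * l (V L (sw p (jdeg_sh i j b c))) -
        s (-(b p - b (p + 1)) - c) * l (V L (jdeg_sh i j b c))) := by
      have g1 := (TP.s_add (b p - b (p + 1))).mul (hF1 b)
      have g2 := (TP.s_sub (-(b p - b (p + 1)))).mul (hF2 b)
      rw [add_comm 1] at g1 g2
      exact g1.sub g2
    refine jdeg_div hN (hcont b) (-(b p - b (p + 1))) fun c => ?_
    have h := hrel b c
    rw [hu b c] at h
    simp only [Nat.cast_zero, Nat.cast_one] at h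
    have e1 : b p - b (p + 1) + (1 - 0) * c = c + (b p - b (p + 1)) := by ring
    have e2 : -(c + (b p - b (p + 1))) = -(b p - b (p + 1)) - c := by ring
    rw [e1, e2] at h
    rw [← h]
    congr 2
    ring
  · have hA : ∀ b : ℕ → ℝ, Real.sin (b p - b (p + 1)) ≠ 0 →
        TP (2 * (L - 2)) (fun c => (l ∘ₗ Es p) (V L (jdeg_sh i j b c))) := by
      intro b hb
      refine (((hF1 b).smul (s (b p - b (p + 1)))).sub
        ((hF2 b).smul (s (-(b p - b (p + 1)))))).smul ((Real.sin (b p - b (p + 1)))⁻¹) |>.tb_congr fun c => ?_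
      have h := hrel b c
      rw [hu b c] at h
      simp only [sub_self, zero_mul, add_zero] at h
      rw [← h, ← mul_assoc, inv_mul_cancel₀ hb, one_mul]
    by_cases hb : Real.sin (b p - b (p + 1)) = 0
    · refine TP.of_tendsto (F := fun n c => (l ∘ₗ Es p) (V L (jdeg_sh i j
        (Function.update b p (b p + 1 / ((n : ℝ) + 1))) c))) (fun n => hA _ ?_) fun c => ?_
      · rw [Function.update_self, Function.update_of_ne (by omega : p + 1 ≠ p)]
        have := jdeg_sin_ne hb n
        have e : b p + 1 / ((n : ℝ) + 1) - b (p + 1) = b p - b (p + 1) + 1 / ((n : ℝ) + 1) := by ring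
        rw [e]
        exact this
      · have h3 : Filter.Tendsto (fun n : ℕ => jdeg_sh i j (Function.update b p (b p + 1 / ((n : ℝ) + 1))) c)
            Filter.atTop (nhds (jdeg_sh i j b c)) := by
          rw [tendsto_pi_nhds]
          intro k
          unfold jdeg_sh
          refine Filter.Tendsto.add ?_ tendsto_const_nhds
          by_cases hk : k = p
          · subst hk
            simp only [Function.update_self]
            have := jdeg_lim.const_add (b k)
            rwa [add_zero] at this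
          · simp only [Function.update_of_ne hk]
            exact tendsto_const_nhds
        exact ((jdeg_cont L (l ∘ₗ Es p)).tendsto _).comp h3
    · exact hA b hb

theorem jdeg_gen {L : ℕ} {l : M →ₗ[ℝ] ℝ} (h : Gen L l) :
    ∀ i < L, ∀ j < L, i ≠ j → ∀ b : ℕ → ℝ, TP (2 * (L - 2)) (fun c => l (V L (jdeg_sh i j b c))) := by
  induction h with
  | top =>
    intro i hi j hj hij b
    refine (jdeg_top hi hj hij b).tb_congr fun c => ?_
    rw [Finsupp.lapply_apply, V_top]
  | es p hp l _ ih =>
    intro i hi j hj hij b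
    exact jdeg_step hp l ih hi hj hij b
  | rt l _ ih =>
    intro i hi j hj hij b
    refine (ih _ (jdeg_r_lt hi) _ (jdeg_r_lt hj) (jdeg_r_ne hij) (rb L b)).tb_congr fun c => ?_
    rw [LinearMap.comp_apply, ← V_rb, jdeg_rb hi hj]
  | add l l' _ _ ih ih' =>
    intro i hi j hj hij b
    refine ((ih i hi j hj hij b).add (ih' i hi j hj hij b)).tb_congr fun c => ?_
    rw [LinearMap.add_apply]
  | smul c l _ ih =>
    intro i hi j hj hij b
    refine ((ih i hi j hj hij b).smul c).tb_congr fun c => ?_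
    rw [LinearMap.smul_apply, smul_eq_mul]

theorem jdeg_V {L : ℕ} (σ : St) {i j : ℕ} (hi : i < L) (hj : j < L) (hij : i ≠ j) (b : ℕ → ℝ) :
    TP (2 * (L - 2)) (fun c => IPC.V L (jdeg_sh i j b c) σ) := by
  by_cases h : σ ∈ IPC.W L ∩ IPC.NC L
  · obtain ⟨l, hl, hl'⟩ := cyclic L h.1 h.2
    refine (jdeg_gen hl i hi j hj hij b).tb_congr fun c => ?_
    rw [hl' _ (V_NCSup L _)]
  · refine (TP.zero (2 * (L - 2))).tb_congr fun c => ?_
    by_contra hne
    exact h (V_NCSup L (jdeg_sh i j b c) (Finsupp.mem_support_iff.2 hne))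

theorem V_JD {L : ℕ} (hL : 2 ≤ L) (σ : St) : JD L (2 * (L - 2)) (fun b => IPC.V L b σ) := by
  intro i hi j hj hij b
  refine (jdeg_V σ hi hj hij b).tb_congr fun c => ?_
  rw [jdeg_sh_eq hij]

/-- form used later -/
theorem V_JD_cons {m : ℕ} (x y : ℝ) (β : ℕ → ℝ) (σ : St) :
    TP (2 * m) (fun c => IPC.V (m + 2) (IPC.cons (x + c) (IPC.cons (y + c) β)) σ) := by
  have h := jdeg_V (L := m + 2) σ (i := 0) (j := 1) (by omega) (by omega) (by norm_num)
    (IPC.cons x (IPC.cons y β))
  rw [Nat.add_sub_cancel] at h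
  refine h.tb_congr fun c => ?_
  congr 2
  funext k
  match k with
  | 0 =>
    show x + c = x + (jdeg_chi 0 1 0 : ℝ) * c
    unfold jdeg_chi
    norm_num
  | 1 =>
    show y + c = y + (jdeg_chi 0 1 1 : ℝ) * c
    unfold jdeg_chi
    norm_num
  | k + 2 =>
    show β k = β k + (jdeg_chi 0 1 (k + 2) : ℝ) * c
    have e : jdeg_chi 0 1 (k + 2) = 0 := by
      unfold jdeg_chi
      rw [if_neg (by omega), if_neg (by omega)]
    rw [e, Nat.cast_zero, zero_mul, add_zero]

end OneArm
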