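import Pool.Agent.Helper18.OneArm.Tc2

/-! MODULE TwoLine: the two-line leading coefficient, abstract form (4 variables). -/

namespace OneArm
open IP IPC Finset Real

/-! ### all coefficients -/

/-- the function `e^{i(2l-a)x}` -/
noncomputable def ef (a l : ℕ) (x : ℝ) : ℂ := Complex.exp (-(a * x * Complex.I)) * Complex.exp (2 * x * Complex.I) ^ l

theorem ef_TPC {a l : ℕ} (h : l ≤ a) : TPC a (ef a l) := by
  refine ⟨Polynomial.X ^ l, (Polynomial.natDegree_X_pow_le l).trans h, fun x => ?_⟩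
  rw [Polynomial.eval_pow, Polynomial.eval_X]
  rfl

/-- coefficient of `e^{i(2l-a)x}` -/
noncomputable def cf (a l : ℕ) (F : ℝ → ℂ) : ℂ :=
  ((a : ℂ) + 1)⁻¹ * ∑ k ∈ range (a + 1),
    Complex.exp ((a * (π * k / (a + 1) : ℝ) * Complex.I)) *
      Complex.exp (-(2 * (π * k / (a + 1) : ℝ) * Complex.I)) ^ l * F (π * k / (a + 1))

theorem cf_eq {a l : ℕ} (hl : l ≤ a) {F : ℝ → ℂ} (P : Polynomial ℂ) (hP : P.natDegree ≤ a)
    (h : ∀ x : ℝ, F x = Complex.exp (-(a * x * Complex.I)) * P.eval (Complex.exp (2 * x * Complex.I))) :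
    cf a l F = P.coeff l := by
  unfold cf
  set ζ : ℂ := Complex.exp (2 * π * Complex.I / ((a + 1 : ℕ) : ℂ)) with hζ
  have hprim : IsPrimitiveRoot ζ (a + 1) := Complex.isPrimitiveRoot_exp (a + 1) (by omega)
  have hm : ((a : ℂ) + 1) ≠ 0 := by exact_mod_cast (by omega : a + 1 ≠ 0)
  have h1 : ∀ k : ℕ, Complex.exp (2 * ((π * k / (a + 1) : ℝ) : ℂ) * Complex.I) = ζ ^ k := by
    intro k
    rw [hζ, ← Complex.exp_nat_mul]
    congr 1
    push_cast
    field_simp
  have h2 : ∀ k : ℕ, Complex.exp (-(2 * ((π * k / (a + 1) : ℝ) : ℂ) * Complex.I)) = ζ ^ (a * k) := by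
    intro k
    rw [Complex.exp_neg, h1]
    refine inv_eq_of_mul_eq_one_right ?_
    rw [← pow_add, show k + a * k = (a + 1) * k by ring, pow_mul, hprim.pow_eq_one, one_pow]
  have h3 : ∀ k : ℕ, Complex.exp ((a * ((π * k / (a + 1) : ℝ) : ℂ) * Complex.I)) *
      Complex.exp (-(a * ((π * k / (a + 1) : ℝ) : ℂ) * Complex.I)) = 1 := by
    intro k
    rw [← Complex.exp_add, add_neg_cancel, Complex.exp_zero]
  have h4 : ∀ k ∈ range (a + 1), Complex.exp ((a * ((π * k / (a + 1) : ℝ) : ℂ) * Complex.I)) *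
      Complex.exp (-(2 * ((π * k / (a + 1) : ℝ) : ℂ) * Complex.I)) ^ l * F (π * k / (a + 1)) =
      ∑ j ∈ range (a + 1), P.coeff j * (ζ ^ (a * l + j)) ^ k := by
    intro k _
    rw [h, h2, h1, Polynomial.eval_eq_sum_range' (Nat.lt_succ_of_le hP), mul_sum, mul_sum]
    refine sum_congr rfl fun j _ => ?_
    have e1 : (ζ ^ (a * l + j)) ^ k = (ζ ^ (a * k)) ^ l * (ζ ^ k) ^ j := by
      rw [← pow_mul, ← pow_mul, ← pow_mul, ← pow_add]
      congr 1
      ring
    rw [e1]
    linear_combination ((ζ ^ (a * k)) ^ l * P.coeff j * (ζ ^ k) ^ j) * h3 k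
  rw [sum_congr rfl h4, sum_comm]
  have h5 : ∀ j ∈ range (a + 1), ∑ k ∈ range (a + 1), P.coeff j * (ζ ^ (a * l + j)) ^ k =
      if j = l then P.coeff l * (a + 1) else 0 := by
    intro j hj
    rw [← mul_sum]
    rw [mem_range] at hj
    split_ifs with hjl
    · subst hjl
      rw [show a * j + j = (a + 1) * j by ring, pow_mul, hprim.pow_eq_one, one_pow]
      simp
    · have h6 : ζ ^ (a * l + j) ≠ 1 := by
        intro h7
        have h8 := hprim.dvd_of_pow_eq_one _ h7
        have h9 : (a + 1) ∣ (a * l + l) := ⟨l, by ring⟩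
        have h10 : ((a + 1 : ℕ) : ℤ) ∣ (j : ℤ) - l := by
          have h11 : ((a + 1 : ℕ) : ℤ) ∣ ((a * l + j : ℕ) : ℤ) := by exact_mod_cast h8
          have h12 : ((a + 1 : ℕ) : ℤ) ∣ ((a * l + l : ℕ) : ℤ) := by exact_mod_cast h9
          have h13 := dvd_sub h11 h12
          push_cast at h13 ⊢
          rwa [show ((a : ℤ) * l + j - (a * l + l)) = j - l by ring] at h13
        obtain ⟨t, ht⟩ := h10
        have h14 : t = 0 := by
          by_contra h0
          rcases lt_or_gt_of_ne h0 with h0 | h0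
          · have : ((a + 1 : ℕ) : ℤ) * t ≤ -((a + 1 : ℕ) : ℤ) := by nlinarith
            push_cast at this ht
            omega
          · have : ((a + 1 : ℕ) : ℤ) ≤ ((a + 1 : ℕ) : ℤ) * t := by nlinarith
            push_cast at this ht
            omega
        rw [h14, mul_zero] at ht
        exact hjl (by omega)
      rw [geom_sum_eq h6, ← pow_mul, mul_comm (a * l + j), pow_mul, hprim.pow_eq_one, one_pow, sub_self,
        zero_div, mul_zero]
  rw [sum_congr rfl h5, sum_ite_eq' (range (a + 1)) l, if_pos (mem_range.2 (Nat.lt_succ_of_le hl))]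
  field_simp

theorem cf_top {m : ℕ} {F : ℝ → ℂ} (hF : TPC m F) : cf m m F = tc m F := by
  obtain ⟨P, hP, h⟩ := hF
  rw [cf_eq le_rfl P hP h, tc_eq P hP h]

theorem cf_expand {a : ℕ} {F : ℝ → ℂ} (hF : TPC a F) (x : ℝ) :
    F x = ∑ l ∈ range (a + 1), cf a l F * ef a l x := by
  obtain ⟨P, hP, h⟩ := hF
  rw [h x, Polynomial.eval_eq_sum_range' (Nat.lt_succ_of_le hP), mul_sum]
  refine sum_congr rfl fun l hl => ?_
  rw [cf_eq (Nat.lt_succ_iff.1 (mem_range.1 hl)) P hP h]
  unfold ef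
  ring

theorem ef_neg {a l : ℕ} (hl : l ≤ a) (x : ℝ) : ef a l (-x) = ef a (a - l) x := by
  unfold ef
  rw [← Complex.exp_nat_mul, ← Complex.exp_nat_mul, ← Complex.exp_add, ← Complex.exp_add]
  congr 1
  push_cast [Nat.cast_sub hl]
  ring

theorem TPC_neg {a : ℕ} {F : ℝ → ℂ} (hF : TPC a F) : TPC a (fun x => F (-x)) := by
  refine tc_TPC_congr (tc_TPC_sum (range (a + 1)) (F := fun l x => cf a l F * ef a (a - l) x)
    fun l _ => (ef_TPC (Nat.sub_le a l)).const_mul _) fun x => ?_
  rw [cf_expand hF (-x)]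
  refine sum_congr rfl fun l hl => ?_
  rw [ef_neg (Nat.lt_succ_iff.1 (mem_range.1 hl))]

/-! ### functionals of parameter dependent functions -/

theorem TPC_tc {a d : ℕ} {G : ℝ → ℝ → ℂ} (h : ∀ x, TPC d (fun c => G c x)) :
    TPC d (fun c => tc a (fun x => G c x)) := by
  unfold tc
  exact (tc_TPC_sum (range (a + 1)) fun k _ => (h _).const_mul _).const_mul _

theorem TPC_cf {a l d : ℕ} {G : ℝ → ℝ → ℂ} (h : ∀ x, TPC d (fun c => G c x)) :
    TPC d (fun c => cf a l (fun x => G c x)) := by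
  unfold cf
  exact (tc_TPC_sum (range (a + 1)) fun k _ => (h _).const_mul _).const_mul _

theorem tc_comm (a b : ℕ) (G : ℝ → ℝ → ℂ) :
    tc a (fun x => tc b (fun y => G x y)) = tc b (fun y => tc a (fun x => G x y)) := by
  unfold tc
  simp only [mul_sum]
  rw [sum_comm]
  refine sum_congr rfl fun k _ => sum_congr rfl fun l _ => ?_
  ring

/-- (D) the diagonal -/
theorem diag_TPC {a b : ℕ} {G : ℝ → ℝ → ℂ} (h1 : ∀ c, TPC a (fun c' => G c' c))
    (h2 : ∀ c', TPC b (fun c => G c' c)) : TPC (a + b) (fun c => G c c) := by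
  have h3 : ∀ c' c, G c' c = ∑ l ∈ range (a + 1), cf a l (fun z => G z c) * ef a l c' :=
    fun c' c => cf_expand (h1 c) c'
  refine tc_TPC_congr (tc_TPC_sum (range (a + 1)) (F := fun l c => ef a l c * cf a l (fun z => G z c))
    fun l hl => ?_) fun c => ?_
  · exact (ef_TPC (Nat.lt_succ_iff.1 (mem_range.1 hl))).mul (TPC_cf (G := fun c z => G z c) fun z => h2 z)
  · rw [h3 c c]
    exact sum_congr rfl fun l _ => mul_comm _ _

theorem diag_tc {a b : ℕ} {G : ℝ → ℝ → ℂ} (h1 : ∀ c, TPC a (fun c' => G c' c))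
    (h2 : ∀ c', TPC b (fun c => G c' c)) :
    tc (a + b) (fun c => G c c) = tc a (fun c' => tc b (fun c => G c' c)) := by
  have h3 : ∀ c' c, G c' c = ∑ l ∈ range (a + 1), ef a l c' * cf a l (fun z => G z c) := by
    intro c' c
    rw [cf_expand (h1 c) c']
    exact sum_congr rfl fun l _ => mul_comm _ _
  have h4 : tc (a + b) (fun c => G c c) =
      ∑ l ∈ range (a + 1), tc a (ef a l) * tc b (fun c => cf a l (fun z => G z c)) := by
    rw [tc_congr (fun c => h3 c c), tc_sum]
    refine sum_congr rfl fun l hl => ?_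
    exact tc_mul (ef_TPC (Nat.lt_succ_iff.1 (mem_range.1 hl))) (TPC_cf (G := fun c z => G z c) fun z => h2 z)
  have h5 : ∀ c', tc b (fun c => G c' c) =
      ∑ l ∈ range (a + 1), ef a l c' * tc b (fun c => cf a l (fun z => G z c)) := by
    intro c'
    rw [tc_congr (fun c => h3 c' c), tc_sum]
    exact sum_congr rfl fun l _ => tc_const_mul _ _ _
  rw [h4, tc_congr h5, tc_sum]
  exact sum_congr rfl fun l _ => (tc_mul_const _ _ _).symm

/-! ### two variables with a joint degree bound -/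

/-- data for the lemma (J), `M = m + 1` -/
structure J2 (m : ℕ) (g : ℝ → ℝ → ℂ) : Prop where
  h1 : ∀ y, TPC (m + 1) (fun x => g x y)
  h2 : ∀ x, TPC (m + 1) (fun y => g x y)
  hj : ∀ p q, TPC (2 * m) (fun c => g (p + c) (q + c))

theorem J2.swap {m : ℕ} {g : ℝ → ℝ → ℂ} (h : J2 m g) : J2 m (fun x y => g y x) :=
  ⟨h.h2, h.h1, fun p q => h.hj q p⟩

/-- coefficients -/
noncomputable def vk (m : ℕ) (g : ℝ → ℝ → ℂ) (k l : ℕ) : ℂ :=
  cf (m + 1) k (fun x => cf (m + 1) l (fun y => g x y))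

theorem J2.expand {m : ℕ} {g : ℝ → ℝ → ℂ} (h : J2 m g) (x y : ℝ) :
    g x y = ∑ l ∈ range (m + 2), ∑ k ∈ range (m + 2), vk m g k l * ef (m + 1) k x * ef (m + 1) l y := by
  rw [cf_expand (h.h2 x) y]
  refine sum_congr rfl fun l _ => ?_
  have h1 : TPC (m + 1) (fun x => cf (m + 1) l (fun y => g x y)) := TPC_cf h.h1
  rw [cf_expand h1 x, sum_mul]
  rfl

theorem ef_add (a l : ℕ) (p c : ℝ) : ef a l (p + c) = ef a l p * ef a l c := by
  unfold ef
  have e1 : Complex.exp (-(a * ((p + c : ℝ) : ℂ) * Complex.I)) =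
      Complex.exp (-(a * p * Complex.I)) * Complex.exp (-(a * c * Complex.I)) := by
    rw [← Complex.exp_add]
    congr 1
    push_cast
    ring
  have e2 : Complex.exp (2 * ((p + c : ℝ) : ℂ) * Complex.I) =
      Complex.exp (2 * p * Complex.I) * Complex.exp (2 * c * Complex.I) := by
    rw [← Complex.exp_add]
    congr 1
    push_cast
    ring
  rw [e1, e2]
  ring

/-- the polynomial of the joint shift -/
noncomputable def jpoly (m : ℕ) (g : ℝ → ℝ → ℂ) (p q : ℝ) : Polynomial ℂ :=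
  ∑ l ∈ range (m + 2), ∑ k ∈ range (m + 2),
    Polynomial.C (vk m g k l * ef (m + 1) k p * ef (m + 1) l q) * Polynomial.X ^ (k + l)

theorem jpoly_natDegree (m : ℕ) (g : ℝ → ℝ → ℂ) (p q : ℝ) : (jpoly m g p q).natDegree ≤ 2 * m + 2 := by
  unfold jpoly
  refine Polynomial.natDegree_sum_le_of_forall_le _ _ fun l hl => ?_
  refine Polynomial.natDegree_sum_le_of_forall_le _ _ fun k hk => ?_
  rw [mem_range] at hl hk
  exact (Polynomial.natDegree_C_mul_X_pow_le _ _).trans (by omega)

theorem J2.jpoly_eval {m : ℕ} {g : ℝ → ℝ → ℂ} (h : J2 m g) (p q c : ℝ) :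
    g (p + c) (q + c) = Complex.exp (-(((2 * m + 2 : ℕ) : ℂ) * c * Complex.I)) *
      (jpoly m g p q).eval (Complex.exp (2 * c * Complex.I)) := by
  rw [h.expand]
  unfold jpoly
  rw [Polynomial.eval_finsetSum, mul_sum]
  refine sum_congr rfl fun l _ => ?_
  rw [Polynomial.eval_finsetSum, mul_sum]
  refine sum_congr rfl fun k _ => ?_
  rw [Polynomial.eval_mul, Polynomial.eval_C, Polynomial.eval_pow, Polynomial.eval_X, ef_add, ef_add]
  have e1 : ef (m + 1) k c * ef (m + 1) l c =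
      Complex.exp (-(((2 * m + 2 : ℕ) : ℂ) * c * Complex.I)) * Complex.exp (2 * c * Complex.I) ^ (k + l) := by
    unfold ef
    have e2 : Complex.exp (-(((2 * m + 2 : ℕ) : ℂ) * c * Complex.I)) =
        Complex.exp (-(((m + 1 : ℕ) : ℂ) * c * Complex.I)) * Complex.exp (-(((m + 1 : ℕ) : ℂ) * c * Complex.I)) := by
      rw [← Complex.exp_add]
      congr 1
      push_cast
      ring
    rw [e2]
    ring
  linear_combination (vk m g k l * ef (m + 1) k p * ef (m + 1) l q) * e1

theorem double_sum_top (m : ℕ) (f : ℕ → ℕ → ℂ) :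
    ∑ l ∈ range (m + 2), ∑ k ∈ range (m + 2), (if 2 * m + 2 = k + l then f k l else 0) = f (m + 1) (m + 1) := by
  rw [sum_eq_single (m + 1), sum_eq_single (m + 1)]
  · rw [if_pos (by ring)]
  · intro k hk hne
    rw [mem_range] at hk
    rw [if_neg (by omega)]
  · intro h
    exact absurd (mem_range.2 (by omega)) h
  · intro l hl hne
    rw [mem_range] at hl
    refine sum_eq_zero fun k hk => ?_
    rw [mem_range] at hk
    rw [if_neg (by omega)]
  · intro h
    exact absurd (mem_range.2 (by omega)) h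

theorem double_sum_next (m : ℕ) (f : ℕ → ℕ → ℂ) :
    ∑ l ∈ range (m + 2), ∑ k ∈ range (m + 2), (if 2 * m + 1 = k + l then f k l else 0) =
      f (m + 1) m + f m (m + 1) := by
  rw [sum_range_succ, sum_range_succ]
  have h0 : ∑ l ∈ range m, ∑ k ∈ range (m + 2), (if 2 * m + 1 = k + l then f k l else 0) = 0 := by
    refine sum_eq_zero fun l hl => sum_eq_zero fun k hk => ?_
    rw [mem_range] at hl hk
    rw [if_neg (by omega)]
  have h1 : ∑ k ∈ range (m + 2), (if 2 * m + 1 = k + m then f k m else 0) = f (m + 1) m := by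
    rw [sum_eq_single (m + 1)]
    · rw [if_pos (by ring)]
    · intro k hk hne
      rw [mem_range] at hk
      rw [if_neg (by omega)]
    · intro h
      exact absurd (mem_range.2 (by omega)) h
  have h2 : ∑ k ∈ range (m + 2), (if 2 * m + 1 = k + (m + 1) then f k (m + 1) else 0) = f m (m + 1) := by
    rw [sum_eq_single m]
    · rw [if_pos (by ring)]
    · intro k hk hne
      rw [mem_range] at hk
      rw [if_neg (by omega)]
    · intro h
      exact absurd (mem_range.2 (by omega)) h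
  rw [h0, h1, h2, zero_add]

theorem jpoly_coeff (m : ℕ) (g : ℝ → ℝ → ℂ) (p q : ℝ) (j : ℕ) : (jpoly m g p q).coeff j =
    ∑ l ∈ range (m + 2), ∑ k ∈ range (m + 2),
      (if j = k + l then vk m g k l * ef (m + 1) k p * ef (m + 1) l q else 0) := by
  unfold jpoly
  rw [Polynomial.finsetSum_coeff]
  refine sum_congr rfl fun l _ => ?_
  rw [Polynomial.finsetSum_coeff]
  refine sum_congr rfl fun k _ => ?_
  rw [Polynomial.coeff_C_mul_X_pow]

theorem J2.coeffs {m : ℕ} {g : ℝ → ℝ → ℂ} (h : J2 m g) (p q : ℝ) :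
    (jpoly m g p q).coeff (2 * m + 2) = 0 ∧
    (jpoly m g p q).coeff (2 * m + 1) = tc (2 * m) (fun c => g (p + c) (q + c)) := by
  obtain ⟨Q, hQ, hQ2⟩ := h.hj p q
  have h1 : ∀ x : ℝ, g (p + x) (q + x) = Complex.exp (-(((2 * m + 2 : ℕ) : ℂ) * x * Complex.I)) *
      (Polynomial.X * Q).eval (Complex.exp (2 * x * Complex.I)) := by
    intro x
    have h0 : g (p + x) (q + x) = _ := hQ2 x
    rw [h0, Polynomial.eval_mul, Polynomial.eval_X, ← mul_assoc, ← Complex.exp_add]
    congr 2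
    push_cast
    ring
  have hd : (Polynomial.X * Q).natDegree ≤ 2 * m + 2 := by
    refine Polynomial.natDegree_mul_le.trans ?_
    have := Polynomial.natDegree_X_le (R := ℂ)
    omega
  have e : ∀ j ≤ 2 * m + 2, (jpoly m g p q).coeff j = (Polynomial.X * Q).coeff j := by
    intro j hj
    rw [← cf_eq hj (jpoly m g p q) (jpoly_natDegree m g p q) (h.jpoly_eval p q),
      ← cf_eq hj (Polynomial.X * Q) hd h1]
  constructor
  · rw [e _ le_rfl, Polynomial.coeff_X_mul]
    exact Polynomial.coeff_eq_zero_of_natDegree_lt (by omega)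
  · rw [e _ (by omega), Polynomial.coeff_X_mul, tc_eq Q hQ hQ2]

theorem J2.vMM {m : ℕ} {g : ℝ → ℝ → ℂ} (h : J2 m g) : vk m g (m + 1) (m + 1) = 0 := by
  have h1 := (h.coeffs 0 0).1
  rw [jpoly_coeff, double_sum_top m (fun k l => vk m g k l * ef (m + 1) k 0 * ef (m + 1) l 0)] at h1
  have h2 : ef (m + 1) (m + 1) 0 = 1 := by
    unfold ef
    simp
  rw [h2, mul_one, mul_one] at h1
  exact h1

/-- `y ↦ e^{iy} * (top coefficient in x)` -/
noncomputable def tx (m : ℕ) (g : ℝ → ℝ → ℂ) (y : ℝ) : ℂ :=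
  Complex.exp (y * Complex.I) * tc (m + 1) (fun x => g x y)

theorem J2.tx_form {m : ℕ} {g : ℝ → ℝ → ℂ} (h : J2 m g) (y : ℝ) :
    tx m g y = Complex.exp (-(m * y * Complex.I)) *
      (∑ l ∈ range (m + 1), Polynomial.C (vk m g (m + 1) l) * Polynomial.X ^ l).eval
        (Complex.exp (2 * y * Complex.I)) := by
  have h1 : tc (m + 1) (fun x => g x y) = ∑ l ∈ range (m + 2), vk m g (m + 1) l * ef (m + 1) l y := by
    rw [← cf_top (h.h1 y)]
    have h2 : ∀ x, g x y = ∑ l ∈ range (m + 2), cf (m + 1) l (fun y => g x y) * ef (m + 1) l y :=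
      fun x => cf_expand (h.h2 x) y
    have h3 : cf (m + 1) (m + 1) (fun x => g x y) = cf (m + 1) (m + 1)
        (fun x => ∑ l ∈ range (m + 2), cf (m + 1) l (fun y => g x y) * ef (m + 1) l y) := by
      rw [funext h2]
    rw [h3]
    unfold vk
    conv_lhs => unfold cf
    simp only [mul_sum]
    rw [sum_comm]
    refine sum_congr rfl fun l _ => ?_
    conv_rhs => rw [cf]
    simp only [mul_sum, sum_mul]
    refine sum_congr rfl fun k _ => ?_
    unfold cf
    simp only [mul_sum, sum_mul]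
    refine sum_congr rfl fun j _ => ?_
    ring
  unfold tx
  rw [h1, sum_range_succ, h.vMM, zero_mul, add_zero, Polynomial.eval_finsetSum, mul_sum, mul_sum]
  refine sum_congr rfl fun l _ => ?_
  rw [Polynomial.eval_mul, Polynomial.eval_C, Polynomial.eval_pow, Polynomial.eval_X]
  unfold ef
  have e1 : Complex.exp (y * Complex.I) * Complex.exp (-(((m + 1 : ℕ) : ℂ) * y * Complex.I)) =
      Complex.exp (-(m * y * Complex.I)) := by
    rw [← Complex.exp_add]
    congr 1
    push_cast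
    ring
  linear_combination (vk m g (m + 1) l * Complex.exp (2 * y * Complex.I) ^ l) * e1

theorem J2.tx_TPC {m : ℕ} {g : ℝ → ℝ → ℂ} (h : J2 m g) : TPC m (tx m g) := by
  refine ⟨_, ?_, h.tx_form⟩
  refine Polynomial.natDegree_sum_le_of_forall_le _ _ fun l hl => ?_
  exact (Polynomial.natDegree_C_mul_X_pow_le _ _).trans (Nat.lt_succ_iff.1 (mem_range.1 hl))

theorem J2.tx_tc {m : ℕ} {g : ℝ → ℝ → ℂ} (h : J2 m g) : tc m (tx m g) = vk m g (m + 1) m := by
  rw [tc_eq _ ?_ h.tx_form]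
  · rw [Polynomial.finsetSum_coeff]
    simp only [Polynomial.coeff_C_mul_X_pow]
    rw [sum_ite_eq, if_pos (mem_range.2 (Nat.lt_succ_self m))]
  · refine Polynomial.natDegree_sum_le_of_forall_le _ _ fun l hl => ?_
    exact (Polynomial.natDegree_C_mul_X_pow_le _ _).trans (Nat.lt_succ_iff.1 (mem_range.1 hl))

theorem vk_swap (m : ℕ) (g : ℝ → ℝ → ℂ) (k l : ℕ) : vk m (fun x y => g y x) k l = vk m g l k := by
  unfold vk cf
  simp only [mul_sum]
  rw [sum_comm]
  refine sum_congr rfl fun i _ => sum_congr rfl fun j _ => ?_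
  ring

theorem ef_top (M : ℕ) (p : ℝ) : ef M M p = Complex.exp (M * p * Complex.I) := by
  unfold ef
  rw [← Complex.exp_nat_mul, ← Complex.exp_add]
  congr 1
  ring

theorem ef_next (m : ℕ) (p : ℝ) : ef (m + 1) m p = Complex.exp ((m - 1) * p * Complex.I) := by
  unfold ef
  rw [← Complex.exp_nat_mul, ← Complex.exp_add]
  congr 1
  push_cast
  ring

/-- (J) -/
theorem J2.joint {m : ℕ} {g : ℝ → ℝ → ℂ} (h : J2 m g) (p q : ℝ) :
    tc (2 * m) (fun c => g (p + c) (q + c)) =
      tc m (tx m g) * (Complex.exp ((m + 1) * p * Complex.I) * Complex.exp ((m - 1) * q * Complex.I)) +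
      tc m (tx m (fun x y => g y x)) *
        (Complex.exp ((m - 1) * p * Complex.I) * Complex.exp ((m + 1) * q * Complex.I)) := by
  rw [← (h.coeffs p q).2, jpoly_coeff,
    double_sum_next m (fun k l => vk m g k l * ef (m + 1) k p * ef (m + 1) l q), h.tx_tc, h.swap.tx_tc,
    vk_swap m g (m + 1) m, ef_top, ef_top, ef_next, ef_next]
  push_cast
  ring

/-! ### the main lemma -/

theorem q_rel : Complex.exp (2 * π / 3 * Complex.I) ^ 2 + Complex.exp (2 * π / 3 * Complex.I) + 1 = 0 := by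
  set q := Complex.exp (2 * π / 3 * Complex.I) with hq
  have h3 : q ^ 3 = 1 := by
    rw [hq, ← Complex.exp_nat_mul]
    rw [show ((3 : ℕ) : ℂ) * (2 * π / 3 * Complex.I) = 2 * π * Complex.I by push_cast; ring]
    exact Complex.exp_two_pi_mul_I
  have h1 : q ≠ 1 := by
    have := (Complex.isPrimitiveRoot_exp 3 (by norm_num)).ne_one (by norm_num)
    rw [hq]
    rwa [show (2 * π / 3 * Complex.I : ℂ) = 2 * π * Complex.I / ((3 : ℕ) : ℂ) by push_cast; ring]
  have h2 : (q - 1) * (q ^ 2 + q + 1) = 0 := by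
    linear_combination h3
  rcases mul_eq_zero.1 h2 with h | h
  · exact absurd (sub_eq_zero.1 h) h1
  · exact h

theorem two_line {m : ℕ} (Y : ℝ → ℝ → ℝ → ℝ → ℂ) (w : ℂ) (U : ℝ → ℂ)
    (h1 : ∀ x' y' y, TPC (m + 1) (fun x => Y x' y' x y))
    (h2 : ∀ x' y' x, TPC (m + 1) (fun y => Y x' y' x y))
    (h3 : ∀ y' x y, TPC (m + 1) (fun x' => Y x' y' x y))
    (h4 : ∀ x' x y, TPC (m + 1) (fun y' => Y x' y' x y))
    (j1 : ∀ x' y' x y, TPC (2 * m) (fun c => Y x' y' (x + c) (y + c)))
    (j2 : ∀ x' y' x y, TPC (2 * m) (fun c => Y (x' + c) (y' + c) x y))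
    (e11 : ∀ c, Y (-c) (π / 3 - c) c (π / 3 + c) = U c)
    (e12 : ∀ c, Y (-c) (π / 3 - c) (π / 3 + c) c = U c)
    (e21 : ∀ c, Y (π / 3 - c) (-c) c (π / 3 + c) = U c)
    (e22 : ∀ c, Y (π / 3 - c) (-c) (π / 3 + c) c = w * U c) :
    TPC (2 * m) (fun y => Complex.exp (2 * y * Complex.I) *
      tc (2 * (m + 1)) (fun x => Y (-x) (-y) x y)) ∧
    tc (2 * m) (fun y => Complex.exp (2 * y * Complex.I) *
      tc (2 * (m + 1)) (fun x => Y (-x) (-y) x y)) = (w + 2) / 3 * tc (4 * m) U := by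
  -- all variables with positive orientation
  set Y' : ℝ → ℝ → ℝ → ℝ → ℂ := fun x' y' x y => Y (-x') (-y') x y with hY'
  -- joint data in the unprimed variables
  have hJ : ∀ x' y', J2 m (Y' x' y') := fun x' y' =>
    ⟨h1 _ _, h2 _ _, fun p q => j1 _ _ p q⟩
  have hJp : ∀ x y, J2 m (fun x' y' => Y' x' y' x y) := by
    intro x y
    refine ⟨fun y' => TPC_neg (h3 (-y') x y), fun x' => TPC_neg (h4 (-x') x y), fun p q => ?_⟩
    have h5 := TPC_neg (j2 (-p) (-q) x y)
    refine tc_TPC_congr h5 fun c => ?_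
    simp only [hY']
    congr 1 <;> ring
  -- the two leading coefficients as functions of the primed variables
  set T1 : ℝ → ℝ → ℂ := fun x' y' => tc m (tx m (Y' x' y')) with hT1
  set T2 : ℝ → ℝ → ℂ := fun x' y' => tc m (tx m (fun x y => Y' x' y' y x)) with hT2
  have hJT1 : J2 m T1 := by
    refine ⟨fun y' => ?_, fun x' => ?_, fun p q => ?_⟩
    · exact TPC_tc fun y => (TPC_tc fun x => (hJp x y).h1 y').const_mul _
    · exact TPC_tc fun y => (TPC_tc fun x => (hJp x y).h2 x').const_mul _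
    · exact TPC_tc fun y => (TPC_tc fun x => (hJp x y).hj p q).const_mul _
  have hJT2 : J2 m T2 := by
    refine ⟨fun y' => ?_, fun x' => ?_, fun p q => ?_⟩
    · exact TPC_tc fun y => (TPC_tc fun x => (hJp y x).h1 y').const_mul _
    · exact TPC_tc fun y => (TPC_tc fun x => (hJp y x).h2 x').const_mul _
    · exact TPC_tc fun y => (TPC_tc fun x => (hJp y x).hj p q).const_mul _
  set A11 := tc m (tx m T1) with hA11
  set A21 := tc m (tx m (fun x y => T1 y x)) with hA21
  set A12 := tc m (tx m T2) with hA12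
  set A22 := tc m (tx m (fun x y => T2 y x)) with hA22
  -- four evaluations
  have key : ∀ p' q' p q : ℝ, tc (4 * m) (fun c => Y' (p' + c) (q' + c) (p + c) (q + c)) =
      (A11 * (Complex.exp ((m + 1) * p' * Complex.I) * Complex.exp ((m - 1) * q' * Complex.I)) +
        A21 * (Complex.exp ((m - 1) * p' * Complex.I) * Complex.exp ((m + 1) * q' * Complex.I))) *
        (Complex.exp ((m + 1) * p * Complex.I) * Complex.exp ((m - 1) * q * Complex.I)) +
      (A12 * (Complex.exp ((m + 1) * p' * Complex.I) * Complex.exp ((m - 1) * q' * Complex.I)) +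
        A22 * (Complex.exp ((m - 1) * p' * Complex.I) * Complex.exp ((m + 1) * q' * Complex.I))) *
        (Complex.exp ((m - 1) * p * Complex.I) * Complex.exp ((m + 1) * q * Complex.I)) := by
    intro p' q' p q
    have hd := diag_tc (a := 2 * m) (b := 2 * m)
      (G := fun c' c => Y' (p' + c') (q' + c') (p + c) (q + c))
      (fun c => (hJp (p + c) (q + c)).hj p' q') (fun c' => (hJ (p' + c') (q' + c')).hj p q)
    rw [show 2 * m + 2 * m = 4 * m by ring] at hd
    rw [hd, tc_congr (fun c' => (hJ (p' + c') (q' + c')).joint p q), tc_add, tc_mul_const, tc_mul_const,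
      hA11, hA21, hA12, hA22, ← hJT1.joint p' q', ← hJT2.joint p' q']
  set q := Complex.exp (2 * π / 3 * Complex.I) with hq
  set a := Complex.exp ((m + 1) * ((π / 3 : ℝ) : ℂ) * Complex.I) with ha
  set b := Complex.exp ((m - 1) * ((π / 3 : ℝ) : ℂ) * Complex.I) with hb
  set a' := Complex.exp ((m + 1) * ((-(π / 3) : ℝ) : ℂ) * Complex.I) with ha'
  set b' := Complex.exp ((m - 1) * ((-(π / 3) : ℝ) : ℂ) * Complex.I) with hb'
  have haa : a' * a = 1 := by
    rw [ha, ha', ← Complex.exp_add]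
    rw [show ((m + 1) * ((-(π / 3) : ℝ) : ℂ) * Complex.I + (m + 1) * ((π / 3 : ℝ) : ℂ) * Complex.I : ℂ) = 0 by
      push_cast; ring]
    exact Complex.exp_zero
  have hbb : b' * b = 1 := by
    rw [hb, hb', ← Complex.exp_add]
    rw [show ((m - 1) * ((-(π / 3) : ℝ) : ℂ) * Complex.I + (m - 1) * ((π / 3 : ℝ) : ℂ) * Complex.I : ℂ) = 0 by
      push_cast; ring]
    exact Complex.exp_zero
  have hba : b' * a = q := by
    rw [hb', ha, hq, ← Complex.exp_add]
    congr 1
    push_cast
    ring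
  have hq2 : q ^ 2 + q + 1 = 0 := q_rel
  have hab : a' * b = q ^ 2 := by
    have h5 : (a' * b) * q = 1 := by
      rw [← hba]
      linear_combination (a' * a) * hbb + haa
    have h6 : q ^ 3 = 1 := by linear_combination (q - 1) * hq2
    have h7 : q ≠ 0 := by
      intro h0
      rw [h0] at h6
      norm_num at h6
    apply mul_right_cancel₀ h7
    linear_combination h5 - h6
  have z1 : Complex.exp ((m + 1) * ((0 : ℝ) : ℂ) * Complex.I) = 1 := by simp
  have z2 : Complex.exp ((m - 1) * ((0 : ℝ) : ℂ) * Complex.I) = 1 := by simp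
  set T := tc (4 * m) U with hT
  have E11 : A11 + A21 * q ^ 2 + A12 * q + A22 = T := by
    have h5 := key 0 (-(π / 3)) 0 (π / 3)
    have h6 : tc (4 * m) (fun c => Y' (0 + c) (-(π / 3) + c) (0 + c) (π / 3 + c)) = T := by
      refine tc_congr fun c => ?_
      rw [← e11 c]
      simp only [hY']
      congr 1 <;> ring
    rw [h6, z1, z2, ← ha, ← hb, ← ha', ← hb'] at h5
    rw [h5]
    linear_combination (-A11) * hbb - A21 * hab - A12 * hba - A22 * haa
  have E12 : A11 * q + A21 + A12 + A22 * q ^ 2 = T := by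
    have h5 := key 0 (-(π / 3)) (π / 3) 0
    have h6 : tc (4 * m) (fun c => Y' (0 + c) (-(π / 3) + c) (π / 3 + c) (0 + c)) = T := by
      refine tc_congr fun c => ?_
      rw [← e12 c]
      simp only [hY']
      congr 1 <;> ring
    rw [h6, z1, z2, ← ha, ← hb, ← ha', ← hb'] at h5
    rw [h5]
    linear_combination (-A11) * hba - A21 * haa - A12 * hbb - A22 * hab
  have E21 : A11 * q ^ 2 + A21 + A12 + A22 * q = T := by
    have h5 := key (-(π / 3)) 0 0 (π / 3)
    have h6 : tc (4 * m) (fun c => Y' (-(π / 3) + c) (0 + c) (0 + c) (π / 3 + c)) = T := by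
      refine tc_congr fun c => ?_
      rw [← e21 c]
      simp only [hY']
      congr 1 <;> ring
    rw [h6, z1, z2, ← ha, ← hb, ← ha', ← hb'] at h5
    rw [h5]
    linear_combination (-A11) * hab - A21 * hbb - A12 * haa - A22 * hba
  have E22 : A11 + A21 * q + A12 * q ^ 2 + A22 = w * T := by
    have h5 := key (-(π / 3)) 0 (π / 3) 0
    have h6 : tc (4 * m) (fun c => Y' (-(π / 3) + c) (0 + c) (π / 3 + c) (0 + c)) = w * T := by
      rw [hT, ← tc_const_mul]
      refine tc_congr fun c => ?_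
      rw [← e22 c]
      simp only [hY']
      congr 1 <;> ring
    rw [h6, z1, z2, ← ha, ← hb, ← ha', ← hb'] at h5
    rw [h5]
    linear_combination (-A11) * haa - A21 * hba - A12 * hab - A22 * hbb
  have hA : A11 = (w + 2) / 3 * T := by
    have h6 : q ^ 3 = 1 := by linear_combination (q - 1) * hq2
    linear_combination (1 / 3) * E11 - (1 / 3) * q * E12 - (1 / 3) * q ^ 2 * E21 + (1 / 3) * E22 +
      (1 / 3 * (A11 * q + 2 * A22)) * h6 + (1 / 3 * (A11 - T)) * hq2
  -- the diagonal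
  set S : ℝ → ℝ → ℂ := fun y' y => Complex.exp (y' * Complex.I) *
    (Complex.exp (y * Complex.I) * tc (m + 1) (fun x' => tc (m + 1) (fun x => Y' x' y' x y))) with hS
  have hSy : ∀ y' y, S y' y = Complex.exp (y' * Complex.I) * tc (m + 1) (fun x' => tx m (Y' x' y') y) := by
    intro y' y
    rw [hS]
    beta_reduce
    rw [← tc_const_mul]
    rfl
  have hSy' : ∀ y' y, S y' y = Complex.exp (y * Complex.I) *
      tc (m + 1) (fun x => tx m (fun x' y' => Y' x' y' x y) y') := by
    intro y' y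
    rw [hS]
    beta_reduce
    rw [tc_comm, mul_left_comm, ← tc_const_mul]
    rfl
  have hS1 : ∀ y, TPC m (fun y' => S y' y) := by
    intro y
    refine tc_TPC_congr ((TPC_tc (a := m + 1) (G := fun y' x => tx m (fun x' y' => Y' x' y' x y) y')
      fun x => (hJp x y).tx_TPC).const_mul (Complex.exp (y * Complex.I))) fun y' => hSy' y' y
  have hS2 : ∀ y', TPC m (fun y => S y' y) := by
    intro y'
    refine tc_TPC_congr ((TPC_tc (a := m + 1) (G := fun y x' => tx m (Y' x' y') y)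
      fun x' => (hJ x' y').tx_TPC).const_mul (Complex.exp (y' * Complex.I))) fun y => hSy y' y
  have hdiag : ∀ y : ℝ, Complex.exp (2 * y * Complex.I) * tc (2 * (m + 1)) (fun x => Y (-x) (-y) x y) = S y y := by
    intro y
    have h5 := diag_tc (a := m + 1) (b := m + 1) (G := fun x' x => Y' x' y x y)
      (fun x => (hJp x y).h1 y) (fun x' => (hJ x' y).h1 y)
    rw [show m + 1 + (m + 1) = 2 * (m + 1) by ring] at h5
    have h6 : tc (2 * (m + 1)) (fun x => Y (-x) (-y) x y) =
        tc (m + 1) (fun x' => tc (m + 1) (fun x => Y' x' y x y)) := by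
      rw [← h5]
    rw [h6, hS]
    beta_reduce
    rw [← mul_assoc, ← Complex.exp_add]
    congr 2
    ring
  constructor
  · have h5 := diag_TPC hS1 hS2
    rw [← two_mul] at h5
    exact tc_TPC_congr h5 hdiag
  · have h5 := diag_tc hS1 hS2
    rw [← two_mul] at h5
    rw [tc_congr hdiag, h5]
    have h6 : ∀ y', tc m (fun y => S y' y) = tx m T1 y' := by
      intro y'
      rw [tc_congr (hSy y'), tc_const_mul, tc_comm]
      rfl
    rw [tc_congr h6, ← hA11, hA]

end OneArm
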