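import Pool.Agent.Helper18.OneArm.FamForm
import Pool.Agent.Helper18.OneArm.TwoLine
import Pool.Agent.Helper18.OneArm.JDeg

/-! MODULE FamForm2: the bilinear forms of the stationary vectors satisfy the axioms `Fam`
(`Fam_form`), via `two_line`. -/

namespace OneArm
open IP IPC Finset Real

/-! ### expansion, degrees, continuity -/

theorem fm_TP_right {f : St → St → ℝ} {L d : ℕ} {v : M} {w : ℝ → M} (hv : v ∈ Sup (IPC.W L))
    (hw : ∀ x, w x ∈ Sup (IPC.W L)) (h : ∀ σ, TP d (fun x => w x σ)) :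
    TP d (fun x => bil f v (w x)) := by
  have e : ∀ x, bil f v (w x) = ∑ σ ∈ (IPC.W_finite L).toFinset, ∑ τ ∈ (IPC.W_finite L).toFinset,
      (v σ * f σ τ) * w x τ := by
    intro x
    rw [OneArm.bil_eq_sum f L hv (hw x)]
    refine sum_congr rfl fun σ _ => sum_congr rfl fun τ _ => ?_
    ring
  refine TP.tb_congr ?_ e
  exact TP.sum _ fun σ _ => TP.sum _ fun τ _ => (h τ).smul _

theorem fm_TP_left {f : St → St → ℝ} {L d : ℕ} {v : ℝ → M} {w : M} (hv : ∀ x, v x ∈ Sup (IPC.W L))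
    (hw : w ∈ Sup (IPC.W L)) (h : ∀ σ, TP d (fun x => v x σ)) :
    TP d (fun x => bil f (v x) w) := by
  have e : ∀ x, bil f (v x) w = ∑ σ ∈ (IPC.W_finite L).toFinset, ∑ τ ∈ (IPC.W_finite L).toFinset,
      (w τ * f σ τ) * v x σ := by
    intro x
    rw [OneArm.bil_eq_sum f L (hv x) hw]
    refine sum_congr rfl fun σ _ => sum_congr rfl fun τ _ => ?_
    ring
  refine TP.tb_congr ?_ e
  exact TP.sum _ fun σ _ => TP.sum _ fun τ _ => (h σ).smul _

theorem fm_cons0 (x : ℝ) (b : ℕ → ℝ) : IPC.cons x b = Function.update (IPC.cons 0 b) 0 x := by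
  funext j
  match j with
  | 0 => rfl
  | j + 1 => rfl

theorem fm_cons1 (x y : ℝ) (b : ℕ → ℝ) :
    IPC.cons x (IPC.cons y b) = Function.update (IPC.cons x (IPC.cons 0 b)) 1 y := by
  funext j
  match j with
  | 0 => rfl
  | 1 => rfl
  | j + 2 => rfl

theorem fm_V_TP0 (m : ℕ) (y : ℝ) (β : ℕ → ℝ) (σ : St) :
    TP (m + 1) (fun x => IPC.V (m + 2) (IPC.cons x (IPC.cons y β)) σ) := by
  have h := (V_Sep (m + 2) σ).1 (IPC.cons 0 (IPC.cons y β)) 0 (by omega)
  refine TP.tb_congr h fun x => ?_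
  rw [fm_cons0]

theorem fm_V_TP1 (m : ℕ) (x : ℝ) (β : ℕ → ℝ) (σ : St) :
    TP (m + 1) (fun y => IPC.V (m + 2) (IPC.cons x (IPC.cons y β)) σ) := by
  have h := (V_Sep (m + 2) σ).1 (IPC.cons x (IPC.cons 0 β)) 1 (by omega)
  refine TP.tb_congr h fun y => ?_
  rw [fm_cons1]

/-- the form as a function of both parameter vectors is continuous -/
theorem fm_cont (f : St → St → ℝ) (L : ℕ) {c' c : ℝ → ℕ → ℝ} (hc' : Continuous c')
    (hc : Continuous c) : Continuous (fun t => bil f (IPC.V L (c' t)) (IPC.V L (c t))) := by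
  have h : (fun t => bil f (IPC.V L (c' t)) (IPC.V L (c t))) = fun t =>
      ∑ σ ∈ (IPC.W_finite L).toFinset, ∑ τ ∈ (IPC.W_finite L).toFinset,
      IPC.V L (c' t) σ * IPC.V L (c t) τ * f σ τ := by
    funext t
    exact OneArm.bil_eq_sum f L (IPC.V_Sup L _) (IPC.V_Sup L _)
  rw [h]
  refine continuous_finsetSum _ fun σ _ => continuous_finsetSum _ fun τ _ => ?_
  exact (((V_continuous L σ).comp hc').mul ((V_continuous L τ).comp hc)).mul continuous_const

/-! ### exchange in both vectors -/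

theorem fm_sw_good {w : ℝ} {f : ℕ → St → St → ℝ} (hf : OAForm w f) {L i : ℕ} (hi : i + 1 < L)
    (b' b : ℕ → ℝ) (h0 : b' i = -b i) (h1 : b' (i + 1) = -b (i + 1))
    (h : s (b i - b (i + 1)) * s (-(b i - b (i + 1))) ≠ 0) :
    bil (f L) (IPC.V L (sw i b')) (IPC.V L (sw i b)) = bil (f L) (IPC.V L b') (IPC.V L b) := by
  set u := b i - b (i + 1) with hu
  have h1' : s u • IPC.V L (sw i b) = Rs i u (IPC.V L b) := V_sw hi b
  have h2 : s (-u) • IPC.V L (sw i b') = Rs i (-u) (IPC.V L b') := by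
    have h3 := V_sw hi b'
    have h4 : b' i - b' (i + 1) = -u := by
      rw [h0, h1, hu]
      ring
    rw [h4] at h3
    exact h3
  have h5 : bil (f L) (s (-u) • IPC.V L (sw i b')) (s u • IPC.V L (sw i b)) =
      s u * s (-u) * bil (f L) (IPC.V L (sw i b')) (IPC.V L (sw i b)) := by
    rw [IPC.bil_smul_left, IPC.bil_smul_right]
    ring
  have h6 : bil (f L) (Rs i (-u) (IPC.V L b')) (Rs i u (IPC.V L b)) =
      s u * s (-u) * bil (f L) (IPC.V L b') (IPC.V L b) := by
    rw [ff_Rs_adj hf hi (-u) (V_NCSup L _) (ff_Rs_NCSup hi u (V_NCSup L _))]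
    have h7 := ff_unitarity i (-u) (IPC.V L b)
    rw [neg_neg] at h7
    rw [h7, IPC.bil_smul_right]
    ring
  rw [h2, h1', h6] at h5
  exact (mul_left_cancel₀ h h5).symm

theorem fm_sw {w : ℝ} {f : ℕ → St → St → ℝ} (hf : OAForm w f) {L i : ℕ} (hi : i + 1 < L)
    (b' b : ℕ → ℝ) (h0 : b' i = -b i) (h1 : b' (i + 1) = -b (i + 1)) :
    bil (f L) (IPC.V L (sw i b')) (IPC.V L (sw i b)) = bil (f L) (IPC.V L b') (IPC.V L b) := by
  let c : ℝ → ℕ → ℝ := fun t => Function.update b i (b i + t)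
  let c' : ℝ → ℕ → ℝ := fun t => Function.update b' i (b' i - t)
  have hc : Continuous c := by
    refine continuous_pi fun j => ?_
    by_cases hj : j = i
    · subst hj
      have : (fun t => c t j) = fun t => b j + t := by
        funext t
        exact Function.update_self _ _ _
      rw [this]
      fun_prop
    · have : (fun t => c t j) = fun _ => b j := by
        funext t
        exact Function.update_of_ne hj _ _
      rw [this]
      exact continuous_const
  have hc' : Continuous c' := by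
    refine continuous_pi fun j => ?_
    by_cases hj : j = i
    · subst hj
      have : (fun t => c' t j) = fun t => b' j - t := by
        funext t
        exact Function.update_self _ _ _
      rw [this]
      fun_prop
    · have : (fun t => c' t j) = fun _ => b' j := by
        funext t
        exact Function.update_of_ne hj _ _
      rw [this]
      exact continuous_const
  have hcs : Continuous (fun t => sw i (c t)) := by
    refine continuous_pi fun j => ?_
    exact (continuous_apply _).comp hc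
  have hcs' : Continuous (fun t => sw i (c' t)) := by
    refine continuous_pi fun j => ?_
    exact (continuous_apply _).comp hc'
  have g1 := fm_cont (f L) L hcs' hcs
  have g2 := fm_cont (f L) L hc' hc
  have h3 : Set.EqOn (fun t => bil (f L) (IPC.V L (sw i (c' t))) (IPC.V L (sw i (c t))))
      (fun t => bil (f L) (IPC.V L (c' t)) (IPC.V L (c t)))
      {t : ℝ | s ((b i - b (i + 1)) + t) * s (-((b i - b (i + 1)) + t)) ≠ 0} := by
    intro t ht
    have e1 : c t i = b i + t := Function.update_self _ _ _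
    have e2 : c t (i + 1) = b (i + 1) := Function.update_of_ne (by omega) _ _
    have e1' : c' t i = b' i - t := Function.update_self _ _ _
    have e2' : c' t (i + 1) = b' (i + 1) := Function.update_of_ne (by omega) _ _
    refine fm_sw_good hf hi (c' t) (c t) ?_ ?_ ?_
    · rw [e1, e1', h0]; ring
    · rw [e2, e2', h1]
    · rw [e1, e2, show b i + t - b (i + 1) = (b i - b (i + 1)) + t by ring]
      exact ht
  have h4 := congrFun (Continuous.ext_on (ff_good_dense _) g1 g2 h3) 0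
  have e0 : c 0 = b := by
    funext j
    by_cases hj : j = i
    · subst hj
      show Function.update b j (b j + 0) j = b j
      rw [Function.update_self, add_zero]
    · exact Function.update_of_ne hj _ _
  have e0' : c' 0 = b' := by
    funext j
    by_cases hj : j = i
    · subst hj
      show Function.update b' j (b' j - 0) j = b' j
      rw [Function.update_self, sub_zero]
    · exact Function.update_of_ne hj _ _
  simp only [e0, e0'] at h4
  exact h4

/-! ### moving the second coordinate to the end -/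

/-- `(x, β 0, ..., β (j-1), y, β j, ...)` -/
noncomputable def fm_mv (x y : ℝ) (β : ℕ → ℝ) (j : ℕ) : ℕ → ℝ := fun k =>
  if k = 0 then x else if k ≤ j then β (k - 1) else if k = j + 1 then y else β (k - 2)

theorem fm_mv_zero (x y : ℝ) (β : ℕ → ℝ) : fm_mv x y β 0 = IPC.cons x (IPC.cons y β) := by
  funext k
  match k with
  | 0 => rfl
  | 1 => rfl
  | k + 2 =>
    unfold fm_mv
    rw [if_neg (by omega), if_neg (by omega), if_neg (by omega)]
    rfl

theorem fm_mv_sw (x y : ℝ) (β : ℕ → ℝ) (j : ℕ) :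
    sw (j + 1) (fm_mv x y β (j + 1)) = fm_mv x y β j := by
  funext k
  unfold sw
  rcases eq_or_ne k (j + 1) with h | h
  · subst h
    rw [Equiv.swap_apply_left]
    unfold fm_mv
    rw [if_neg (by omega), if_neg (by omega), if_pos rfl, if_neg (by omega), if_neg (by omega),
      if_pos rfl]
  · rcases eq_or_ne k (j + 1 + 1) with h' | h'
    · subst h'
      rw [Equiv.swap_apply_right]
      unfold fm_mv
      rw [if_neg (by omega), if_pos (by omega), if_neg (by omega), if_neg (by omega),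
        if_neg (by omega)]
      congr 1
    · rw [Equiv.swap_apply_of_ne_of_ne h h']
      unfold fm_mv
      by_cases h0 : k = 0
      · rw [if_pos h0, if_pos h0]
      · rw [if_neg h0, if_neg h0]
        by_cases h1 : k ≤ j
        · rw [if_pos (by omega), if_pos h1]
        · rw [if_neg (by omega), if_neg h1, if_neg h', if_neg h]

theorem fm_move {w : ℝ} {f : ℕ → St → St → ℝ} (hf : OAForm w f) (m : ℕ) (x' x y : ℝ) (β : ℕ → ℝ)
    (j : ℕ) (hj : j ≤ m) :
    bil (f (m + 2)) (IPC.V (m + 2) (fm_mv x' (-y) (fun k => -β k) j))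
      (IPC.V (m + 2) (fm_mv x y β j)) =
    bil (f (m + 2)) (IPC.V (m + 2) (fm_mv x' (-y) (fun k => -β k) 0))
      (IPC.V (m + 2) (fm_mv x y β 0)) := by
  induction j with
  | zero => rfl
  | succ j ih =>
    have h := fm_sw hf (L := m + 2) (i := j + 1) (by omega)
      (fm_mv x' (-y) (fun k => -β k) (j + 1)) (fm_mv x y β (j + 1)) ?_ ?_
    · rw [fm_mv_sw, fm_mv_sw] at h
      rw [← h]
      exact ih (by omega)
    · unfold fm_mv
      rw [if_neg (by omega), if_pos le_rfl, if_neg (by omega), if_pos le_rfl]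
    · unfold fm_mv
      rw [if_neg (by omega), if_neg (by omega), if_pos rfl, if_neg (by omega), if_neg (by omega),
        if_pos rfl]

theorem fm_mv_rb (m : ℕ) (x y : ℝ) (β : ℕ → ℝ) :
    rb (m + 2) (fm_mv x y β m) = IPC.cons y (IPC.cons x β) := by
  funext k
  unfold rb
  match k with
  | 0 =>
    rw [if_pos (by omega), if_pos rfl]
    unfold fm_mv
    rw [if_neg (by omega), if_neg (by omega), if_pos (by omega)]
    rfl
  | 1 =>
    rw [if_pos (by omega), if_neg (by omega)]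
    unfold fm_mv
    rw [if_pos (by omega)]
    rfl
  | k + 2 =>
    by_cases h : k + 2 < m + 2
    · rw [if_pos h, if_neg (by omega)]
      unfold fm_mv
      rw [if_neg (by omega), if_pos (by omega)]
      rfl
    · rw [if_neg h]
      unfold fm_mv
      rw [if_neg (by omega), if_neg (by omega), if_neg (by omega)]
      rfl

/-- factor of the recursion -/
theorem fm_KK (m : ℕ) (y x : ℝ) (β : ℕ → ℝ) : KK (m + 2) 0 (IPC.cons y (IPC.cons x β)) =
    Real.sqrt 3 / 2 * ∏ k ∈ range m, s (β k - y) ^ 2 := by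
  rw [rc_KK_eq (Nat.zero_le m)]
  unfold rc_K
  congr 1

theorem fm_rec (m : ℕ) (y : ℝ) (β : ℕ → ℝ) :
    IPC.V (m + 2) (IPC.cons y (IPC.cons (π / 3 + y) β)) =
      (Real.sqrt 3 / 2 * ∏ k ∈ range m, s (β k - y) ^ 2) • IPC.In 0 (IPC.V m β) := by
  have h := V_rec0 m (IPC.cons y (IPC.cons (π / 3 + y) β)) (by
    show π / 3 + y = y + π / 3
    ring)
  rw [fm_KK] at h
  exact h

theorem fm_symm {L : ℕ} (v : M) : IPC.Rel (rtn L).symm (IPC.Rel (rtn L) v) = v := by
  rw [IPC.Rel_Rel]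
  have : (rtn L).symm * rtn L = 1 := by
    ext x
    simp
  rw [this, IPC.Rel_one]

theorem fm_last (m : ℕ) (y : ℝ) (β : ℕ → ℝ) :
    IPC.V (m + 2) (fm_mv (π / 3 + y) y β m) =
      (Real.sqrt 3 / 2 * ∏ k ∈ range m, s (β k - y) ^ 2) •
        IPC.Rel (rtn (m + 2)).symm (IPC.In 0 (IPC.V m β)) := by
  have h := V_rb (m + 2) (fm_mv (π / 3 + y) y β m)
  rw [fm_mv_rb, fm_rec] at h
  have h2 := congrArg (IPC.Rel (rtn (m + 2)).symm) h
  rw [fm_symm, map_smul] at h2
  exact h2.symm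

/-- the swapped pair in front -/
theorem fm_swapped (m : ℕ) (y : ℝ) (β : ℕ → ℝ) :
    Es 0 (IPC.V (m + 2) (IPC.cons (π / 3 + y) (IPC.cons y β))) =
      (Real.sqrt 3 / 2 * ∏ k ∈ range m, s (β k - y) ^ 2) • IPC.In 0 (IPC.V m β) := by
  have h := V_sw_third (L := m + 2) (by omega) (IPC.cons (π / 3 + y) (IPC.cons y β)) (by
    show π / 3 + y = y + π / 3
    ring)
  rw [← h]
  have e : sw 0 (IPC.cons (π / 3 + y) (IPC.cons y β)) = IPC.cons y (IPC.cons (π / 3 + y) β) := by
    funext k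
    unfold sw
    match k with
    | 0 => rw [Equiv.swap_apply_left]; rfl
    | 1 =>
      have h1 : (Equiv.swap (0 : ℕ) (0 + 1)) 1 = 0 := Equiv.swap_apply_right 0 1
      rw [h1]; rfl
    | k + 2 => rw [Equiv.swap_apply_of_ne_of_ne (by omega) (by omega)]; rfl
  rw [e, fm_rec]

/-! ### the four values -/

/-- the form of the two vectors -/
noncomputable def fm_Y (f : ℕ → St → St → ℝ) (m : ℕ) (β : ℕ → ℝ) (x' y' x y : ℝ) : ℝ :=
  bil (f (m + 2)) (IPC.V (m + 2) (IPC.cons x' (IPC.cons y' (fun k => -β k))))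
    (IPC.V (m + 2) (IPC.cons x (IPC.cons y β)))

/-- the common value -/
noncomputable def fm_U (f : ℕ → St → St → ℝ) (m : ℕ) (β : ℕ → ℝ) (c : ℝ) : ℝ :=
  3 / 4 * (∏ k ∈ range m, (s (c - β k) * s (β k - c)) ^ 2) * Zf f m β

theorem fm_prod (f : ℕ → St → St → ℝ) (m : ℕ) (β : ℕ → ℝ) (c : ℝ) :
    (Real.sqrt 3 / 2 * ∏ k ∈ range m, s (-β k - -c) ^ 2) *
      ((Real.sqrt 3 / 2 * ∏ k ∈ range m, s (β k - c) ^ 2) * Zf f m β) = fm_U f m β c := by
  unfold fm_U
  have h3 : Real.sqrt 3 ^ 2 = 3 := Real.sq_sqrt (by norm_num)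
  have e : ∏ k ∈ range m, (s (c - β k) * s (β k - c)) ^ 2 =
      (∏ k ∈ range m, s (-β k - -c) ^ 2) * ∏ k ∈ range m, s (β k - c) ^ 2 := by
    rw [← prod_mul_distrib]
    refine prod_congr rfl fun k _ => ?_
    rw [show -β k - -c = c - β k by ring]
    ring
  rw [e]
  linear_combination ((1 / 4) * (∏ k ∈ range m, s (-β k - -c) ^ 2) *
    (∏ k ∈ range m, s (β k - c) ^ 2) * Zf f m β) * h3

theorem fm_rec' (m : ℕ) (c : ℝ) (β : ℕ → ℝ) :
    IPC.V (m + 2) (IPC.cons (-c) (IPC.cons (π / 3 - c) (fun k => -β k))) =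
      (Real.sqrt 3 / 2 * ∏ k ∈ range m, s (-β k - -c) ^ 2) • IPC.In 0 (IPC.V m (fun k => -β k)) := by
  have h := fm_rec m (-c) (fun k => -β k)
  rw [← sub_eq_add_neg] at h
  exact h

theorem fm_swapped' (m : ℕ) (c : ℝ) (β : ℕ → ℝ) :
    Es 0 (IPC.V (m + 2) (IPC.cons (π / 3 - c) (IPC.cons (-c) (fun k => -β k)))) =
      (Real.sqrt 3 / 2 * ∏ k ∈ range m, s (-β k - -c) ^ 2) • IPC.In 0 (IPC.V m (fun k => -β k)) := by
  have h := fm_swapped m (-c) (fun k => -β k)
  rw [← sub_eq_add_neg] at h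
  exact h

theorem fm_e11 {w : ℝ} {f : ℕ → St → St → ℝ} (hf : OAForm w f) (m : ℕ) (β : ℕ → ℝ) (c : ℝ) :
    fm_Y f m β (-c) (π / 3 - c) c (π / 3 + c) = fm_U f m β c := by
  unfold fm_Y
  rw [fm_rec, fm_rec', IPC.bil_smul_left, IPC.bil_smul_right,
    hf.ins m _ (IPC.V_Sup m _) _ (IPC.V_Sup m _)]
  exact fm_prod f m β c

theorem fm_e12 {w : ℝ} {f : ℕ → St → St → ℝ} (hf : OAForm w f) (m : ℕ) (β : ℕ → ℝ) (c : ℝ) :
    fm_Y f m β (-c) (π / 3 - c) (π / 3 + c) c = fm_U f m β c := by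
  unfold fm_Y
  have h1 : IPC.V (m + 2) (IPC.cons (-c) (IPC.cons (π / 3 - c) (fun k => -β k))) =
      Es 0 (IPC.V (m + 2) (IPC.cons (-c) (IPC.cons (π / 3 - c) (fun k => -β k)))) := by
    rw [fm_rec', map_smul, Es_In]
  rw [h1, hf.es (m + 2) 0 (by omega) _ (V_NCSup _ _) _ (V_NCSup _ _), fm_swapped, fm_rec',
    IPC.bil_smul_left, IPC.bil_smul_right, hf.ins m _ (IPC.V_Sup m _) _ (IPC.V_Sup m _)]
  exact fm_prod f m β c

theorem fm_e21 {w : ℝ} {f : ℕ → St → St → ℝ} (hf : OAForm w f) (m : ℕ) (β : ℕ → ℝ) (c : ℝ) :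
    fm_Y f m β (π / 3 - c) (-c) c (π / 3 + c) = fm_U f m β c := by
  unfold fm_Y
  have h1 : IPC.V (m + 2) (IPC.cons c (IPC.cons (π / 3 + c) β)) =
      Es 0 (IPC.V (m + 2) (IPC.cons c (IPC.cons (π / 3 + c) β))) := by
    rw [fm_rec, map_smul, Es_In]
  rw [h1, ← hf.es (m + 2) 0 (by omega) _ (V_NCSup _ _) _ (V_NCSup _ _), fm_swapped', fm_rec,
    IPC.bil_smul_left, IPC.bil_smul_right, hf.ins m _ (IPC.V_Sup m _) _ (IPC.V_Sup m _)]
  exact fm_prod f m β c

theorem fm_e22 {w : ℝ} {f : ℕ → St → St → ℝ} (hf : OAForm w f) (m : ℕ) (β : ℕ → ℝ) (c : ℝ) :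
    fm_Y f m β (π / 3 - c) (-c) (π / 3 + c) c = w * fm_U f m β c := by
  unfold fm_Y
  have h := fm_move hf m (π / 3 - c) (π / 3 + c) c β m le_rfl
  rw [fm_mv_zero, fm_mv_zero] at h
  rw [← h, fm_last]
  have h2 := fm_last m (-c) (fun k => -β k)
  rw [← sub_eq_add_neg] at h2
  rw [h2, IPC.bil_smul_left, IPC.bil_smul_right, hf.wrap m _ (IPC.V_Sup m _) _ (IPC.V_Sup m _)]
  have h3 := fm_prod f m β c
  unfold Zf at h3
  rw [← h3]
  ring

/-! ### the leading coefficient of `U` -/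

theorem fm_ss2_TPC (y : ℝ) : TPC 4 (fun x : ℝ => (((s (x - y) * s (y - x)) ^ 2 : ℝ) : ℂ)) := by
  refine tc_TPC_congr ((TPC_ss y).mul (TPC_ss y)) fun x => ?_
  push_cast
  ring

theorem fm_ss2_tc (y : ℝ) : tc 4 (fun x : ℝ => (((s (x - y) * s (y - x)) ^ 2 : ℝ) : ℂ)) =
    1 / 16 * Complex.exp (-(4 * y * Complex.I)) := by
  have h1 := tc_mul (TPC_ss y) (TPC_ss y)
  rw [tc_ss] at h1
  have h2 : tc (2 + 2) (fun x : ℝ => ((s (x - y) * s (y - x) : ℝ) : ℂ) *
      ((s (x - y) * s (y - x) : ℝ) : ℂ)) =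
      tc 4 (fun x : ℝ => (((s (x - y) * s (y - x)) ^ 2 : ℝ) : ℂ)) := by
    refine tc_congr fun x => ?_
    push_cast
    ring
  rw [← h2, h1]
  have e1 : Complex.exp (-(4 * y * Complex.I)) =
      Complex.exp (-(2 * y * Complex.I)) * Complex.exp (-(2 * y * Complex.I)) := by
    rw [← Complex.exp_add]; congr 1; ring
  rw [e1]
  ring

theorem fm_U_tc (f : ℕ → St → St → ℝ) (m : ℕ) (β : ℕ → ℝ) :
    tc (4 * m) (fun c => ((fm_U f m β c : ℝ) : ℂ)) =
      3 / 4 * (∏ k ∈ range m, (1 / 16 * Complex.exp (-(4 * β k * Complex.I)))) *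
        ((Zf f m β : ℝ) : ℂ) := by
  have h := tc_prod_const (range m) 4
    (fun k x => (((s (x - β k) * s (β k - x)) ^ 2 : ℝ) : ℂ)) (fun k _ => fm_ss2_TPC (β k))
  rw [card_range, mul_comm] at h
  have e : ∀ c : ℝ, ((fm_U f m β c : ℝ) : ℂ) =
      (3 / 4 * ((Zf f m β : ℝ) : ℂ)) * ∏ k ∈ range m, (((s (c - β k) * s (β k - c)) ^ 2 : ℝ) : ℂ) := by
    intro c
    unfold fm_U
    push_cast
    ring
  rw [tc_congr e, tc_const_mul, h, prod_congr rfl fun k _ => fm_ss2_tc (β k)]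
  ring

/-! ### the axioms -/

theorem fm_neg (x y : ℝ) (β : ℕ → ℝ) : (fun j => -(IPC.cons x (IPC.cons y β)) j) =
    IPC.cons (-x) (IPC.cons (-y) (fun k => -β k)) := by
  funext j
  match j with
  | 0 => rfl
  | 1 => rfl
  | j + 2 => rfl

theorem fm_two_line {w : ℝ} {f : ℕ → St → St → ℝ} (hf : OAForm w f) (m : ℕ) (β : ℕ → ℝ) :
    TPC (2 * m) (ld m (Zf f (m + 2)) β) ∧
    tc (2 * m) (ld m (Zf f (m + 2)) β) = ((w : ℂ) + 2) / 3 *
      tc (4 * m) (fun c => ((fm_U f m β c : ℝ) : ℂ)) := by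
  have h := two_line (m := m) (fun x' y' x y => ((fm_Y f m β x' y' x y : ℝ) : ℂ)) (w : ℂ)
    (fun c => ((fm_U f m β c : ℝ) : ℂ))
    (fun x' y' y => TPC.of_TP (fm_TP_right (IPC.V_Sup _ _) (fun _ => IPC.V_Sup _ _)
      (fun σ => fm_V_TP0 m y β σ)))
    (fun x' y' x => TPC.of_TP (fm_TP_right (IPC.V_Sup _ _) (fun _ => IPC.V_Sup _ _)
      (fun σ => fm_V_TP1 m x β σ)))
    (fun y' x y => TPC.of_TP (fm_TP_left (fun _ => IPC.V_Sup _ _) (IPC.V_Sup _ _)
      (fun σ => fm_V_TP0 m y' (fun k => -β k) σ)))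
    (fun x' x y => TPC.of_TP (fm_TP_left (fun _ => IPC.V_Sup _ _) (IPC.V_Sup _ _)
      (fun σ => fm_V_TP1 m x' (fun k => -β k) σ)))
    (fun x' y' x y => TPC.of_TP (fm_TP_right (IPC.V_Sup _ _) (fun _ => IPC.V_Sup _ _)
      (fun σ => V_JD_cons x y β σ)))
    (fun x' y' x y => TPC.of_TP (fm_TP_left (fun _ => IPC.V_Sup _ _) (IPC.V_Sup _ _)
      (fun σ => V_JD_cons x' y' (fun k => -β k) σ)))
    (fun c => by simp only [fm_e11 hf])
    (fun c => by simp only [fm_e12 hf])
    (fun c => by simp only [fm_e21 hf])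
    (fun c => by simp only [fm_e22 hf]; push_cast; ring)
  have e : ld m (Zf f (m + 2)) β = fun y : ℝ => Complex.exp (2 * y * Complex.I) *
      tc (2 * (m + 1)) (fun x => ((fm_Y f m β (-x) (-y) x y : ℝ) : ℂ)) := by
    funext y
    unfold ld
    congr 1
    refine tc_congr fun x => ?_
    unfold Zf fm_Y
    rw [fm_neg]
  rw [e]
  exact h

theorem Fam_form {w : ℝ} {f : ℕ → St → St → ℝ} (hf : OAForm w f) : Fam w (Zf f) where
  zero := by
    intro b
    unfold Zf
    rw [IPC.V_zero, IPC.V_zero, IPC.bil_single, one_mul, one_mul]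
    have h := IPC.V_Sup 0 b
    rw [IPC.V_zero] at h
    have hW : IPC.top 0 ∈ IPC.W 0 := by
      have h2 := (Finsupp.mem_supported ℝ _).1 h
      have h3 : IPC.top 0 ∈ ((Finsupp.single (IPC.top 0) (1 : ℝ)).support : Set St) := by
        rw [Finset.mem_coe, Finsupp.mem_support_iff, Finsupp.single_eq_same]
        exact one_ne_zero
      exact h2 h3
    exact hf.zero _ hW _ hW
  sep := by
    intro n
    have e : Zf f (2 * n + 2) = fun b => ∑ σ ∈ (IPC.W_finite (2 * n + 2)).toFinset,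
        ∑ τ ∈ (IPC.W_finite (2 * n + 2)).toFinset, f (2 * n + 2) σ τ *
          (IPC.V (2 * n + 2) (fun j => -b j) σ * IPC.V (2 * n + 2) b τ) := by
      funext b
      unfold Zf
      rw [OneArm.bil_eq_sum (f (2 * n + 2)) (2 * n + 2) (IPC.V_Sup _ _) (IPC.V_Sup _ _)]
      refine sum_congr rfl fun σ _ => sum_congr rfl fun τ _ => ?_
      ring
    rw [e]
    refine Sep.sum _ fun σ _ => Sep.sum _ fun τ _ => Sep.smul _ ?_
    have h := (Sep.comp_neg (V_Sep (2 * n + 2) σ)).mul (V_Sep (2 * n + 2) τ)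
    have e2 : (2 * n + 2 - 1) + (2 * n + 2 - 1) = 2 * (2 * n + 1) := by omega
    rw [e2] at h
    exact h
  swp := by
    intro n i b hi
    exact Zf_sw hf hi b
  recu := by
    intro n b hb
    exact Zf_rec hf (2 * n) b hb
  lead1 := by
    intro n β
    exact (fm_two_line hf (2 * n) β).1
  lead2 := by
    intro n β
    rw [(fm_two_line hf (2 * n) β).2, fm_U_tc]
    push_cast
    ring

end OneArm
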