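import Mathlib

/-!
Interface between the algebraic and the asymptotic part of the one-arm exponent
(critical bond percolation on the square lattice, cylinder of circumference `L`).

`kap theta v = cosh (pi v / 3 + i theta / 2) / cosh (pi v)`,
`mom theta k = ∫ v, kap theta v * v ^ k`,
`hk L theta = det (mom theta (i + j))`.
-/

namespace OneArm

open Real

/-- The weight `cosh (pi v / 3 + i theta / 2) / cosh (pi v)`. -/
noncomputable def kap (θ v : ℝ) : ℂ :=
  Complex.cosh ((π : ℂ) * v / 3 + Complex.I * θ / 2) / Complex.cosh ((π : ℂ) * v)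

/-- The moments of the weight. -/
noncomputable def mom (θ : ℝ) (k : ℕ) : ℂ := ∫ v : ℝ, kap θ v * (v : ℂ) ^ k

/-- The Hankel determinant of the weight. -/
noncomputable def hk (L : ℕ) (θ : ℝ) : ℂ :=
  (Matrix.of fun i j : Fin L => mom θ ((i : ℕ) + (j : ℕ))).det

/-- `sx x = sin (pi / 3 + x)`. -/
noncomputable def sx (x : ℝ) : ℝ := Real.sin (π / 3 + x)

/-- The matrix of the determinant formula, at spectral parameters `b`. -/
noncomputable def Mmat (L : ℕ) (θ : ℝ) (b : Fin L → ℝ) : Matrix (Fin L) (Fin L) ℂ :=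
  Matrix.of fun i j : Fin L =>
    Complex.exp (Complex.I * θ / 2) / (sx (b j - b i) : ℂ)
      + Complex.exp (-(Complex.I * θ / 2)) / (sx (b i - b j) : ℂ)

end OneArm
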