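import Pool.Agent.Helper18.OneArm.NA
import Pool.Agent.Helper18.OneArm.Kappa
import Pool.Agent.Helper99.OneArm.B2

/-! MODULE Homog (owner helper44): the homogeneous point.
`NN theta L b = PQ L b * det (Mm theta L b)` (`NN_det`), `b j = ε j`, `SQ ~ ε^{L(L-1)} ∏ (i-j)^2`, (B2).
`homog_gen` is the version for every `theta`: the value at the homogeneous point is `c κ hk L theta` with
`κ ≠ 0` depending only on `L`. -/

namespace OneArm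
open IP IPC Finset Real Filter Topology

theorem homog_sin (a : ℝ) : Tendsto (fun t : ℝ => Real.sin (t * a) / t) (𝓝[≠] 0) (𝓝 a) := by
  have h1 : HasDerivAt (fun t : ℝ => Real.sin (t * a)) (Real.cos (0 * a) * (1 * a)) 0 :=
    ((hasDerivAt_id' (0 : ℝ)).mul_const a).sin
  have h2 := h1.tendsto_slope_zero
  rw [zero_mul, Real.cos_zero, one_mul, one_mul] at h2
  refine h2.congr fun t => ?_
  rw [zero_add, Real.sin_zero, sub_zero, smul_eq_mul]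
  ring

theorem homog_pow (L : ℕ) (t : ℝ) :
    t ^ (L * (L - 1)) = ∏ j ∈ range L, ∏ _i ∈ range j, t ^ 2 := by
  simp only [prod_const, card_range]
  simp only [← pow_mul]
  rw [prod_pow_eq_pow_sum, ← Finset.mul_sum, mul_comm 2, Finset.sum_range_id_mul_two]

/-- the limit of `SQ` -/
noncomputable def homogD (L : ℕ) : ℝ := ∏ j ∈ range L, ∏ i ∈ range j, ((i : ℝ) - j) ^ 2

theorem homogD_ne (L : ℕ) : homogD L ≠ 0 := by
  unfold homogD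
  refine Finset.prod_ne_zero_iff.mpr fun j _ => Finset.prod_ne_zero_iff.mpr fun i hi => ?_
  have h1 : (i : ℝ) < j := by exact_mod_cast Finset.mem_range.mp hi
  have h2 : (i : ℝ) - j ≠ 0 := by linarith
  exact pow_ne_zero 2 h2

theorem homog_SQ (L : ℕ) : Tendsto (fun t : ℝ => SQ L (fun j => t * (j : ℝ)) / t ^ (L * (L - 1)))
    (𝓝[≠] 0) (𝓝 (homogD L)) := by
  have h1 : Tendsto (fun t : ℝ => ∏ j ∈ range L, ∏ i ∈ range j, (Real.sin (t * ((i : ℝ) - j)) / t) ^ 2)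
      (𝓝[≠] 0) (𝓝 (homogD L)) :=
    tendsto_finsetProd _ fun j _ => tendsto_finsetProd _ fun i _ => (homog_sin _).pow 2
  refine h1.congr fun t => ?_
  unfold SQ
  rw [homog_pow, ← Finset.prod_div_distrib]
  refine Finset.prod_congr rfl fun j _ => ?_
  rw [← Finset.prod_div_distrib]
  refine Finset.prod_congr rfl fun i _ => ?_
  rw [div_pow, mul_sub]

theorem homog_PQ_continuous (L : ℕ) : Continuous (fun t : ℝ => PQ L (fun j => t * (j : ℝ))) := by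
  unfold PQ pp s
  fun_prop

theorem homog_PQ_zero (L : ℕ) : PQ L (fun j => (0 : ℝ) * (j : ℝ)) ≠ 0 := by
  unfold PQ pp
  refine Finset.prod_ne_zero_iff.mpr fun j _ => Finset.prod_ne_zero_iff.mpr fun i _ => ?_
  have h1 : s 0 ≠ 0 := by
    unfold s
    rw [add_zero, Real.sin_pi_div_three]
    positivity
  simp only [zero_mul, sub_self]
  exact pow_ne_zero 2 (mul_ne_zero h1 h1)

theorem homog_pp_ne {L : ℕ} {b : ℕ → ℝ} (h : PQ L b ≠ 0) : ∀ i < L, ∀ j < L, i ≠ j → pp b i j ≠ 0 := by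
  unfold PQ at h
  rw [Finset.prod_ne_zero_iff] at h
  have key : ∀ i j, i < j → j < L → pp b i j ≠ 0 := by
    intro i j hij hj h0
    have h1 := h j (Finset.mem_range.mpr hj)
    rw [Finset.prod_ne_zero_iff] at h1
    have h2 := h1 i (Finset.mem_range.mpr hij)
    rw [h0] at h2
    exact h2 (by norm_num)
  intro i hi j hj hij
  rcases Nat.lt_or_gt_of_ne hij with h1 | h1
  · exact key i j h1 hj
  · have h2 := key j i h1 hi
    unfold pp at h2 ⊢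
    rwa [mul_comm]

theorem homog_Mm (θ : ℝ) (L : ℕ) (t : ℝ) :
    Mm θ L (fun j => t * (j : ℝ)) = Mmat L θ (fun i => t * ((i : ℕ) : ℝ)) := rfl

/-- value at the homogeneous point, all `θ` -/
theorem homog_gen (L : ℕ) : ∃ κ : ℂ, κ ≠ 0 ∧ ∀ (θ : ℝ) (Z : (ℕ → ℝ) → ℝ) (c : ℂ),
    (∀ b, ((Z b : ℝ) : ℂ) * ((SQ L b : ℝ) : ℂ) = c * NN θ L b) →
    Continuous (fun t : ℝ => Z (fun j => t * (j : ℝ))) →
    ((Z (fun _ => 0) : ℝ) : ℂ) = c * κ * hk L θ := by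
  obtain ⟨K, hK, hK2⟩ := b2 L
  have hD : ((homogD L : ℝ) : ℂ) ≠ 0 := by exact_mod_cast homogD_ne L
  have hP : ((PQ L (fun j => (0 : ℝ) * (j : ℝ)) : ℝ) : ℂ) ≠ 0 := by exact_mod_cast homog_PQ_zero L
  refine ⟨((PQ L (fun j => (0 : ℝ) * (j : ℝ)) : ℝ) : ℂ) * K / ((homogD L : ℝ) : ℂ),
    div_ne_zero (mul_ne_zero hP hK) hD, ?_⟩
  intro θ Z c h hc
  have hZ : Tendsto (fun t : ℝ => ((Z (fun j => t * (j : ℝ)) : ℝ) : ℂ)) (𝓝[≠] 0)
      (𝓝 ((Z (fun _ => 0) : ℝ) : ℂ)) := by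
    have h1 := (hc.tendsto 0).mono_left (nhdsWithin_le_nhds (s := {0}ᶜ))
    have h2 : (fun j : ℕ => (0 : ℝ) * (j : ℝ)) = fun _ => 0 := by
      funext j; rw [zero_mul]
    rw [h2] at h1
    exact (Complex.continuous_ofReal.tendsto _).comp h1
  have hS : Tendsto (fun t : ℝ => ((SQ L (fun j => t * (j : ℝ)) : ℝ) : ℂ) / (t : ℂ) ^ (L * (L - 1)))
      (𝓝[≠] 0) (𝓝 ((homogD L : ℝ) : ℂ)) := by
    refine ((Complex.continuous_ofReal.tendsto _).comp (homog_SQ L)).congr fun t => ?_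
    simp only [Function.comp, Complex.ofReal_div, Complex.ofReal_pow]
  have hQ : Tendsto (fun t : ℝ => ((PQ L (fun j => t * (j : ℝ)) : ℝ) : ℂ)) (𝓝[≠] 0)
      (𝓝 ((PQ L (fun j => (0 : ℝ) * (j : ℝ)) : ℝ) : ℂ)) :=
    (Complex.continuous_ofReal.tendsto _).comp
      (((homog_PQ_continuous L).tendsto 0).mono_left nhdsWithin_le_nhds)
  have hev : ∀ᶠ t : ℝ in 𝓝[≠] 0, PQ L (fun j => t * (j : ℝ)) ≠ 0 :=
    (((homog_PQ_continuous L).tendsto 0).mono_left nhdsWithin_le_nhds).eventually_ne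
      (homog_PQ_zero L)
  have hl := hZ.mul hS
  have hr := ((hQ.mul (hK2 θ)).const_mul c)
  have heq : (fun t : ℝ => ((Z (fun j => t * (j : ℝ)) : ℝ) : ℂ) *
      (((SQ L (fun j => t * (j : ℝ)) : ℝ) : ℂ) / (t : ℂ) ^ (L * (L - 1)))) =ᶠ[𝓝[≠] 0]
      fun t : ℝ => c * (((PQ L (fun j => t * (j : ℝ)) : ℝ) : ℂ) *
        ((Mmat L θ (fun i => t * ((i : ℕ) : ℝ))).det / (t : ℂ) ^ (L * (L - 1)))) := by
    filter_upwards [hev] with t ht
    rw [← mul_div_assoc, h, NN_det θ L _ (homog_pp_ne ht), homog_Mm]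
    ring
  have hfin := tendsto_nhds_unique (hl.congr' heq) hr
  have h5 : ((Z (fun _ => 0) : ℝ) : ℂ) =
      c * (((PQ L (fun j => (0 : ℝ) * (j : ℝ)) : ℝ) : ℂ) * (K * hk L θ)) / ((homogD L : ℝ) : ℂ) := by
    rw [← hfin, mul_div_cancel_right₀ _ hD]
  rw [h5]
  ring

/-- ratio of two partition functions, any two angles -/
theorem homog_ratio_gen (L : ℕ) (θ₀ θ₁ : ℝ) (Z₀ Z₁ : (ℕ → ℝ) → ℝ) (c : ℂ) (hc : c ≠ 0)
    (h0 : ∀ b, ((Z₀ b : ℝ) : ℂ) * ((SQ L b : ℝ) : ℂ) = c * NN θ₀ L b)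
    (h1 : ∀ b, ((Z₁ b : ℝ) : ℂ) * ((SQ L b : ℝ) : ℂ) = c * NN θ₁ L b)
    (hc0 : Continuous (fun t : ℝ => Z₀ (fun j => t * (j : ℝ))))
    (hc1 : Continuous (fun t : ℝ => Z₁ (fun j => t * (j : ℝ)))) :
    |Z₀ (fun _ => 0) / Z₁ (fun _ => 0)| = ‖hk L θ₀‖ / ‖hk L θ₁‖ := by
  obtain ⟨κ, hκ, hκ2⟩ := homog_gen L
  have e0 := hκ2 θ₀ Z₀ c h0 hc0
  have e1 := hκ2 θ₁ Z₁ c h1 hc1
  have n0 : |Z₀ (fun _ => 0)| = ‖c * κ‖ * ‖hk L θ₀‖ := by
    rw [← norm_mul, ← e0, Complex.norm_real, Real.norm_eq_abs]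
  have n1 : |Z₁ (fun _ => 0)| = ‖c * κ‖ * ‖hk L θ₁‖ := by
    rw [← norm_mul, ← e1, Complex.norm_real, Real.norm_eq_abs]
  have h2 : ‖c * κ‖ ≠ 0 := norm_ne_zero_iff.mpr (mul_ne_zero hc hκ)
  rw [abs_div, n0, n1, mul_div_mul_left _ _ h2]

theorem homog_ratio (L : ℕ) (Z₀ Z₁ : (ℕ → ℝ) → ℝ) (c : ℂ) (hc : c ≠ 0)
    (h0 : ∀ b, ((Z₀ b : ℝ) : ℂ) * ((SQ L b : ℝ) : ℂ) = c * NN (π / 2) L b)
    (h1 : ∀ b, ((Z₁ b : ℝ) : ℂ) * ((SQ L b : ℝ) : ℂ) = c * NN (π / 3) L b)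
    (hc0 : Continuous (fun t : ℝ => Z₀ (fun j => t * (j : ℝ))))
    (hc1 : Continuous (fun t : ℝ => Z₁ (fun j => t * (j : ℝ))))
    (_hne : Z₁ (fun _ => 0) ≠ 0) :
    |Z₀ (fun _ => 0) / Z₁ (fun _ => 0)| = ‖hk L (π / 2)‖ / ‖hk L (π / 3)‖ :=
  homog_ratio_gen L (π / 2) (π / 3) Z₀ Z₁ c hc h0 h1 hc0 hc1

end OneArm
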