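import Pool.Agent.Helper18.OneArm.Ident
import Pool.Agent.Helper18.OneArm.FamForm2
import Pool.Agent.Helper18.OneArm.Homog
import Pool.Agent.Helper82.OneArm.Final

/-! One-arm exponent on the cylinder: exact formula and asymptotics.
`bil (h0 L) (P L 0) (P L 0)` = probability that the cluster of the marked site winds around the bi-infinite
cylinder with `L = 2 n` strands (critical bond percolation on the square lattice, stationary vectors of
the two half-cylinders glued along the level of the site). -/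

namespace OneArm
open IP IPC Finset Real Filter Topology

/-- the one-arm probability on the cylinder with `L` strands -/
noncomputable def pcyl (L : ℕ) : ℝ := bil (h0 L) (IPC.P L (fun _ => 0)) (IPC.P L (fun _ => 0))

theorem zero_Cube : (fun _ : ℕ => (0 : ℝ)) ∈ Cube := fun _ => by
  rw [abs_zero]; positivity

/-- determinant formula for the partition functions -/
theorem Zf_eq {θ w : ℝ} (hw : w = 2 * Real.cos θ) {f : ℕ → St → St → ℝ} (hf : OAForm w f) (n : ℕ) (b : ℕ → ℝ) :
    ((Zf f (2 * n) b : ℝ) : ℂ) * ((SQ (2 * n) b : ℝ) : ℂ) = (-(3 / 4)) ^ n * NN θ (2 * n) b := by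
  subst hw
  exact Fam_eq (Fam_form hf) n b

theorem Zf_line_continuous {w : ℝ} {f : ℕ → St → St → ℝ} (hf : OAForm w f) (n : ℕ) :
    Continuous (fun t : ℝ => Zf f (2 * n) (fun j => t * (j : ℝ))) := by
  rcases n with _ | n
  · have : (fun t : ℝ => Zf f (2 * 0) (fun j => t * (j : ℝ))) = fun _ => 1 := by
      funext t
      exact (Fam_form hf).zero _
    rw [this]
    exact continuous_const
  · have h1 : Continuous (fun t : ℝ => (fun j : ℕ => t * (j : ℝ))) := by fun_prop
    exact ((Fam_form hf).sep n).continuous.comp h1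

theorem Zf_one (L : ℕ) (b : ℕ → ℝ) : Zf (fun _ _ _ => 1) L b = IPC.Z L (fun j => -b j) * IPC.Z L b := by
  unfold Zf IPC.Z
  exact bil_one _ _

/-- the probability as a ratio of partition functions -/
theorem pcyl_eq (L : ℕ) : pcyl L = Zf h0 L (fun _ => 0) / Zf (fun _ _ _ => 1) L (fun _ => 0) := by
  have h1 : (fun j : ℕ => -(fun _ : ℕ => (0 : ℝ)) j) = fun _ => (0 : ℝ) := by
    funext j
    exact neg_zero
  rw [Zf_one]
  unfold pcyl Zf
  rw [h1, IPC.P_eq L zero_Cube, bil_smul_left, bil_smul_right]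
  have h2 := IPC.Z_ne L zero_Cube
  field_simp

/-- exact formula: the one-arm probability is a ratio of Hankel determinants -/
theorem pcyl_hk (n : ℕ) : |pcyl (2 * n)| = ‖hk (2 * n) (π / 2)‖ / ‖hk (2 * n) (π / 3)‖ := by
  rw [pcyl_eq]
  refine homog_ratio (2 * n) (Zf h0 (2 * n)) (Zf (fun _ _ _ => 1) (2 * n)) ((-(3 / 4)) ^ n)
    (pow_ne_zero n (by norm_num)) (fun b => ?_) (fun b => ?_) (Zf_line_continuous OAForm_h0 n)
    (Zf_line_continuous OAForm_one n) ?_
  · exact Zf_eq (by rw [Real.cos_pi_div_two, mul_zero]) OAForm_h0 n b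
  · exact Zf_eq (by rw [Real.cos_pi_div_three]; norm_num) OAForm_one n b
  · rw [Zf_one]
    have h1 : (fun j : ℕ => -(fun _ : ℕ => (0 : ℝ)) j) = fun _ => (0 : ℝ) := by
      funext j
      exact neg_zero
    rw [h1]
    exact mul_ne_zero (IPC.Z_ne _ zero_Cube) (IPC.Z_ne _ zero_Cube)

theorem pcyl_nonneg (L : ℕ) : 0 ≤ pcyl L := by
  unfold pcyl bil
  refine Finsupp.sum_nonneg fun σ _ => Finsupp.sum_nonneg fun τ _ => ?_
  refine mul_nonneg (mul_nonneg (IPC.P_nonneg _ _ _) (IPC.P_nonneg _ _ _)) ?_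
  unfold h0
  split_ifs
  · exact zero_le_one
  · exact le_refl 0

/-- the one-arm exponent `5/48` on the cylinder of circumference `L = 2 n` -/
theorem pcyl_asymptotics : ∃ c C : ℝ, 0 < c ∧ 0 < C ∧ ∀ n : ℕ, 1 ≤ n →
    c * ((2 * n : ℕ) : ℝ) ^ (-(5 / 48 : ℝ)) ≤ pcyl (2 * n) ∧
    pcyl (2 * n) ≤ C * ((2 * n : ℕ) : ℝ) ^ (-(5 / 48 : ℝ)) := by
  obtain ⟨c, C, hc, hC, h⟩ := one_arm_asymptotics
  refine ⟨c, C, hc, hC, fun n hn => ?_⟩
  have h1 := h (2 * n) (by omega)
  rw [← pcyl_hk n, abs_of_nonneg (pcyl_nonneg _)] at h1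
  exact h1

end OneArm
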