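import Pool.Agent.Helper18.OneArm.Gap

/-! MODULE LoopForm: the form with weight `w` for every loop around the marked gap, all real `w`.
A loop around the marked gap has two lifts to the double cover, and they are exactly the blocks of `σ ⊔ τ`
that contain an odd number of nodes of copy 0.  `nodd L σ τ` = number of these blocks (even),
`hw w L σ τ = w ^ (nodd / 2)`.  `w = 0`: `h0` (no loop around the gap), `w = 1`: `1`.
Checked by computer (L = 2, 4, 6).
Proof of `es`: `pr` keeps the blocks outside `{x, y}` (`pr_sup` in IPC.Bil), `x` and `y` (both in copy 0 or both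
in copy 1) are in the same block on both sides, a block inside `{x, y}` is even.
`ins`: `sup_comap`; `wrap`: the two new blocks have one node of copy 0 each. -/

namespace OneArm
open IP IPC Finset

open Classical in
/-- nodes of copy 0 in the block of `x` in `σ ⊔ τ` -/
noncomputable def blk0 (L : ℕ) (σ τ : St) (x : ℕ) : Finset ℕ :=
  ((range L).image fun i => 2 * i + 4).filter fun y => (σ ⊔ τ) x y

open Classical in
/-- number of blocks with an odd number of nodes of copy 0 -/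
noncomputable def nodd (L : ℕ) (σ τ : St) : ℕ :=
  ((((range L).image fun i => 2 * i + 4).filter fun x => Odd (blk0 L σ τ x).card).image (blk0 L σ τ)).card

/-- weight `w` for every loop around the marked gap -/
noncomputable def hw (w : ℝ) (L : ℕ) (σ τ : St) : ℝ := w ^ (nodd L σ τ / 2)

/-! ### general blocks -/

open Classical in
noncomputable def lf_blk (A : Finset ℕ) (S : St) (x : ℕ) : Finset ℕ := A.filter fun y => S x y

open Classical in
noncomputable def lf_nd (A : Finset ℕ) (S : St) : ℕ :=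
  ((A.filter fun x => Odd (lf_blk A S x).card).image (lf_blk A S)).card

def lf_A (L : ℕ) : Finset ℕ := (range L).image fun i => 2 * i + 4

theorem lf_nodd (L : ℕ) (σ τ : St) : nodd L σ τ = lf_nd (lf_A L) (σ ⊔ τ) := rfl

theorem lf_mem_A {L x : ℕ} : x ∈ lf_A L ↔ x % 2 = 0 ∧ 4 ≤ x ∧ x < 2 * L + 4 := by
  unfold lf_A
  rw [mem_image]
  constructor
  · rintro ⟨i, hi, rfl⟩
    rw [mem_range] at hi
    omega
  · intro h
    exact ⟨(x - 4) / 2, mem_range.2 (by omega), by omega⟩

theorem lf_mem_blk {A : Finset ℕ} {S : St} {x y : ℕ} : y ∈ lf_blk A S x ↔ y ∈ A ∧ S x y := by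
  classical
  unfold lf_blk
  rw [mem_filter]

theorem lf_blk_eq (A : Finset ℕ) {S : St} {x y : ℕ} (h : S x y) : lf_blk A S x = lf_blk A S y := by
  ext z
  rw [lf_mem_blk, lf_mem_blk]
  exact and_congr_right fun _ => ⟨fun h1 => S.trans (S.symm h) h1, fun h1 => S.trans h h1⟩

theorem lf_card_le {A A' : Finset ℕ} {S S' : St} (g : ℕ → ℕ)
    (hg : ∀ x ∈ A, Odd (lf_blk A S x).card → g x ∈ A' ∧ Odd (lf_blk A' S' (g x)).card)
    (h : ∀ x ∈ A, ∀ y ∈ A, Odd (lf_blk A S x).card → Odd (lf_blk A S y).card → S' (g x) (g y) → S x y) :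
    lf_nd A S ≤ lf_nd A' S' := by
  classical
  unfold lf_nd
  have hr : ∀ b : Finset ℕ, ∃ x, b ∈ (A.filter fun x => Odd (lf_blk A S x).card).image (lf_blk A S) →
      x ∈ A ∧ Odd (lf_blk A S x).card ∧ lf_blk A S x = b := by
    intro b
    by_cases hb : b ∈ (A.filter fun x => Odd (lf_blk A S x).card).image (lf_blk A S)
    · obtain ⟨x, hx, hxb⟩ := mem_image.1 hb
      rw [mem_filter] at hx
      exact ⟨x, fun _ => ⟨hx.1, hx.2, hxb⟩⟩
    · exact ⟨0, fun h => absurd h hb⟩
  choose r hr using hr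
  refine Finset.card_le_card_of_injOn (fun b => lf_blk A' S' (g (r b))) ?_ ?_
  · intro b hb
    obtain ⟨h1, h2, _⟩ := hr b hb
    obtain ⟨h4, h5⟩ := hg _ h1 h2
    exact mem_coe.2 (mem_image.2 ⟨g (r b), mem_filter.2 ⟨h4, h5⟩, rfl⟩)
  · intro b hb c hc hbc
    obtain ⟨b1, b2, b3⟩ := hr b hb
    obtain ⟨c1, c2, c3⟩ := hr c hc
    have h1 : g (r c) ∈ lf_blk A' S' (g (r c)) := lf_mem_blk.2 ⟨(hg _ c1 c2).1, S'.refl _⟩
    have hbc' : lf_blk A' S' (g (r b)) = lf_blk A' S' (g (r c)) := hbc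
    rw [← hbc'] at h1
    have h2 := h _ b1 _ c1 b2 c2 (lf_mem_blk.1 h1).2
    rw [← b3, ← c3]
    exact lf_blk_eq A h2

theorem lf_congr {A : Finset ℕ} {S S' : St} (h : ∀ x ∈ A, ∀ y ∈ A, (S x y ↔ S' x y)) :
    lf_nd A S = lf_nd A S' := by
  have hb : ∀ x ∈ A, lf_blk A S x = lf_blk A S' x := by
    intro x hx
    ext y
    rw [lf_mem_blk, lf_mem_blk]
    exact and_congr_right fun hy => h x hx y hy
  apply le_antisymm
  · refine lf_card_le id ?_ ?_
    · intro x hx ho
      exact ⟨hx, by rw [id, ← hb x hx]; exact ho⟩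
    · intro x hx y hy _ _ hxy
      exact (h x hx y hy).2 hxy
  · refine lf_card_le id ?_ ?_
    · intro x hx ho
      exact ⟨hx, by rw [id, hb x hx]; exact ho⟩
    · intro x hx y hy _ _ hxy
      exact (h x hx y hy).1 hxy

theorem lf_parity {A : Finset ℕ} {S : St} {j k : ℕ} (hjk : j ≠ k) (hS : S j k) (hA : j ∈ A ↔ k ∈ A) (x : ℕ) :
    Odd (lf_blk A S x).card ↔ Odd (lf_blk (A \ {j, k}) S x).card := by
  classical
  by_cases hj : j ∈ A
  · have hk := hA.1 hj
    by_cases hx : S x j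
    · have hx' : S x k := S.trans hx hS
      have e : lf_blk A S x = insert j (insert k (lf_blk (A \ {j, k}) S x)) := by
        ext y
        rw [mem_insert, mem_insert, lf_mem_blk, lf_mem_blk, mem_sdiff, mem_insert, mem_singleton]
        constructor
        · intro h
          by_cases h1 : y = j
          · exact Or.inl h1
          · by_cases h2 : y = k
            · exact Or.inr (Or.inl h2)
            · exact Or.inr (Or.inr ⟨⟨h.1, by tauto⟩, h.2⟩)
        · rintro (rfl | rfl | h)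
          · exact ⟨hj, hx⟩
          · exact ⟨hk, hx'⟩
          · exact ⟨h.1.1, h.2⟩
      have n1 : k ∉ lf_blk (A \ {j, k}) S x := by
        rw [lf_mem_blk, mem_sdiff, mem_insert, mem_singleton]
        tauto
      have n2 : j ∉ insert k (lf_blk (A \ {j, k}) S x) := by
        rw [mem_insert, lf_mem_blk, mem_sdiff, mem_insert, mem_singleton]
        tauto
      rw [e, card_insert_of_notMem n2, card_insert_of_notMem n1]
      rw [Nat.odd_iff, Nat.odd_iff]
      omega
    · have hx' : ¬ S x k := fun h => hx (S.trans h (S.symm hS))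
      have e : lf_blk A S x = lf_blk (A \ {j, k}) S x := by
        ext y
        rw [lf_mem_blk, lf_mem_blk, mem_sdiff, mem_insert, mem_singleton]
        constructor
        · intro h
          refine ⟨⟨h.1, ?_⟩, h.2⟩
          rintro (rfl | rfl)
          · exact hx h.2
          · exact hx' h.2
        · intro h
          exact ⟨h.1.1, h.2⟩
      rw [e]
  · have hk : k ∉ A := fun h => hj (hA.2 h)
    have e : A \ {j, k} = A := by
      ext y
      rw [mem_sdiff, mem_insert, mem_singleton]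
      constructor
      · exact fun h => h.1
      · intro h
        refine ⟨h, ?_⟩
        rintro (rfl | rfl)
        · exact hj h
        · exact hk h
    rw [e]

theorem lf_erase {A : Finset ℕ} {S : St} {j k : ℕ} (hjk : j ≠ k) (hS : S j k) (hA : j ∈ A ↔ k ∈ A) :
    lf_nd A S = lf_nd (A \ {j, k}) S := by
  classical
  have hne : ∀ x, ∃ y, (x ∈ A → Odd (lf_blk A S x).card → (y ∈ A \ {j, k} ∧ S x y)) := by
    intro x
    by_cases h : x ∈ A ∧ Odd (lf_blk A S x).card
    · rw [lf_parity hjk hS hA] at h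
      obtain ⟨_, h2⟩ := h
      have h3 : (lf_blk (A \ {j, k}) S x).Nonempty := by
        rw [← card_pos]
        exact h2.pos
      obtain ⟨y, hy⟩ := h3
      rw [lf_mem_blk] at hy
      exact ⟨y, fun _ _ => hy⟩
    · exact ⟨0, fun h1 h2 => absurd ⟨h1, h2⟩ h⟩
  choose g hg using hne
  apply le_antisymm
  · refine lf_card_le g ?_ ?_
    · intro x hx ho
      obtain ⟨h1, h2⟩ := hg x hx ho
      refine ⟨h1, ?_⟩
      rw [← lf_parity hjk hS hA, ← lf_blk_eq A h2]
      exact ho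
    · intro x hx y hy ho ho' h
      exact S.trans (hg x hx ho).2 (S.trans h (S.symm (hg y hy ho').2))
  · refine lf_card_le id ?_ ?_
    · intro x hx ho
      exact ⟨(mem_sdiff.1 hx).1, (lf_parity hjk hS hA x).2 ho⟩
    · intro x _ y _ _ _ h
      exact h

theorem lf_map {A : Finset ℕ} {S S' : St} {e : ℕ → ℕ} (he : Function.Injective e)
    (h : ∀ x ∈ A, ∀ y ∈ A, (S' (e x) (e y) ↔ S x y)) : lf_nd (A.image e) S' = lf_nd A S := by
  classical
  have hc : ∀ x ∈ A, (lf_blk (A.image e) S' (e x)).card = (lf_blk A S x).card := by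
    intro x hx
    have e1 : lf_blk (A.image e) S' (e x) = (lf_blk A S x).image e := by
      ext y
      rw [lf_mem_blk, mem_image, mem_image]
      constructor
      · rintro ⟨⟨z, hz, rfl⟩, h2⟩
        exact ⟨z, lf_mem_blk.2 ⟨hz, (h x hx z hz).1 h2⟩, rfl⟩
      · rintro ⟨z, hz, rfl⟩
        rw [lf_mem_blk] at hz
        exact ⟨⟨z, hz.1, rfl⟩, (h x hx z hz.1).2 hz.2⟩
    rw [e1, card_image_of_injective _ he]
  apply le_antisymm
  · have hinv : ∀ y, ∃ x, y ∈ A.image e → x ∈ A ∧ e x = y := by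
      intro y
      by_cases hy : y ∈ A.image e
      · obtain ⟨x, hx, hxy⟩ := mem_image.1 hy
        exact ⟨x, fun _ => ⟨hx, hxy⟩⟩
      · exact ⟨0, fun h => absurd h hy⟩
    choose g hg using hinv
    refine lf_card_le g ?_ ?_
    · intro y hy ho
      obtain ⟨h1, h2⟩ := hg y hy
      refine ⟨h1, ?_⟩
      rw [← hc _ h1, h2]
      exact ho
    · intro y hy z hz _ _ hyz
      obtain ⟨h1, h2⟩ := hg y hy
      obtain ⟨h3, h4⟩ := hg z hz
      rw [← h2, ← h4]
      exact (h _ h1 _ h3).2 hyz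
  · refine lf_card_le e ?_ ?_
    · intro x hx ho
      refine ⟨mem_image_of_mem e hx, ?_⟩
      rw [hc x hx]
      exact ho
    · intro x hx y hy _ _ hxy
      exact (h x hx y hy).1 hxy

theorem lf_insert {A : Finset ℕ} {S : St} {x : ℕ} (hx : x ∉ A) (h : ∀ y ∈ A, ¬ S x y) :
    lf_nd (insert x A) S = lf_nd A S + 1 := by
  classical
  have h1 : lf_blk (insert x A) S x = {x} := by
    ext y
    rw [lf_mem_blk, mem_insert, mem_singleton]
    constructor
    · rintro ⟨h1 | h1, h2⟩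
      · exact h1
      · exact absurd h2 (h y h1)
    · rintro rfl
      exact ⟨Or.inl rfl, S.refl _⟩
  have h2 : ∀ y ∈ A, lf_blk (insert x A) S y = lf_blk A S y := by
    intro y hy
    ext z
    rw [lf_mem_blk, lf_mem_blk, mem_insert]
    constructor
    · rintro ⟨h1 | h1, h2⟩
      · subst h1
        exact absurd (S.symm h2) (h y hy)
      · exact ⟨h1, h2⟩
    · rintro ⟨h1, h2⟩
      exact ⟨Or.inr h1, h2⟩
  unfold lf_nd
  rw [filter_insert, if_pos (by rw [h1, card_singleton]; exact odd_one), image_insert, h1]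
  have e1 : (A.filter fun y => Odd (lf_blk (insert x A) S y).card) = A.filter fun y => Odd (lf_blk A S y).card := by
    apply filter_congr
    intro y hy
    rw [h2 y hy]
  have e2 : (A.filter fun y => Odd (lf_blk A S y).card).image (lf_blk (insert x A) S) =
      (A.filter fun y => Odd (lf_blk A S y).card).image (lf_blk A S) := by
    apply image_congr
    intro y hy
    exact h2 y (mem_filter.1 (mem_coe.1 hy)).1
  rw [e1, e2, card_insert_of_notMem]
  intro hmem
  obtain ⟨y, _, hy⟩ := mem_image.1 hmem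
  have h3 : x ∈ lf_blk A S y := by rw [hy]; exact mem_singleton_self x
  exact hx (lf_mem_blk.1 h3).1

theorem lf_pr {A : Finset ℕ} {j k : ℕ} (hjk : j ≠ k) (hA : j ∈ A ↔ k ∈ A) (σ τ : St) :
    lf_nd A (pr j k σ ⊔ τ) = lf_nd A (σ ⊔ pr j k τ) := by
  have h1 : (pr j k σ ⊔ τ) j k := sup_left (Or.inr (Or.inl ⟨Or.inl rfl, Or.inr rfl⟩))
  have h2 : (σ ⊔ pr j k τ) j k := sup_right (Or.inr (Or.inl ⟨Or.inl rfl, Or.inr rfl⟩))
  rw [lf_erase hjk h1 hA, lf_erase hjk h2 hA]
  apply lf_congr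
  intro x hx y hy
  rw [mem_sdiff, mem_insert, mem_singleton] at hx hy
  exact pr_sup (by tauto) (by tauto) (by tauto) (by tauto) σ τ

theorem lf_ins_sup (i : ℕ) (σ τ : St) : IPC.ins i σ ⊔ IPC.ins i τ = IPC.ins i (σ ⊔ τ) := by
  have m1 : ∀ ρ : St, (∀ x y, ρ x y → (σ ⊔ τ) x y) → ∀ x y, (IPC.ins i ρ) x y → (IPC.ins i (σ ⊔ τ)) x y := by
    intro ρ h x y hxy
    rw [ba_ins_iff] at hxy ⊢
    rcases hxy with hxy | hxy | hxy | ⟨h1, h2, h3⟩
    · exact Or.inl hxy
    · exact Or.inr (Or.inl hxy)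
    · exact Or.inr (Or.inr (Or.inl hxy))
    · exact Or.inr (Or.inr (Or.inr ⟨h1, h2, h _ _ h3⟩))
  apply le_antisymm
  · rw [Setoid.le_def]
    intro x y hxy
    exact sup_le_of (m1 σ fun _ _ h => sup_left h) (m1 τ fun _ _ h => sup_right h) x y hxy
  · rw [Setoid.le_def]
    intro x y hxy
    have key : ∀ x y, (σ ⊔ τ) x y → (Setoid.comap (sk i) (IPC.ins i σ ⊔ IPC.ins i τ)) x y := by
      refine sup_le_of ?_ ?_
      · intro x y h
        exact sup_left ((ins_sk i σ x y).2 h)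
      · intro x y h
        exact sup_right ((ins_sk i τ x y).2 h)
    rw [ba_ins_iff] at hxy
    rcases hxy with hxy | hxy | hxy | ⟨h1, h2, h3⟩
    · rw [hxy]
    · exact sup_left (Or.inr (Or.inl hxy))
    · exact sup_left (Or.inr (Or.inr (Or.inl hxy)))
    · have h4 : (IPC.ins i σ ⊔ IPC.ins i τ) (sk i (un i x)) (sk i (un i y)) := key _ _ h3
      have e : ∀ z, (z < 2 * i + 4 ∨ 2 * i + 8 ≤ z) → sk i (un i z) = z := by
        intro z hz
        unfold sk un
        split_ifs <;> omega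
      rw [e x h1, e y h2] at h4
      exact h4

/-! ### the statements -/

theorem nodd_Es {L i : ℕ} (h : i + 1 < L) {σ τ : St} (_hσ : σ ∈ IPC.W L) (_hτ : τ ∈ IPC.W L) :
    nodd L (pr (2 * i + 4) (2 * i + 6) (pr (2 * i + 5) (2 * i + 7) σ)) τ =
      nodd L σ (pr (2 * i + 4) (2 * i + 6) (pr (2 * i + 5) (2 * i + 7) τ)) := by
  rw [lf_nodd, lf_nodd, lf_pr (by omega) (by rw [lf_mem_A, lf_mem_A]; omega),
    lf_pr (by omega) (by rw [lf_mem_A, lf_mem_A]; omega),
    pr_disj (j := 2 * i + 5) (by omega) (by omega) (by omega) (by omega)]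

theorem lf_ins_nd (L : ℕ) (S : St) : lf_nd ((lf_A L).image fun x => x + 4) (IPC.ins 0 S) = lf_nd (lf_A L) S := by
  apply lf_map
  · intro x y h
    simpa using h
  · intro x hx y hy
    rw [lf_mem_A] at hx hy
    have e1 : sk 0 x = x + 4 := by unfold sk; rw [if_neg (by omega)]
    have e2 : sk 0 y = y + 4 := by unfold sk; rw [if_neg (by omega)]
    have h := ins_sk 0 S x y
    rw [e1, e2] at h
    exact h

theorem nodd_ins (L : ℕ) {σ τ : St} (_hσ : σ ∈ IPC.W L) (_hτ : τ ∈ IPC.W L) :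
    nodd (L + 2) (IPC.ins 0 σ) (IPC.ins 0 τ) = nodd L σ τ := by
  rw [lf_nodd, lf_nodd, lf_ins_sup]
  have h46 : (IPC.ins 0 (σ ⊔ τ)) 4 6 := Or.inr (Or.inl (by omega))
  rw [lf_erase (show (4 : ℕ) ≠ 6 by omega) h46 (by rw [lf_mem_A, lf_mem_A]; omega)]
  have e : lf_A (L + 2) \ {4, 6} = (lf_A L).image fun x => x + 4 := by
    ext x
    rw [mem_sdiff, mem_insert, mem_singleton, lf_mem_A, mem_image]
    constructor
    · intro h
      exact ⟨x - 4, lf_mem_A.2 (by omega), by omega⟩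
    · rintro ⟨y, hy, rfl⟩
      rw [lf_mem_A] at hy
      omega
  rw [e, lf_ins_nd]

theorem nodd_wrap (L : ℕ) {σ τ : St} (_hσ : σ ∈ IPC.W L) (_hτ : τ ∈ IPC.W L) :
    nodd (L + 2) (rel (rtn (L + 2)).symm (IPC.ins 0 σ)) (rel (rtn (L + 2)).symm (IPC.ins 0 τ)) =
      nodd L σ τ + 2 := by
  rw [lf_nodd, lf_nodd, rel_sup, lf_ins_sup]
  have h1 : lf_nd ((lf_A (L + 2)).image (rtn (L + 2))) (IPC.ins 0 (σ ⊔ τ)) =
      lf_nd (lf_A (L + 2)) (rel (rtn (L + 2)).symm (IPC.ins 0 (σ ⊔ τ))) := by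
    apply lf_map (rtn (L + 2)).injective
    intro x _ y _
    exact Iff.rfl
  rw [← h1]
  have e : (lf_A (L + 2)).image (rtn (L + 2)) = insert 5 (insert 6 ((lf_A L).image fun x => x + 4)) := by
    ext x
    rw [mem_insert, mem_insert, mem_image, mem_image]
    constructor
    · rintro ⟨y, hy, rfl⟩
      rw [lf_mem_A] at hy
      rw [bc_rtn_apply, if_neg (by omega)]
      by_cases h2 : y < 2 * (L + 2) + 2
      · rw [if_pos h2]
        by_cases h3 : y = 4
        · right; left; omega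
        · right; right
          exact ⟨y - 2, lf_mem_A.2 (by omega), by omega⟩
      · rw [if_neg h2]
        left; omega
    · rintro (rfl | rfl | ⟨y, hy, rfl⟩)
      · refine ⟨2 * L + 6, lf_mem_A.2 (by omega), ?_⟩
        rw [bc_rtn_apply, if_neg (by omega), if_neg (by omega)]
        omega
      · refine ⟨4, lf_mem_A.2 (by omega), ?_⟩
        rw [bc_rtn_apply, if_neg (by omega), if_pos (by omega)]
      · rw [lf_mem_A] at hy
        refine ⟨y + 2, lf_mem_A.2 (by omega), ?_⟩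
        rw [bc_rtn_apply, if_neg (by omega), if_pos (by omega)]
  have b0 := ins_block0 0 (σ ⊔ τ)
  have b1 := ins_block1 0 (σ ⊔ τ)
  rw [e, lf_insert, lf_insert, lf_ins_nd]
  · rw [mem_image]
    rintro ⟨y, hy, h⟩
    rw [lf_mem_A] at hy
    omega
  · intro y hy h
    obtain ⟨z, hz, rfl⟩ := mem_image.1 hy
    rw [lf_mem_A] at hz
    have h2 : (IPC.ins 0 (σ ⊔ τ)) (2 * 0 + 4) 6 := (b0 6).2 (Or.inr rfl)
    have h3 := (b0 (z + 4)).1 ((IPC.ins 0 (σ ⊔ τ)).trans h2 h)
    omega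
  · rw [mem_insert, mem_image]
    rintro (h | ⟨y, hy, h⟩)
    · omega
    · rw [lf_mem_A] at hy
      omega
  · intro y hy h
    have h3 := (b1 y).1 h
    rw [mem_insert, mem_image] at hy
    rcases hy with hy | ⟨z, hz, rfl⟩
    · omega
    · rw [lf_mem_A] at hz
      omega

theorem nodd_zero (σ τ : St) : nodd 0 σ τ = 0 := by
  unfold nodd
  simp

theorem lf_bil_smul (c : ℝ) (f : St → St → ℝ) (v w : M) : bil (fun σ τ => c * f σ τ) v w = c * bil f v w := by
  classical
  unfold bil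
  rw [Finsupp.mul_sum]
  refine Finset.sum_congr rfl fun σ _ => ?_
  dsimp only
  rw [Finsupp.mul_sum]
  refine Finset.sum_congr rfl fun τ _ => ?_
  dsimp only
  ring

theorem bil_hw_Es (w : ℝ) {L i : ℕ} (h : i + 1 < L) {v v' : M} (hv : v ∈ Sup (IPC.W L)) (hv' : v' ∈ Sup (IPC.W L)) :
    bil (hw w L) (Es i v) v' = bil (hw w L) v (Es i v') := by
  have e1 : ∀ u : M, u = Finsupp.lmapDomain ℝ ℝ (fun σ => σ) u := by
    intro u
    rw [Finsupp.lmapDomain_apply]
    exact Finsupp.mapDomain_id.symm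
  have h1 : bil (hw w L) (Es i v) v' = bil (hw w L) (Es i v) (Finsupp.lmapDomain ℝ ℝ (fun σ => σ) v') := by
    rw [← e1]
  have h2 : bil (hw w L) v (Es i v') = bil (hw w L) (Finsupp.lmapDomain ℝ ℝ (fun σ => σ) v) (Es i v') := by
    rw [← e1]
  rw [h1, h2, Es_eq, Es_eq, bil_map2, bil_map2]
  refine bil_congr hv hv' fun σ hσ τ hτ => ?_
  unfold hw
  rw [nodd_Es h hσ hτ]

theorem bil_hw_In (w : ℝ) (L : ℕ) {v v' : M} (hv : v ∈ Sup (IPC.W L)) (hv' : v' ∈ Sup (IPC.W L)) :
    bil (hw w (L + 2)) (IPC.In 0 v) (IPC.In 0 v') = bil (hw w L) v v' :=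
  IPC.bil_map hv hv' fun _ hσ _ hτ => by unfold hw; rw [nodd_ins L hσ hτ]

theorem bil_hw_wrap (w : ℝ) (L : ℕ) {v v' : M} (hv : v ∈ Sup (IPC.W L)) (hv' : v' ∈ Sup (IPC.W L)) :
    bil (hw w (L + 2)) (IPC.Rel (rtn (L + 2)).symm (IPC.In 0 v)) (IPC.Rel (rtn (L + 2)).symm (IPC.In 0 v')) =
      w * bil (hw w L) v v' := by
  have e : ∀ u : M, IPC.Rel (rtn (L + 2)).symm (IPC.In 0 u) =
      Finsupp.lmapDomain ℝ ℝ (fun σ => rel (rtn (L + 2)).symm (IPC.ins 0 σ)) u := by
    intro u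
    unfold IPC.Rel IPC.In
    rw [Finsupp.lmapDomain_apply, Finsupp.lmapDomain_apply, Finsupp.lmapDomain_apply,
      ← Finsupp.mapDomain_comp]
    rfl
  rw [e, e, bil_map2, ← lf_bil_smul]
  refine bil_congr hv hv' fun σ hσ τ hτ => ?_
  unfold hw
  rw [nodd_wrap L hσ hτ, Nat.add_div_right _ (by norm_num), pow_succ, mul_comm]

/-! ### `nodd = 0` iff the two lifts of the marked gap are connected -/

theorem lf_even_union {A : Finset ℕ} {S : St} (h : ∀ x ∈ A, Even (lf_blk A S x).card) (X : ℕ → Prop)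
    [DecidablePred X] (hX : ∀ x y, S x y → (X x ↔ X y)) : Even (A.filter X).card := by
  classical
  rw [Finset.card_eq_sum_card_image (lf_blk A S) (A.filter X)]
  apply Finset.even_sum
  intro b hb
  obtain ⟨x, hx, rfl⟩ := mem_image.1 hb
  rw [mem_filter] at hx
  have e : ((A.filter X).filter fun y => lf_blk A S y = lf_blk A S x) = lf_blk A S x := by
    ext y
    rw [mem_filter, mem_filter, lf_mem_blk]
    constructor
    · rintro ⟨⟨h1, _⟩, h3⟩
      refine ⟨h1, ?_⟩
      have h4 : y ∈ lf_blk A S x := by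
        rw [← h3]
        exact lf_mem_blk.2 ⟨h1, S.refl _⟩
      exact (lf_mem_blk.1 h4).2
    · rintro ⟨h1, h2⟩
      exact ⟨⟨h1, (hX x y h2).1 hx.2⟩, lf_blk_eq A (S.symm h2)⟩
  rw [e]
  exact h x hx.1

theorem lf_changes (C : ℕ → Prop) [DecidablePred C] (n : ℕ) :
    Odd ((range n).filter fun i => ¬ (C i ↔ C (i + 1))).card ↔ ¬ (C 0 ↔ C n) := by
  induction n with
  | zero => simp
  | succ n ih =>
    rw [range_add_one, filter_insert]
    by_cases h : (C n ↔ C (n + 1))
    · rw [if_neg (by tauto), ih]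
      tauto
    · rw [if_pos h, card_insert_of_notMem (by simp), Nat.odd_add_one, ih]
      tauto

theorem lf_even_invol (D : Finset ℕ) (P : ℕ → ℕ) (h1 : ∀ x, P (P x) = x) (h2 : ∀ x ∈ D, P x ≠ x)
    (h3 : ∀ x ∈ D, P x ∈ D) : Even D.card := by
  have h : ∑ _x ∈ D, (1 : ZMod 2) = 0 := by
    refine Finset.sum_involution (fun x _ => P x) ?_ ?_ ?_ ?_
    · intro x _
      decide
    · intro x hx _
      exact h2 x hx
    · intro x hx
      exact h3 x hx
    · intro x _
      exact h1 x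
  rw [Finset.sum_const, nsmul_eq_mul, mul_one] at h
  exact (ZMod.natCast_eq_zero_iff_even).1 h

theorem lf_node {L : ℕ} {σ : St} (hσ : σ ∈ IPC.W L) {x y : ℕ} (h : σ x y) :
    (4 ≤ x ∧ x < 2 * L + 4) ↔ (4 ≤ y ∧ y < 2 * L + 4) := by
  have key : ∀ x y, σ x y → (4 ≤ x ∧ x < 2 * L + 4) → (4 ≤ y ∧ y < 2 * L + 4) := by
    intro x y h hx
    refine ⟨bc_low_W hσ x hx.1 y h, ?_⟩
    obtain ⟨P, hP1, hP2, hP3, hP4⟩ := bb_partner hσ.1.1
    rcases (hP4 x y).1 h with rfl | rfl
    · exact hx.2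
    · exact (hP2 x hx.2).1
  exact ⟨key x y h, key y x (σ.symm h)⟩

theorem lf_gaps {L : ℕ} {σ : St} (hσ : σ ∈ IPC.W L) (h2 : σ ∈ IPC.NC L) {x y : ℕ} (hx : 4 ≤ x)
    (hx' : x < 2 * L + 4) (h : σ x y) (hl : ps L x < ps L y) :
    gL L σ (ps L x) (ps L y + 1) ∧ gL L σ (ps L x + 1) (ps L y) := by
  obtain ⟨hy, hy'⟩ := (lf_node hσ h).1 ⟨hx, hx'⟩
  obtain ⟨P, hP1, hP2, hP3, hP4⟩ := bb_partner hσ.1.1
  have hxy : x ≠ y := by
    rintro rfl
    omega
  have hPx : y = P x := by
    rcases (hP4 x y).1 h with h3 | h3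
    · exact absurd h3.symm hxy
    · exact h3
  have hPy : x = P y := by rw [hPx, hP1]
  have key : ∀ u v, 4 ≤ u → u < 2 * L + 4 → 4 ≤ v → v < 2 * L + 4 → σ u v →
      (cov (ps L) u v (ps L x) ↔ cov (ps L) u v (ps L y + 1)) ∧
      (cov (ps L) u v (ps L x + 1) ↔ cov (ps L) u v (ps L y)) := by
    intro u v hu hu' hv hv' huv
    by_cases e1 : u = v
    · subst e1
      unfold cov
      simp
    have hv2 : v = P u := by
      rcases (hP4 u v).1 huv with h3 | h3
      · exact absurd h3.symm e1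
      · exact h3
    by_cases e2 : u = x
    · have e3 : v = y := by rw [hv2, hPx, e2]
      rw [e2, e3]
      unfold cov
      omega
    by_cases e3 : u = y
    · have e4 : v = x := by rw [hv2, hPy, e3]
      rw [e3, e4]
      unfold cov
      omega
    have e4 : v ≠ x := by
      intro e
      apply e3
      rw [hPx, ← e, hv2, hP1]
    have e5 : v ≠ y := by
      intro e
      apply e2
      rw [hPy, ← e, hv2, hP1]
    have k1 : ps L u ≠ ps L x := fun e => e2 (bc_ps_inj L u x hu hu' hx hx' e)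
    have k2 : ps L u ≠ ps L y := fun e => e3 (bc_ps_inj L u y hu hu' hy hy' e)
    have k3 : ps L v ≠ ps L x := fun e => e4 (bc_ps_inj L v x hv hv' hx hx' e)
    have k4 : ps L v ≠ ps L y := fun e => e5 (bc_ps_inj L v y hv hv' hy hy' e)
    have c1 : ¬ (ps L x < ps L u ∧ ps L u < ps L y ∧ ps L y < ps L v) := fun e =>
      h2 x u y v hx hu hy hv hx' hu' hy' hv' e.1 e.2.1 e.2.2 h huv
    have c2 : ¬ (ps L x < ps L v ∧ ps L v < ps L y ∧ ps L y < ps L u) := fun e =>
      h2 x v y u hx hv hy hu hx' hv' hy' hu' e.1 e.2.1 e.2.2 h (σ.symm huv)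
    have c3 : ¬ (ps L u < ps L x ∧ ps L x < ps L v ∧ ps L v < ps L y) := fun e =>
      h2 u x v y hu hx hv hy hu' hx' hv' hy' e.1 e.2.1 e.2.2 huv h
    have c4 : ¬ (ps L v < ps L x ∧ ps L x < ps L u ∧ ps L u < ps L y) := fun e =>
      h2 v x u y hv hx hu hy hv' hx' hu' hy' e.1 e.2.1 e.2.2 (σ.symm huv) h
    unfold cov
    omega
  exact ⟨fun u v a b c d e => (key u v a b c d e).1, fun u v a b c d e => (key u v a b c d e).2⟩

/-- a class of gaps is bounded by a union of loops -/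
theorem lf_bdry {L : ℕ} {σ : St} (hσ : σ ∈ IPC.W L) (h2 : σ ∈ IPC.NC L) (C : ℕ → Prop)
    (hC : ∀ g g', gL L σ g g' → (C g ↔ C g')) (x y : ℕ) (h : σ x y) :
    ((4 ≤ x ∧ x < 2 * L + 4) ∧ ¬ (C (ps L x) ↔ C (ps L x + 1))) ↔
      ((4 ≤ y ∧ y < 2 * L + 4) ∧ ¬ (C (ps L y) ↔ C (ps L y + 1))) := by
  rw [lf_node hσ h]
  refine and_congr_right fun hy => ?_
  have hx := (lf_node hσ h).2 hy
  rcases lt_trichotomy (ps L x) (ps L y) with hl | hl | hl
  · obtain ⟨g1, g2⟩ := lf_gaps hσ h2 hx.1 hx.2 h hl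
    have := hC _ _ g1
    have := hC _ _ g2
    tauto
  · rw [hl]
  · obtain ⟨g1, g2⟩ := lf_gaps hσ h2 hy.1 hy.2 (σ.symm h) hl
    have := hC _ _ g1
    have := hC _ _ g2
    tauto

open Classical in
/-- strand nodes in the block of `x` at positions below `g` -/
noncomputable def lf_F (L : ℕ) (S : St) (x g : ℕ) : Finset ℕ :=
  (Ico 4 (2 * L + 4)).filter fun y => S x y ∧ ps L y < g

theorem lf_mem_F {L : ℕ} {S : St} {x g y : ℕ} :
    y ∈ lf_F L S x g ↔ (4 ≤ y ∧ y < 2 * L + 4) ∧ S x y ∧ ps L y < g := by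
  classical
  unfold lf_F
  rw [mem_filter, mem_Ico]

theorem lf_F_even {L : ℕ} {σ S : St} (hσ : σ ∈ IPC.W L) (hS : ∀ x y, σ x y → S x y) (x : ℕ) {g g' : ℕ}
    (h : gL L σ g g') : Even (lf_F L S x g).card ↔ Even (lf_F L S x g').card := by
  classical
  have key : ∀ g g', g ≤ g' → gL L σ g g' → (Even (lf_F L S x g).card ↔ Even (lf_F L S x g').card) := by
    intro g g' hle h
    obtain ⟨P, hP1, hP2, hP3, hP4⟩ := bb_partner hσ.1.1
    have hsub : lf_F L S x g ⊆ lf_F L S x g' := by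
      intro y hy
      rw [lf_mem_F] at hy ⊢
      exact ⟨hy.1, hy.2.1, by omega⟩
    have hD : Even (lf_F L S x g' \ lf_F L S x g).card := by
      apply lf_even_invol _ P hP1
      · intro y hy
        rw [mem_sdiff, lf_mem_F] at hy
        exact (hP2 y hy.1.1.2).2
      · intro y hy
        rw [mem_sdiff, lf_mem_F, lf_mem_F] at hy ⊢
        obtain ⟨⟨h1, h2, h3⟩, h4⟩ := hy
        have h5 : σ y (P y) := (hP4 y (P y)).2 (Or.inr rfl)
        have h6 := (lf_node hσ h5).1 h1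
        have h7 : S x (P y) := S.trans h2 (hS _ _ h5)
        have h8 := h y (P y) h1.1 h1.2 h6.1 h6.2 h5
        unfold cov at h8
        have h9 : ¬ ps L y < g := fun h => h4 ⟨h1, h2, h⟩
        refine ⟨⟨h6, h7, by omega⟩, ?_⟩
        rintro ⟨_, _, h10⟩
        omega
    have hc := card_sdiff_add_card_eq_card hsub
    rw [← hc, Nat.even_add]
    tauto
  rcases le_total g g' with hle | hle
  · exact key g g' hle h
  · exact (key g' g hle ((gL L σ).symm h)).symm

theorem nodd_eq_zero_iff {L : ℕ} {σ τ : St} (hσ : σ ∈ IPC.W L) (h2 : σ ∈ IPC.NC L) (hτ : τ ∈ IPC.W L)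
    (h3 : τ ∈ IPC.NC L) : nodd L σ τ = 0 ↔ (gL L σ ⊔ gL L τ) 0 L := by
  classical
  have e0 : nodd L σ τ = 0 ↔ ∀ x ∈ lf_A L, Even (lf_blk (lf_A L) (σ ⊔ τ) x).card := by
    rw [lf_nodd]
    unfold lf_nd
    rw [card_eq_zero, image_eq_empty, filter_eq_empty_iff]
    constructor
    · intro h x hx
      exact Nat.not_odd_iff_even.1 (h hx)
    · intro h x hx
      exact Nat.not_odd_iff_even.2 (h x hx)
  rw [e0]
  constructor
  · intro h
    by_contra hn
    set C : ℕ → Prop := fun g => (gL L σ ⊔ gL L τ) 0 g with hC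
    have c1 : ∀ g g', gL L σ g g' → (C g ↔ C g') := fun g g' hg =>
      ⟨fun h1 => (gL L σ ⊔ gL L τ).trans h1 (sup_left hg),
        fun h1 => (gL L σ ⊔ gL L τ).trans h1 ((gL L σ ⊔ gL L τ).symm (sup_left hg))⟩
    have c2 : ∀ g g', gL L τ g g' → (C g ↔ C g') := fun g g' hg =>
      ⟨fun h1 => (gL L σ ⊔ gL L τ).trans h1 (sup_right hg),
        fun h1 => (gL L σ ⊔ gL L τ).trans h1 ((gL L σ ⊔ gL L τ).symm (sup_right hg))⟩
    set X : ℕ → Prop := fun x => (4 ≤ x ∧ x < 2 * L + 4) ∧ ¬ (C (ps L x) ↔ C (ps L x + 1)) with hX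
    have hXS : ∀ x y, (σ ⊔ τ) x y → (X x ↔ X y) := by
      refine sup_le_of (S := ⟨fun x y => (X x ↔ X y), ⟨fun _ => Iff.rfl, fun h => h.symm,
        fun h h' => h.trans h'⟩⟩) ?_ ?_
      · exact fun x y h => lf_bdry hσ h2 C c1 x y h
      · exact fun x y h => lf_bdry hτ h3 C c2 x y h
    have hE := lf_even_union h X hXS
    have hO : Odd ((range L).filter fun i => ¬ (C i ↔ C (i + 1))).card := by
      rw [lf_changes C L]
      have : C 0 := (gL L σ ⊔ gL L τ).refl 0
      tauto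
    have e : (lf_A L).filter X = ((range L).filter fun i => ¬ (C i ↔ C (i + 1))).image fun i => 2 * i + 4 := by
      ext x
      rw [mem_filter, lf_mem_A, mem_image]
      constructor
      · rintro ⟨h4, h5, h6⟩
        refine ⟨(x - 4) / 2, ?_, by omega⟩
        rw [mem_filter, mem_range]
        refine ⟨by omega, ?_⟩
        have h7 : ps L x = (x - 4) / 2 := by unfold ps; rw [if_pos h4.1]
        rw [h7] at h6
        exact h6
      · rintro ⟨i, hi, rfl⟩
        rw [mem_filter, mem_range] at hi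
        refine ⟨by omega, by omega, ?_⟩
        rw [gap_ps_even]
        exact hi.2
    rw [e, card_image_of_injective _ (fun a b h => by simpa using h)] at hE
    exact (Nat.not_even_iff_odd.2 hO) hE
  · intro h x hx
    have hB : ∀ g g', (gL L σ ⊔ gL L τ) g g' →
        (Even (lf_F L (σ ⊔ τ) x g).card ↔ Even (lf_F L (σ ⊔ τ) x g').card) := by
      refine sup_le_of (S := ⟨fun g g' => (Even (lf_F L (σ ⊔ τ) x g).card ↔ Even (lf_F L (σ ⊔ τ) x g').card),
        ⟨fun _ => Iff.rfl, fun h => h.symm, fun h h' => h.trans h'⟩⟩) ?_ ?_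
      · exact fun g g' h => lf_F_even (S := σ ⊔ τ) hσ (fun _ _ h => sup_left h) x h
      · exact fun g g' h => lf_F_even (S := σ ⊔ τ) hτ (fun _ _ h => sup_right h) x h
    have h4 := hB 0 L h
    have e1 : lf_F L (σ ⊔ τ) x 0 = ∅ := by
      rw [eq_empty_iff_forall_notMem]
      intro y hy
      rw [lf_mem_F] at hy
      omega
    have e2 : lf_F L (σ ⊔ τ) x L = lf_blk (lf_A L) (σ ⊔ τ) x := by
      ext y
      rw [lf_mem_F, lf_mem_blk, lf_mem_A]
      unfold ps
      constructor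
      · rintro ⟨h5, h6, h7⟩
        split_ifs at h7 with h8
        · exact ⟨by omega, h6⟩
        · omega
      · rintro ⟨h5, h6⟩
        refine ⟨by omega, h6, ?_⟩
        rw [if_pos h5.1]
        omega
    rw [e1, e2, card_empty] at h4
    exact h4.1 (by simp)

end OneArm
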