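import Pool.Agent.Helper18.OneArm.FinalCyl
import Pool.Agent.Helper18.OneArm.LoopForm
import Pool.Agent.Helper82.OneArmW.Final

/-! Nesting statistics on the cylinder: `pcylW w L = E[w ^ N]`, `N` = number of loops around the marked site
(interfaces between open and dual-open clusters which surround it and do not wind around the cylinder).
Exact formula for all `w = 2 cos θ`, two-sided power law for `0 ≤ w ≤ 2`, mean number of loops. -/

namespace OneArm
open IP IPC Finset Real Filter Topology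

/-- generating function of the number of loops around the marked site -/
noncomputable def pcylW (w : ℝ) (L : ℕ) : ℝ := bil (hw w L) (IPC.P L (fun _ => 0)) (IPC.P L (fun _ => 0))

/-- mean number of loops around the marked site -/
noncomputable def mcyl (L : ℕ) : ℝ :=
  bil (fun σ τ => ((nodd L σ τ / 2 : ℕ) : ℝ)) (IPC.P L (fun _ => 0)) (IPC.P L (fun _ => 0))

theorem OAForm_hw (w : ℝ) : OAForm w (hw w) where
  zero := by
    intro σ _ τ _
    unfold hw
    rw [nodd_zero, Nat.zero_div, pow_zero]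
  es := by
    intro L i h v hv v' hv'
    exact bil_hw_Es w h (Finsupp.supported_mono Set.inter_subset_left hv)
      (Finsupp.supported_mono Set.inter_subset_left hv')
  ins := by
    intro L v hv v' hv'
    exact bil_hw_In w L hv hv'
  wrap := by
    intro L v hv v' hv'
    exact bil_hw_wrap w L hv hv'

theorem pcylW_eq (w : ℝ) (L : ℕ) :
    pcylW w L = Zf (hw w) L (fun _ => 0) / Zf (fun _ _ _ => 1) L (fun _ => 0) := by
  have h1 : (fun j : ℕ => -(fun _ : ℕ => (0 : ℝ)) j) = fun _ => (0 : ℝ) := by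
    funext j
    exact neg_zero
  rw [Zf_one]
  unfold pcylW Zf
  rw [h1, IPC.P_eq L zero_Cube, bil_smul_left, bil_smul_right]
  have h2 := IPC.Z_ne L zero_Cube
  field_simp

/-- exact formula: `|E[(2 cos θ)^N]|` is a ratio of Hankel determinants -/
theorem pcylW_hk (θ : ℝ) (n : ℕ) :
    |pcylW (2 * Real.cos θ) (2 * n)| = ‖hk (2 * n) θ‖ / ‖hk (2 * n) (π / 3)‖ := by
  rw [pcylW_eq]
  refine homog_ratio_gen (2 * n) θ (π / 3) (Zf (hw (2 * Real.cos θ)) (2 * n)) (Zf (fun _ _ _ => 1) (2 * n))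
    ((-(3 / 4)) ^ n) (pow_ne_zero n (by norm_num)) (fun b => ?_) (fun b => ?_)
    (Zf_line_continuous (OAForm_hw _) n) (Zf_line_continuous OAForm_one n)
  · exact Zf_eq rfl (OAForm_hw _) n b
  · exact Zf_eq (by rw [Real.cos_pi_div_three]; norm_num) OAForm_one n b

theorem bil_nonneg' {f : St → St → ℝ} (hf : ∀ σ τ, 0 ≤ f σ τ) (L : ℕ) :
    0 ≤ bil f (IPC.P L (fun _ => 0)) (IPC.P L (fun _ => 0)) := by
  unfold bil
  refine Finsupp.sum_nonneg fun σ _ => Finsupp.sum_nonneg fun τ _ => ?_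
  exact mul_nonneg (mul_nonneg (IPC.P_nonneg _ _ _) (IPC.P_nonneg _ _ _)) (hf _ _)

theorem pcylW_nonneg {w : ℝ} (hw0 : 0 ≤ w) (L : ℕ) : 0 ≤ pcylW w L :=
  bil_nonneg' (fun σ τ => by unfold hw; positivity) L

theorem hw_one (L : ℕ) : hw 1 L = fun _ _ => 1 := by
  funext σ τ
  unfold hw
  rw [one_pow]

theorem pcylW_one (n : ℕ) : pcylW 1 (2 * n) = 1 := by
  have h1 := pcylW_eq 1 (2 * n)
  have h2 : Zf (hw 1) (2 * n) (fun _ => 0) = Zf (fun _ _ _ => 1) (2 * n) (fun _ => 0) := by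
    unfold Zf
    rw [hw_one]
  rw [h1, h2, div_self]
  rw [Zf_one]
  have h3 : (fun j : ℕ => -(fun _ : ℕ => (0 : ℝ)) j) = fun _ => (0 : ℝ) := by
    funext j
    exact neg_zero
  rw [h3]
  exact mul_ne_zero (IPC.Z_ne _ zero_Cube) (IPC.Z_ne _ zero_Cube)

/-- the nesting exponents on the cylinder, all weights `w = 2 cos θ ∈ [0, 2]` -/
theorem pcylW_asymptotics : ∃ c C : ℝ, 0 < c ∧ 0 < C ∧ ∀ θ ∈ Set.Icc (0 : ℝ) (π / 2), ∀ n : ℕ, 1 ≤ n →
    c * ((2 * n : ℕ) : ℝ) ^ (-(3 / 4 * (θ ^ 2 / π ^ 2 - 1 / 9)) : ℝ) ≤ pcylW (2 * Real.cos θ) (2 * n) ∧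
    pcylW (2 * Real.cos θ) (2 * n) ≤ C * ((2 * n : ℕ) : ℝ) ^ (-(3 / 4 * (θ ^ 2 / π ^ 2 - 1 / 9)) : ℝ) := by
  obtain ⟨c, C, hc, hC, h⟩ := OneArmW.nesting_asymptotics
  refine ⟨c, C, hc, hC, fun θ hθ n hn => ?_⟩
  have h1 := h θ hθ (2 * n) (by omega)
  have hcos : 0 ≤ 2 * Real.cos θ := by
    have := Real.cos_nonneg_of_mem_Icc (x := θ) ⟨by linarith [hθ.1, Real.pi_pos], hθ.2⟩
    linarith
  rw [← pcylW_hk θ n, abs_of_nonneg (pcylW_nonneg hcos _)] at h1
  exact h1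

/-! ### the mean -/

theorem pcylW_hasDerivAt (L : ℕ) : HasDerivAt (fun w => pcylW w L) (mcyl L) 1 := by
  classical
  unfold pcylW mcyl bil
  have key : ∀ σ τ : St, HasDerivAt (fun w : ℝ => hw w L σ τ) ((nodd L σ τ / 2 : ℕ) : ℝ) 1 := by
    intro σ τ
    have h1 := hasDerivAt_pow (nodd L σ τ / 2) (1 : ℝ)
    rw [one_pow, mul_one] at h1
    exact h1
  unfold Finsupp.sum
  refine HasDerivAt.fun_sum fun σ _ => HasDerivAt.fun_sum fun τ _ => ?_
  exact (key σ τ).const_mul _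

/-- the mean number of loops around a site on the cylinder of circumference `L = 2 n` is
`log L / (2 √3 π) + O(1)` -/
theorem mcyl_asymptotics : ∃ C : ℝ, 0 < C ∧ ∀ n : ℕ, 1 ≤ n →
    |mcyl (2 * n) - Real.log ((2 * n : ℕ) : ℝ) / (2 * Real.sqrt 3 * π)| ≤ C := by
  obtain ⟨C, hC, h⟩ := OneArmW.nesting_lipschitz
  refine ⟨C, hC, fun n hn => ?_⟩
  have hpi := Real.pi_pos
  set L : ℝ := ((2 * n : ℕ) : ℝ) with hL
  -- derivative of `θ ↦ log pcylW (2 cos θ)` at `π / 3`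
  have hcos3 : (2 : ℝ) * Real.cos (π / 3) = 1 := by rw [Real.cos_pi_div_three]; norm_num
  have h1 : HasDerivAt (fun θ : ℝ => 2 * Real.cos θ) (2 * (-Real.sin (π / 3))) (π / 3) :=
    (Real.hasDerivAt_cos (π / 3)).const_mul 2
  have h2 : HasDerivAt (fun w => pcylW w (2 * n)) (mcyl (2 * n)) (2 * Real.cos (π / 3)) := by
    rw [hcos3]
    exact pcylW_hasDerivAt (2 * n)
  have h3 := h2.comp (π / 3) h1
  have h4 : HasDerivAt (fun θ : ℝ => Real.log (pcylW (2 * Real.cos θ) (2 * n)))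
      (mcyl (2 * n) * (2 * (-Real.sin (π / 3)))) (π / 3) := by
    have h5 := h3.log (by
      show pcylW (2 * Real.cos (π / 3)) (2 * n) ≠ 0
      rw [hcos3, pcylW_one]
      exact one_ne_zero)
    have h6 : ((fun w => pcylW w (2 * n)) ∘ fun θ : ℝ => 2 * Real.cos θ) (π / 3) = 1 := by
      show pcylW (2 * Real.cos (π / 3)) (2 * n) = 1
      rw [hcos3, pcylW_one]
    rw [h6, div_one] at h5
    exact h5
  have h5 : HasDerivAt (fun θ : ℝ => Real.log (pcylW (2 * Real.cos θ) (2 * n)) +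
      3 / (4 * π ^ 2) * (θ ^ 2 - (π / 3) ^ 2) * Real.log L)
      (mcyl (2 * n) * (2 * (-Real.sin (π / 3))) + 3 / (4 * π ^ 2) * (2 * (π / 3)) * Real.log L) (π / 3) := by
    have h6 : HasDerivAt (fun θ : ℝ => θ ^ 2) (2 * (π / 3)) (π / 3) := by
      simpa using hasDerivAt_pow 2 (π / 3)
    have h7 := ((h6.sub_const ((π / 3) ^ 2)).const_mul (3 / (4 * π ^ 2))).mul_const (Real.log L)
    exact h4.add h7
  have h6 := hasDerivAt_iff_tendsto_slope.1 h5
  have h8 : ∀ᶠ θ in 𝓝[≠] (π / 3), |slope (fun θ : ℝ => Real.log (pcylW (2 * Real.cos θ) (2 * n)) +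
      3 / (4 * π ^ 2) * (θ ^ 2 - (π / 3) ^ 2) * Real.log L) (π / 3) θ| ≤ C := by
    have hI : Set.Icc (0 : ℝ) (π / 2) ∈ 𝓝 (π / 3) := Icc_mem_nhds (by positivity) (by linarith)
    filter_upwards [nhdsWithin_le_nhds hI, self_mem_nhdsWithin] with θ hθ hne
    have m3 : π / 3 ∈ Set.Icc (0 : ℝ) (π / 2) := ⟨by positivity, by linarith⟩
    have h9 := h (2 * n) (by omega) (π / 3) m3 θ hθ
    have hcos : 0 ≤ 2 * Real.cos θ := by
      have := Real.cos_nonneg_of_mem_Icc (x := θ) ⟨by linarith [hθ.1], hθ.2⟩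
      linarith
    rw [← pcylW_hk θ n, abs_of_nonneg (pcylW_nonneg hcos _)] at h9
    rw [slope_def_field, abs_div, div_le_iff₀ (abs_pos.2 (sub_ne_zero.2 hne))]
    have h10 : Real.log (pcylW (2 * Real.cos (π / 3)) (2 * n)) +
        3 / (4 * π ^ 2) * ((π / 3) ^ 2 - (π / 3) ^ 2) * Real.log L = 0 := by
      rw [hcos3, pcylW_one, Real.log_one, sub_self, mul_zero, zero_mul, add_zero]
    rw [h10, sub_zero]
    exact h9
  have h9 := le_of_tendsto h6.abs h8
  have hs3 : Real.sin (π / 3) = Real.sqrt 3 / 2 := Real.sin_pi_div_three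
  rw [hs3] at h9
  have h3pos : 0 < Real.sqrt 3 := Real.sqrt_pos.2 (by norm_num)
  have h3le : 1 ≤ Real.sqrt 3 := by
    rw [Real.one_le_sqrt]
    norm_num
  have e : mcyl (2 * n) * (2 * (-(Real.sqrt 3 / 2))) + 3 / (4 * π ^ 2) * (2 * (π / 3)) * Real.log L =
      -(Real.sqrt 3) * (mcyl (2 * n) - Real.log L / (2 * Real.sqrt 3 * π)) := by
    field_simp
    ring
  rw [e, abs_mul, abs_neg, abs_of_pos h3pos] at h9
  have h11 : |mcyl (2 * n) - Real.log L / (2 * Real.sqrt 3 * π)| ≤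
      Real.sqrt 3 * |mcyl (2 * n) - Real.log L / (2 * Real.sqrt 3 * π)| := by
    nlinarith [abs_nonneg (mcyl (2 * n) - Real.log L / (2 * Real.sqrt 3 * π))]
  exact h11.trans h9

end OneArm
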