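import Pool.Agent.Helper64.IPC.Lin
import Pool.Agent.Helper64.IPC.Bil

/-! MODULE GAP: the gap partition of a link pattern and the one-arm form `h0`.
Nodes `m ≤ x < N` with positions `p x`; the gap `g` lies before the position `g`.  The arc `{x, y}` covers
the gap `g` if exactly one of its ends has position `≥ g`.  Two gaps are equivalent if no arc separates
them.  On the circle of `2 L` positions (double cover of the cylinder with `L` strands, positions `ps L`) the
marked gap (between the strands `L-1` and `0`) has the two lifts `0` and `L` (and `2L` is the same as `0`).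
`h0 L σ τ = 1` iff in the glued configuration the two lifts of the marked gap are connected, i.e. the cluster
of the marked site winds around the cylinder, i.e. no loop surrounds the marked gap.
All statements checked by computer for L = 2, 4, 6. -/

namespace OneArm
open IP IPC Finset

/-- the arc `{x, y}` covers the gap `g` -/
def cov (p : ℕ → ℕ) (x y g : ℕ) : Prop := ¬ (g ≤ p x ↔ g ≤ p y)

/-- gap partition -/
def gp (m N : ℕ) (p : ℕ → ℕ) (σ : St) : St where
  r g g' := ∀ x y, m ≤ x → x < N → m ≤ y → y < N → σ x y → (cov p x y g ↔ cov p x y g')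
  iseqv := by
    refine ⟨fun g x y _ _ _ _ _ => Iff.rfl, ?_, ?_⟩
    · intro g g' h x y h1 h2 h3 h4 h5
      exact (h x y h1 h2 h3 h4 h5).symm
    · intro g g' g'' h h' x y h1 h2 h3 h4 h5
      exact (h x y h1 h2 h3 h4 h5).trans (h' x y h1 h2 h3 h4 h5)

/-- the gap `g + 1` becomes a singleton, then `g` and `g + 2` are joined -/
def jd (g : ℕ) (π : St) : St := join g (g + 2) (detach (g + 1) π)

theorem gap_cov_symm (p : ℕ → ℕ) (x y g : ℕ) : cov p x y g ↔ cov p y x g := by
  unfold cov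
  grind

/-- two arcs that do not cross: not all four patterns of covering occur -/
theorem gap_four_aux {m N : ℕ} {p : ℕ → ℕ} (hp : Inj m N p) {σ : St} (h : σ ∈ NCp m N p)
    {u v x y : ℕ} (hu : m ≤ u) (hu' : u < N) (hv : m ≤ v) (hv' : v < N) (hx : m ≤ x) (hx' : x < N)
    (hy : m ≤ y) (hy' : y < N) (h1 : σ u v) (h2 : σ x y) (n1 : u ≠ x) (n2 : u ≠ y) (n3 : v ≠ x)
    (n4 : v ≠ y) (l1 : p u < p v) (l2 : p x < p y) {a b c : ℕ}
    (ha : cov p u v a ∧ cov p x y a) (hb : cov p u v b ∧ ¬ cov p x y b)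
    (hc : ¬ cov p u v c ∧ cov p x y c) : False := by
  have k1 : p u ≠ p x := fun e => n1 (hp u x hu hu' hx hx' e)
  have k2 : p u ≠ p y := fun e => n2 (hp u y hu hu' hy hy' e)
  have k3 : p v ≠ p x := fun e => n3 (hp v x hv hv' hx hx' e)
  have k4 : p v ≠ p y := fun e => n4 (hp v y hv hv' hy hy' e)
  have c1 : ¬ (p u < p x ∧ p x < p v ∧ p v < p y) := fun e =>
    h u x v y hu hx hv hy hu' hx' hv' hy' e.1 e.2.1 e.2.2 h1 h2
  have c2 : ¬ (p x < p u ∧ p u < p y ∧ p y < p v) := fun e =>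
    h x u y v hx hu hy hv hx' hu' hy' hv' e.1 e.2.1 e.2.2 h2 h1
  unfold cov at ha hb hc
  omega

theorem gap_four {m N : ℕ} {p : ℕ → ℕ} (hp : Inj m N p) {σ : St} (h : σ ∈ NCp m N p)
    {u v x y : ℕ} (hu : m ≤ u) (hu' : u < N) (hv : m ≤ v) (hv' : v < N) (hx : m ≤ x) (hx' : x < N)
    (hy : m ≤ y) (hy' : y < N) (h1 : σ u v) (h2 : σ x y) (n1 : u ≠ x) (n2 : u ≠ y) (n3 : v ≠ x)
    (n4 : v ≠ y) {a b c : ℕ}
    (ha : cov p u v a ∧ cov p x y a) (hb : cov p u v b ∧ ¬ cov p x y b)
    (hc : ¬ cov p u v c ∧ cov p x y c) : False := by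
  rcases lt_trichotomy (p u) (p v) with l1 | l1 | l1
  · rcases lt_trichotomy (p x) (p y) with l2 | l2 | l2
    · exact gap_four_aux hp h hu hu' hv hv' hx hx' hy hy' h1 h2 n1 n2 n3 n4 l1 l2 ha hb hc
    · unfold cov at hc
      omega
    · rw [gap_cov_symm p x y] at ha hb hc
      exact gap_four_aux hp h hu hu' hv hv' hy hy' hx hx' h1 (σ.symm h2) n2 n1 n4 n3 l1 l2 ha hb hc
  · unfold cov at ha
    omega
  · rw [gap_cov_symm p u v] at ha hb hc
    rcases lt_trichotomy (p x) (p y) with l2 | l2 | l2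
    · exact gap_four_aux hp h hv hv' hu hu' hx hx' hy hy' (σ.symm h1) h2 n3 n4 n1 n2 l1 l2 ha hb hc
    · unfold cov at hc
      omega
    · rw [gap_cov_symm p x y] at ha hb hc
      exact gap_four_aux hp h hv hv' hu hu' hy hy' hx hx' (σ.symm h1) (σ.symm h2) n4 n3 n2 n1 l1 l2 ha hb hc

/-- the same with arbitrary labels of the patterns -/
theorem gap_four' {m N : ℕ} {p : ℕ → ℕ} (hp : Inj m N p) {σ : St} (h : σ ∈ NCp m N p)
    {u v x y : ℕ} (hu : m ≤ u) (hu' : u < N) (hv : m ≤ v) (hv' : v < N) (hx : m ≤ x) (hx' : x < N)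
    (hy : m ≤ y) (hy' : y < N) (h1 : σ u v) (h2 : σ x y) (n1 : u ≠ x) (n2 : u ≠ y) (n3 : v ≠ x)
    (n4 : v ≠ y) {a b c d : ℕ}
    (hb1 : cov p u v b ↔ cov p u v a) (hb2 : ¬ (cov p x y b ↔ cov p x y a))
    (hc1 : ¬ (cov p u v c ↔ cov p u v a)) (hc2 : cov p x y c ↔ cov p x y a)
    (hd1 : ¬ (cov p u v d ↔ cov p u v a)) (hd2 : ¬ (cov p x y d ↔ cov p x y a)) : False := by
  have key := fun (a b c : ℕ) => @gap_four m N p hp σ h u v x y hu hu' hv hv' hx hx' hy hy' h1 h2 n1 n2
    n3 n4 a b c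
  by_cases A : cov p u v a <;> by_cases B : cov p x y a
  · exact key a b c ⟨A, B⟩ (by grind) (by grind)
  · exact key b a d (by grind) (by grind) (by grind)
  · exact key c d a (by grind) (by grind) (by grind)
  · exact key d c b (by grind) (by grind) (by grind)

/-- action of the elementary generator on the gap partition: `x`, `y` at adjacent positions -/
theorem gp_pr {m N : ℕ} {p : ℕ → ℕ} (hp : Inj m N p) {x y : ℕ} (hx : m ≤ x) (hx' : x < N) (hy : m ≤ y)
    (hy' : y < N) (hxy : p y = p x + 1) {σ : St} (hσ : σ ∈ PP N)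
    (hm : ∀ z, m ≤ z → ∀ w, σ z w → m ≤ w) (h : σ ∈ NCp m N p) :
    gp m N p (pr x y σ) = jd (p x) (gp m N p σ) := by
  obtain ⟨a, ha', hax, hxa⟩ := hσ.1 x hx'
  obtain ⟨b, hb', hby, hyb⟩ := hσ.1 y hy'
  have ha : m ≤ a := hm x hx a ((hxa a).2 (Or.inr rfl))
  have hb : m ≤ b := hm y hy b ((hyb b).2 (Or.inr rfl))
  have hσxa : σ x a := (hxa a).2 (Or.inr rfl)
  have hσyb : σ y b := (hyb b).2 (Or.inr rfl)
  have hxy' : x ≠ y := by
    rintro rfl
    omega
  -- covering of the gap `p x + 1` by the arc `{x, y}`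
  have cxy : ∀ g, cov p x y g ↔ g = p x + 1 := by
    intro g
    unfold cov
    omega
  -- away from `p x + 1` the ends `x`, `y` are equivalent
  have lexy : ∀ g, g ≠ p x + 1 → (g ≤ p x ↔ g ≤ p y) := by
    intro g hg
    omega
  -- other nodes do not distinguish the gaps `p x`, `p x + 2`
  have oth : ∀ z, m ≤ z → z < N → z ≠ x → z ≠ y → (p x ≤ p z ↔ p x + 2 ≤ p z) := by
    intro z hz hz' h1 h2
    have k1 : p z ≠ p x := fun e => h1 (hp z x hz hz' hx hx' e)
    have k2 : p z ≠ p y := fun e => h2 (hp z y hz hz' hy hy' e)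
    omega
  set σ' := pr x y σ with hσ'
  have hσ'iff : ∀ u v, σ' u v ↔ (u = v ∨ ((u = x ∨ u = y) ∧ (v = x ∨ v = y)) ∨
    ((u ≠ x ∧ u ≠ y) ∧ (v ≠ x ∧ v ≠ y) ∧ (σ u v ∨ (σ u x ∧ σ y v) ∨ (σ u y ∧ σ x v)))) :=
    fun u v => pr_iff x y σ u v
  -- `p x` and `p x + 2` are equivalent in the new partition
  have s1 : (gp m N p σ') (p x) (p x + 2) := by
    intro u v hu hu' hv hv' huv
    rw [hσ'iff] at huv
    rcases huv with rfl | ⟨h1, h2⟩ | ⟨h1, h2, _⟩
    · unfold cov
      grind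
    · rcases h1 with rfl | rfl <;> rcases h2 with rfl | rfl <;> unfold cov <;> omega
    · have k1 := oth u hu hu' h1.1 h1.2
      have k2 := oth v hv hv' h2.1 h2.2
      unfold cov
      grind
  -- old equivalences away from `p x + 1` survive
  have s2 : ∀ g g', g ≠ p x + 1 → g' ≠ p x + 1 → (gp m N p σ) g g' → (gp m N p σ') g g' := by
    intro g g' hg hg' hgg u v hu hu' hv hv' huv
    rw [hσ'iff] at huv
    have q1 := lexy g hg
    have q2 := lexy g' hg'
    rcases huv with rfl | ⟨h1, h2⟩ | ⟨h1, h2, h3 | ⟨h3, h4⟩ | ⟨h3, h4⟩⟩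
    · unfold cov
      grind
    · rcases h1 with rfl | rfl <;> rcases h2 with rfl | rfl <;> unfold cov <;> grind
    · exact hgg u v hu hu' hv hv' h3
    · have r1 := hgg u x hu hu' hx hx' h3
      have r2 := hgg y v hy hy' hv hv' h4
      unfold cov at *
      grind
    · have r1 := hgg u y hu hu' hy hy' h3
      have r2 := hgg x v hx hx' hv hv' h4
      unfold cov at *
      grind
  apply Setoid.ext
  intro g g'
  constructor
  · intro hgg
    by_cases hne : g = g'
    · rw [hne]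
    -- neither is `p x + 1`
    have hs : (g = p x + 1 ↔ g' = p x + 1) := by
      have := hgg x y hx hx' hy hy' ((hσ'iff x y).2 (Or.inr (Or.inl ⟨Or.inl rfl, Or.inr rfl⟩)))
      rw [cxy, cxy] at this
      exact this
    have hg : g ≠ p x + 1 := by
      intro e
      exact hne (e.trans (hs.1 e).symm)
    have hg' : g' ≠ p x + 1 := by
      intro e
      exact hne ((hs.2 e).trans e.symm)
    -- arcs that avoid `x`, `y`
    have arcs : ∀ u v, m ≤ u → u < N → m ≤ v → v < N → u ≠ x → u ≠ y → v ≠ x → v ≠ y → σ u v →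
        (cov p u v g ↔ cov p u v g') := by
      intro u v hu hu' hv hv' h1 h2 h3 h4 h5
      exact hgg u v hu hu' hv hv' ((hσ'iff u v).2 (Or.inr (Or.inr ⟨⟨h1, h2⟩, ⟨h3, h4⟩, Or.inl h5⟩)))
    -- a criterion for old equivalences
    have crit : ∀ k k', (cov p x a k ↔ cov p x a k') → (cov p y b k ↔ cov p y b k') →
        (∀ u v, m ≤ u → u < N → m ≤ v → v < N → u ≠ x → u ≠ y → v ≠ x → v ≠ y → σ u v →
        (cov p u v k ↔ cov p u v k')) → (gp m N p σ) k k' := by
      intro k k' h1 h2 h3 u v hu hu' hv hv' huv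
      by_cases e1 : u = x
      · subst e1
        rcases (hxa v).1 huv with rfl | rfl
        · unfold cov
          grind
        · exact h1
      by_cases e2 : u = y
      · subst e2
        rcases (hyb v).1 huv with rfl | rfl
        · unfold cov
          grind
        · exact h2
      by_cases e3 : v = x
      · subst e3
        rcases (hxa u).1 (σ.symm huv) with rfl | rfl
        · unfold cov
          grind
        · rw [gap_cov_symm p u v, gap_cov_symm p u v]
          exact h1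
      by_cases e4 : v = y
      · subst e4
        rcases (hyb u).1 (σ.symm huv) with rfl | rfl
        · unfold cov
          grind
        · rw [gap_cov_symm p u v, gap_cov_symm p u v]
          exact h2
      exact h3 u v hu hu' hv hv' e1 e2 e3 e4 huv
    by_cases hay : a = y
    · -- the arc `{x, y}` is already there
      have hbx : b = x := by
        rcases (hyb x).1 (by rw [← hay]; exact σ.symm hσxa) with e | e
        · exact absurd e hxy'
        · exact e.symm
      refine Or.inl (Or.inr ⟨hg, hg', ?_⟩)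
      refine crit g g' ?_ ?_ arcs
      · rw [hay, cxy, cxy]
        exact hs
      · rw [hbx, gap_cov_symm, gap_cov_symm p y x, cxy, cxy]
        exact hs
    · have hbx : b ≠ x := by
        intro e
        rcases (hxa y).1 (by rw [← e]; exact σ.symm hσyb) with e2 | e2
        · exact hxy' e2.symm
        · exact hay e2.symm
      have hab : a ≠ b := by
        intro e
        rcases (hxa y).1 (σ.trans hσxa (by rw [e]; exact σ.symm hσyb)) with e2 | e2
        · exact hxy' e2.symm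
        · exact hay e2.symm
      have hAB : (cov p a b g ↔ cov p a b g') :=
        hgg a b ha ha' hb hb' ((hσ'iff a b).2 (Or.inr (Or.inr ⟨⟨hax, hay⟩, ⟨hbx, hby⟩,
          Or.inr (Or.inl ⟨σ.symm hσxa, hσyb⟩)⟩)))
      have q1 := lexy g hg
      have q2 := lexy g' hg'
      by_cases hc : (cov p x a g ↔ cov p x a g')
      · -- nothing changes
        refine Or.inl (Or.inr ⟨hg, hg', ?_⟩)
        refine crit g g' hc ?_ arcs
        unfold cov at *
        grind
      · have hd : ¬ (cov p y b g ↔ cov p y b g') := by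
          unfold cov at *
          grind
        -- the patterns at `p x` and `p x + 2` are complementary
        have oa := oth a ha ha' hax hay
        have ob := oth b hb hb' hbx hby
        have ca : ¬ (cov p x a (p x) ↔ cov p x a (p x + 2)) := by
          unfold cov
          omega
        have cb : ¬ (cov p y b (p x) ↔ cov p y b (p x + 2)) := by
          unfold cov
          omega
        -- if the patterns of `k1` and `k2` agree then `k1`, `k2` are equivalent
        have step : ∀ k1 k2 k1' k2', (gp m N p σ') k1 k1' → (gp m N p σ') k2 k2' →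
            (cov p x a k1 ↔ cov p x a k2) → (cov p y b k1 ↔ cov p y b k2) →
            ¬ (cov p x a k1 ↔ cov p x a k1') → ¬ (cov p x a k2 ↔ cov p x a k2') →
            (gp m N p σ) k1 k2 := by
          intro k1 k2 k1' k2' e1 e2 e3 e4 e5 e6
          refine crit k1 k2 e3 e4 ?_
          intro u v hu hu' hv hv' n1 n2 n3 n4 huv
          have f1 := e1 u v hu hu' hv hv' ((hσ'iff u v).2 (Or.inr (Or.inr ⟨⟨n1, n2⟩, ⟨n3, n4⟩, Or.inl huv⟩)))
          have f2 := e2 u v hu hu' hv hv' ((hσ'iff u v).2 (Or.inr (Or.inr ⟨⟨n1, n2⟩, ⟨n3, n4⟩, Or.inl huv⟩)))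
          by_contra hcon
          -- `u, v` are not `a`
          have n5 : u ≠ a := by
            rintro rfl
            rcases (hxa v).1 (σ.trans hσxa huv) with e | e
            · exact n3 e
            · subst e
              apply hcon
              unfold cov
              grind
          have n6 : v ≠ a := by
            rintro rfl
            rcases (hxa u).1 (σ.trans hσxa (σ.symm huv)) with e | e
            · exact n1 e
            · subst e
              apply hcon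
              unfold cov
              grind
          exact gap_four' hp h hu hu' hv hv' hx hx' ha ha' huv hσxa n1 n5 n3 n6 (a := k1) (b := k1')
            (c := k2) (d := k2') f1.symm (by grind) (by grind) (by grind) (by grind) (by grind)
        by_cases hpat : ((cov p x a g ↔ cov p x a (p x)) ↔ (cov p y b g ↔ cov p y b (p x)))
        · by_cases hp1 : (cov p x a g ↔ cov p x a (p x))
          · -- `g ~ p x`, `g' ~ p x + 2`
            refine Or.inr (Or.inl ⟨Or.inr ⟨hg, by omega, ?_⟩, Or.inr ⟨by omega, hg', ?_⟩⟩)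
            · exact step g (p x) g' (p x + 2) hgg s1 hp1 (by grind) (by grind) (by grind)
            · exact step (p x + 2) g' (p x) g (Setoid.symm' _ s1) (Setoid.symm' _ hgg) (by grind) (by grind)
                (by grind) (by grind)
          · refine Or.inr (Or.inr ⟨Or.inr ⟨hg, by omega, ?_⟩, Or.inr ⟨by omega, hg', ?_⟩⟩)
            · exact step g (p x + 2) g' (p x) hgg (Setoid.symm' _ s1) (by grind) (by grind) (by grind)
                (by grind)
            · exact step (p x) g' (p x + 2) g s1 (Setoid.symm' _ hgg) (by grind) (by grind)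
                (by grind) (by grind)
        · -- all four patterns of `{x, a}`, `{y, b}` occur
          exfalso
          have n1 : x ≠ b := fun e => hbx e.symm
          have n2 : a ≠ y := hay
          by_cases hp1 : (cov p x a g ↔ cov p x a (p x))
          · exact gap_four' hp h hx hx' ha ha' hy hy' hb hb' hσxa hσyb hxy' n1 n2 hab (a := p x)
              (b := g) (c := g') (d := p x + 2) hp1 (by grind) (by grind) (by grind) (by grind) (by grind)
          · exact gap_four' hp h hx hx' ha ha' hy hy' hb hb' hσxa hσyb hxy' n1 n2 hab (a := p x)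
              (b := g') (c := g) (d := p x + 2) (by grind) (by grind) (by grind) (by grind) (by grind)
              (by grind)
  · intro hgg
    have key : ∀ k k', (detach (p x + 1) (gp m N p σ)) k k' → (gp m N p σ') k k' := by
      rintro k k' (rfl | ⟨h1, h2, h3⟩)
      · exact Setoid.refl' _ _
      · exact s2 k k' h1 h2 h3
    rcases hgg with hgg | ⟨h1, h2⟩ | ⟨h1, h2⟩
    · exact key g g' hgg
    · exact Setoid.trans' _ (key _ _ h1) (Setoid.trans' _ s1 (key _ _ h2))
    · exact Setoid.trans' _ (key _ _ h1) (Setoid.trans' _ (Setoid.symm' _ s1) (key _ _ h2))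


/-- relabelling that preserves the positions -/
theorem gp_rel {m N : ℕ} {p q : ℕ → ℕ} {e : Equiv.Perm ℕ} (he : ∀ x, (m ≤ e x ∧ e x < N) ↔ (m ≤ x ∧ x < N))
    (ho : ∀ x, m ≤ x → x < N → q (e x) = p x) (σ : St) :
    gp m N q (rel e σ) = gp m N p σ := by
  apply Setoid.ext
  intro g g'
  constructor
  · intro h x y hx hx' hy hy' hxy
    have h1 := (he x).2 ⟨hx, hx'⟩
    have h2 := (he y).2 ⟨hy, hy'⟩
    have h3 := h (e x) (e y) h1.1 h1.2 h2.1 h2.2 ((rel_iff e σ x y).2 hxy)
    unfold cov at h3 ⊢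
    rw [ho x hx hx', ho y hy hy'] at h3
    exact h3
  · intro h x y hx hx' hy hy' hxy
    obtain ⟨x, rfl⟩ := e.surjective x
    obtain ⟨y, rfl⟩ := e.surjective y
    have h1 := (he x).1 ⟨hx, hx'⟩
    have h2 := (he y).1 ⟨hy, hy'⟩
    have h3 := h x y h1.1 h1.2 h2.1 h2.2 ((rel_iff e σ x y).1 hxy)
    unfold cov at h3 ⊢
    rw [ho x h1.1 h1.2, ho y h2.1 h2.2]
    exact h3

theorem jd_iff (g : ℕ) (π : St) (x y : ℕ) : jd g π x y ↔ ((x = y ∨ (x ≠ g + 1 ∧ y ≠ g + 1 ∧ π x y)) ∨
    ((x = g ∨ (x ≠ g + 1 ∧ g ≠ g + 1 ∧ π x g)) ∧ (g + 2 = y ∨ (g + 2 ≠ g + 1 ∧ y ≠ g + 1 ∧ π (g + 2) y))) ∨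
    ((x = g + 2 ∨ (x ≠ g + 1 ∧ g + 2 ≠ g + 1 ∧ π x (g + 2))) ∧
      (g = y ∨ (g ≠ g + 1 ∧ y ≠ g + 1 ∧ π g y)))) := Iff.rfl

theorem jd_self (g : ℕ) (π : St) : jd g π g (g + 2) :=
  (jd_iff g π g (g + 2)).2 (Or.inr (Or.inl ⟨Or.inl rfl, Or.inl rfl⟩))

theorem jd_of {g : ℕ} {π : St} {x y : ℕ} (hx : x ≠ g + 1) (hy : y ≠ g + 1) (h : π x y) : jd g π x y :=
  (jd_iff g π x y).2 (Or.inl (Or.inr ⟨hx, hy, h⟩))

theorem jd_mid {g : ℕ} {π : St} {y : ℕ} (h : jd g π (g + 1) y) : y = g + 1 := by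
  rw [jd_iff] at h
  rcases h with (h | h) | ⟨h | h, _⟩ | ⟨h | h, _⟩
  · exact h.symm
  · exact absurd rfl h.1
  · omega
  · exact absurd rfl h.1
  · omega
  · exact absurd rfl h.1

theorem jd_le {g : ℕ} {π S : St} (h : S g (g + 2)) (h2 : ∀ x y, x ≠ g + 1 → y ≠ g + 1 → π x y → S x y)
    (x y : ℕ) (h3 : jd g π x y) : S x y := by
  rw [jd_iff] at h3
  rcases h3 with (rfl | h3) | ⟨h4, h5⟩ | ⟨h4, h5⟩
  · exact S.refl _
  · exact h2 x y h3.1 h3.2.1 h3.2.2
  · have a : S x g := by
      rcases h4 with rfl | h4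
      · exact S.refl _
      · exact h2 x g h4.1 h4.2.1 h4.2.2
    have b : S (g + 2) y := by
      rcases h5 with rfl | h5
      · exact S.refl _
      · exact h2 _ y h5.1 h5.2.1 h5.2.2
    exact S.trans a (S.trans h b)
  · have a : S x (g + 2) := by
      rcases h4 with rfl | h4
      · exact S.refl _
      · exact h2 x _ h4.1 h4.2.1 h4.2.2
    have b : S g y := by
      rcases h5 with rfl | h5
      · exact S.refl _
      · exact h2 _ y h5.1 h5.2.1 h5.2.2
    exact S.trans a (S.trans (S.symm h) b)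

theorem jd_adj_aux (g : ℕ) (π ρ : St) {u v : ℕ} (hu : u ≠ g + 1) (hv : v ≠ g + 1)
    (h : (jd g π ⊔ ρ) u v) : (jd g π ⊔ jd g ρ) u v := by
  classical
  set S : St := jd g π ⊔ jd g ρ with hS
  let z : ℕ := if hz : ∃ z, z ≠ g + 1 ∧ ρ (g + 1) z then hz.choose else g + 1
  let f : ℕ → ℕ := fun x => if x = g + 1 then z else x
  have hf : ∀ x, x ≠ g + 1 → f x = x := fun x h1 => if_neg h1
  have hfj : f (g + 1) = z := if_pos rfl
  have hz0 : ∀ y, y ≠ g + 1 → ρ (g + 1) y → S z y := by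
    intro y hy1 hy2
    have hz : ∃ z, z ≠ g + 1 ∧ ρ (g + 1) z := ⟨y, hy1, hy2⟩
    have e : z = hz.choose := dif_pos hz
    obtain ⟨c1, c2⟩ := hz.choose_spec
    rw [← e] at c1 c2
    exact sup_right (jd_of c1 hy1 (ρ.trans (ρ.symm c2) hy2))
  have key : ∀ x y, (jd g π ⊔ ρ) x y → (Setoid.comap f S) x y := by
    refine sup_le_of ?_ ?_
    · intro x y hxy
      rw [Setoid.comap_rel]
      by_cases hx : x = g + 1
      · subst hx
        rw [jd_mid hxy]
      · by_cases hy : y = g + 1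
        · subst hy
          rw [jd_mid ((jd g π).symm hxy)]
        · rw [hf x hx, hf y hy]
          exact sup_left hxy
    · intro x y hxy
      rw [Setoid.comap_rel]
      by_cases hx : x = g + 1
      · subst hx
        by_cases hy : y = g + 1
        · subst hy
          exact S.refl _
        · rw [hfj, hf y hy]
          exact hz0 y hy hxy
      · by_cases hy : y = g + 1
        · subst hy
          rw [hfj, hf x hx]
          exact S.symm (hz0 x hx (ρ.symm hxy))
        · rw [hf x hx, hf y hy]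
          exact sup_right (jd_of hx hy hxy)
  have h1 := key u v h
  rw [Setoid.comap_rel, hf u hu, hf v hv] at h1
  exact h1

theorem jd_adj_aux' (g : ℕ) (π ρ : St) {u v : ℕ} (h : (jd g π ⊔ jd g ρ) u v) : (jd g π ⊔ ρ) u v := by
  refine sup_le_of (S := jd g π ⊔ ρ) ?_ ?_ u v h
  · intro x y hxy
    exact sup_left hxy
  · intro x y hxy
    exact jd_le (sup_left (jd_self g π)) (fun x y _ _ hxy => sup_right hxy) x y hxy

/-- gluing: the generator can be moved to the other side -/
theorem jd_adj (g : ℕ) (π ρ : St) {u v : ℕ} (hu : u ≠ g + 1) (hv : v ≠ g + 1) :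
    (jd g π ⊔ ρ) u v ↔ (π ⊔ jd g ρ) u v := by
  constructor
  · intro h
    have h1 := jd_adj_aux g π ρ hu hv h
    rw [sup_comm] at h1 ⊢
    exact jd_adj_aux' g ρ π h1
  · intro h
    rw [sup_comm] at h
    have h1 := jd_adj_aux g ρ π hu hv h
    rw [sup_comm] at h1
    exact jd_adj_aux' g π ρ h1

/-- gap partition of a state with `L` strands -/
def gL (L : ℕ) (σ : St) : St := gp 4 (2 * L + 4) (ps L) σ

open Classical in
/-- the one-arm form -/
noncomputable def h0 (L : ℕ) (σ τ : St) : ℝ := if (gL L σ ⊔ gL L τ) 0 L then 1 else 0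

theorem gap_ps_even (L i : ℕ) : ps L (2 * i + 4) = i := by
  unfold ps
  rw [if_pos (by omega)]
  omega
theorem gap_ps_odd (L i : ℕ) : ps L (2 * i + 5) = i + L := by
  unfold ps
  rw [if_neg (by omega)]
  omega

/-- the generator `E_i` on the gap partition -/
theorem gL_Es {L i : ℕ} (h : i + 1 < L) {σ : St} (hσ : σ ∈ IPC.W L) (h2 : σ ∈ IPC.NC L) :
    gL L (pr (2 * i + 4) (2 * i + 6) (pr (2 * i + 5) (2 * i + 7) σ)) = jd i (jd (i + L) (gL L σ)) := by
  have hPP : σ ∈ PP (2 * L + 4) := hσ.1.1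
  have hlow := bc_low_W hσ
  have hinj := bc_ps_inj L
  have nb1 := bc_nb_ps h 1 (by omega)
  have h1 : pr (2 * i + 5) (2 * i + 7) σ ∈ NCp 4 (2 * L + 4) (ps L) :=
    pr_NCp hinj (by omega) (by omega) (by omega) (by omega) (by omega) nb1 hPP hlow h2
  have h3 : pr (2 * i + 5) (2 * i + 7) σ ∈ PP (2 * L + 4) := pr_PP (by omega) (by omega) (by omega) hPP
  have h4 := bc_low_pr (m := 4) (x := 2 * i + 5) (y := 2 * i + 7) (by omega) (by omega) hlow
  have e1 : ps L (2 * i + 6) = ps L (2 * i + 4) + 1 := by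
    rw [show 2 * i + 6 = 2 * (i + 1) + 4 by ring, gap_ps_even, gap_ps_even]
  have e2 : ps L (2 * i + 7) = ps L (2 * i + 5) + 1 := by
    rw [show 2 * i + 7 = 2 * (i + 1) + 5 by ring, gap_ps_odd, gap_ps_odd]
    ring
  unfold gL
  rw [gp_pr hinj (by omega) (by omega) (by omega) (by omega) e1 h3 h4 h1,
    gp_pr hinj (by omega) (by omega) (by omega) (by omega) e2 hPP hlow h2, gap_ps_even, gap_ps_odd]

/-- same with the other order of the two copies -/
theorem gL_Es' {L i : ℕ} (h : i + 1 < L) {σ : St} (hσ : σ ∈ IPC.W L) (h2 : σ ∈ IPC.NC L) :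
    gL L (pr (2 * i + 4) (2 * i + 6) (pr (2 * i + 5) (2 * i + 7) σ)) = jd (i + L) (jd i (gL L σ)) := by
  have hPP : σ ∈ PP (2 * L + 4) := hσ.1.1
  have hlow := bc_low_W hσ
  have hinj := bc_ps_inj L
  have nb1 := bc_nb_ps h 0 (by omega)
  have h1 : pr (2 * i + 4) (2 * i + 6) σ ∈ NCp 4 (2 * L + 4) (ps L) :=
    pr_NCp hinj (by omega) (by omega) (by omega) (by omega) (by omega) nb1 hPP hlow h2
  have h3 : pr (2 * i + 4) (2 * i + 6) σ ∈ PP (2 * L + 4) := pr_PP (by omega) (by omega) (by omega) hPP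
  have h4 := bc_low_pr (m := 4) (x := 2 * i + 4) (y := 2 * i + 6) (by omega) (by omega) hlow
  have e1 : ps L (2 * i + 6) = ps L (2 * i + 4) + 1 := by
    rw [show 2 * i + 6 = 2 * (i + 1) + 4 by ring, gap_ps_even, gap_ps_even]
  have e2 : ps L (2 * i + 7) = ps L (2 * i + 5) + 1 := by
    rw [show 2 * i + 7 = 2 * (i + 1) + 5 by ring, gap_ps_odd, gap_ps_odd]
    ring
  unfold gL
  rw [pr_disj (by omega) (by omega) (by omega) (by omega),
    gp_pr hinj (by omega) (by omega) (by omega) (by omega) e2 h3 h4 h1,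
    gp_pr hinj (by omega) (by omega) (by omega) (by omega) e1 hPP hlow h2, gap_ps_even, gap_ps_odd]


theorem h0_comm (L : ℕ) (σ τ : St) : h0 L σ τ = h0 L τ σ := by
  unfold h0
  rw [sup_comm]

theorem h0_Es {L i : ℕ} (h : i + 1 < L) {σ τ : St} (hσ : σ ∈ IPC.W L) (h2 : σ ∈ IPC.NC L) (hτ : τ ∈ IPC.W L) (h3 : τ ∈ IPC.NC L) :
    h0 L (pr (2 * i + 4) (2 * i + 6) (pr (2 * i + 5) (2 * i + 7) σ)) τ =
      h0 L σ (pr (2 * i + 4) (2 * i + 6) (pr (2 * i + 5) (2 * i + 7) τ)) := by
  unfold h0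
  rw [gL_Es h hσ h2, gL_Es' h hτ h3]
  have e : (jd i (jd (i + L) (gL L σ)) ⊔ gL L τ) 0 L ↔ (gL L σ ⊔ jd (i + L) (jd i (gL L τ))) 0 L :=
    (jd_adj i _ _ (by omega) (by omega)).trans (jd_adj (i + L) _ _ (by omega) (by omega))
  by_cases hh : (jd i (jd (i + L) (gL L σ)) ⊔ gL L τ) 0 L
  · rw [if_pos hh, if_pos (e.1 hh)]
  · rw [if_neg hh, if_neg (fun h' => hh (e.2 h'))]


/-- gap map of the insertion -/
def gpsi (L g : ℕ) : ℕ := if g = 0 then 0 else if g ≤ L + 2 then g - 2 else g - 4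
def gth (L g : ℕ) : ℕ := if g = 0 then 0 else if g ≤ L then g + 2 else g + 4

/-- the gap partition of the insertion -/
theorem gL_ins (L : ℕ) (σ : St) (g g' : ℕ) : gL (L + 2) (IPC.ins 0 σ) g g' ↔
    (g = g' ∨ ((g ≠ 1 ∧ g ≠ L + 3) ∧ (g' ≠ 1 ∧ g' ≠ L + 3) ∧ gL L σ (gpsi L g) (gpsi L g'))) := by
  have c1 : ∀ g, cov (ps (L + 2)) 4 6 g ↔ g = 1 := by
    intro g
    unfold cov ps
    norm_num
    omega
  have c2 : ∀ g, cov (ps (L + 2)) 5 7 g ↔ g = L + 3 := by
    intro g
    unfold cov ps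
    norm_num
    omega
  have pos : ∀ x g, 4 ≤ x → x < 2 * L + 4 → g ≠ 1 → g ≠ L + 3 → (g ≤ ps (L + 2) (x + 4) ↔ gpsi L g ≤ ps L x) := by
    intro x g hx hx' h1 h2
    unfold ps gpsi
    split_ifs <;> omega
  have s1 : ∀ x y, (IPC.ins 0 σ) x y ↔ (x = y ∨ (x + y = 4 * 0 + 10 ∧ 2 * 0 + 4 ≤ x ∧ 2 * 0 + 4 ≤ y ∧ x ≠ 2 * 0 + 5 ∧ y ≠ 2 * 0 + 5) ∨
    (x + y = 4 * 0 + 12 ∧ 2 * 0 + 5 ≤ x ∧ 2 * 0 + 5 ≤ y ∧ x ≠ 2 * 0 + 6 ∧ y ≠ 2 * 0 + 6) ∨
    ((x < 2 * 0 + 4 ∨ 2 * 0 + 8 ≤ x) ∧ (y < 2 * 0 + 4 ∨ 2 * 0 + 8 ≤ y) ∧ σ (un 0 x) (un 0 y))) := fun _ _ => Iff.rfl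
  constructor
  · intro h
    by_cases hg : g = g'
    · exact Or.inl hg
    · right
      have a1 := h 4 6 (by omega) (by omega) (by omega) (by omega) ((s1 4 6).2 (by omega))
      have a2 := h 5 7 (by omega) (by omega) (by omega) (by omega) ((s1 5 7).2 (by omega))
      rw [c1, c1] at a1
      rw [c2, c2] at a2
      have b1 : g ≠ 1 := by omega
      have b2 : g ≠ L + 3 := by omega
      have b3 : g' ≠ 1 := by omega
      have b4 : g' ≠ L + 3 := by omega
      refine ⟨⟨b1, b2⟩, ⟨b3, b4⟩, ?_⟩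
      intro x y hx hx' hy hy' hxy
      have h1 := h (x + 4) (y + 4) (by omega) (by omega) (by omega) (by omega)
        ((s1 _ _).2 (Or.inr (Or.inr (Or.inr ⟨by omega, by omega, by
          have e1 : un 0 (x + 4) = x := by unfold un; split_ifs <;> omega
          have e2 : un 0 (y + 4) = y := by unfold un; split_ifs <;> omega
          rw [e1, e2]; exact hxy⟩))))
      unfold cov at h1 ⊢
      rw [pos x g hx hx' b1 b2, pos y g hy hy' b1 b2, pos x g' hx hx' b3 b4, pos y g' hy hy' b3 b4] at h1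
      exact h1
  · rintro (rfl | ⟨⟨b1, b2⟩, ⟨b3, b4⟩, h⟩)
    · exact (gL (L + 2) (IPC.ins 0 σ)).refl _
    · intro x y hx hx' hy hy' hxy
      rw [s1] at hxy
      rcases hxy with rfl | hxy | hxy | ⟨h1, h2, h3⟩
      · unfold cov
        simp
      · have e : (x = 4 ∧ y = 6) ∨ (x = 6 ∧ y = 4) := by omega
        rcases e with ⟨rfl, rfl⟩ | ⟨rfl, rfl⟩
        · rw [c1, c1]; omega
        · have f1 : ∀ g, cov (ps (L + 2)) 6 4 g ↔ g = 1 := by
            intro g
            rw [← c1 g]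
            unfold cov
            tauto
          rw [f1, f1]; omega
      · have e : (x = 5 ∧ y = 7) ∨ (x = 7 ∧ y = 5) := by omega
        rcases e with ⟨rfl, rfl⟩ | ⟨rfl, rfl⟩
        · rw [c2, c2]; omega
        · have f1 : ∀ g, cov (ps (L + 2)) 7 5 g ↔ g = L + 3 := by
            intro g
            rw [← c2 g]
            unfold cov
            tauto
          rw [f1, f1]; omega
      · have hx1 : 8 ≤ x := by omega
        have hy1 : 8 ≤ y := by omega
        have e1 : un 0 x = x - 4 := by unfold un; split_ifs <;> omega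
        have e2 : un 0 y = y - 4 := by unfold un; split_ifs <;> omega
        rw [e1, e2] at h3
        have h4 := h (x - 4) (y - 4) (by omega) (by omega) (by omega) (by omega) h3
        obtain ⟨x, rfl⟩ : ∃ x', x = x' + 4 := ⟨x - 4, by omega⟩
        obtain ⟨y, rfl⟩ : ∃ y', y = y' + 4 := ⟨y - 4, by omega⟩
        rw [Nat.add_sub_cancel, Nat.add_sub_cancel] at h4
        unfold cov at h4 ⊢
        rw [pos x g (by omega) (by omega) b1 b2, pos y g (by omega) (by omega) b1 b2,
          pos x g' (by omega) (by omega) b3 b4, pos y g' (by omega) (by omega) b3 b4]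
        exact h4

theorem gth_ne (L g : ℕ) : gth L g ≠ 1 ∧ gth L g ≠ L + 3 := by
  unfold gth
  split_ifs <;> omega
theorem gpsi_gth (L g : ℕ) : gpsi L (gth L g) = g := by
  unfold gth
  by_cases h1 : g = 0
  · subst h1; rfl
  · rw [if_neg h1]
    by_cases h2 : g ≤ L
    · rw [if_pos h2, gpsi, if_neg (by omega), if_pos (by omega)]; omega
    · rw [if_neg h2, gpsi, if_neg (by omega), if_neg (by omega)]; omega

theorem gL_ins_sup (L : ℕ) (σ τ : St) {g g' : ℕ} (hg : g ≠ 1 ∧ g ≠ L + 3) (hg' : g' ≠ 1 ∧ g' ≠ L + 3) :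
    (gL (L + 2) (IPC.ins 0 σ) ⊔ gL (L + 2) (IPC.ins 0 τ)) g g' ↔ (gL L σ ⊔ gL L τ) (gpsi L g) (gpsi L g') := by
  constructor
  · intro h
    refine sup_le_of (S := Setoid.comap (gpsi L) (gL L σ ⊔ gL L τ)) ?_ ?_ g g' h
    · intro x y hxy
      rw [gL_ins] at hxy
      rw [Setoid.comap_rel]
      rcases hxy with rfl | ⟨_, _, hxy⟩
      · exact (gL L σ ⊔ gL L τ).refl _
      · exact sup_left hxy
    · intro x y hxy
      rw [gL_ins] at hxy
      rw [Setoid.comap_rel]
      rcases hxy with rfl | ⟨_, _, hxy⟩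
      · exact (gL L σ ⊔ gL L τ).refl _
      · exact sup_right hxy
  · intro h
    set S := gL (L + 2) (IPC.ins 0 σ) ⊔ gL (L + 2) (IPC.ins 0 τ) with hS
    have h1 : S (gth L (gpsi L g)) (gth L (gpsi L g')) := by
      refine sup_le_of (S := Setoid.comap (gth L) S) ?_ ?_ _ _ h
      · intro x y hxy
        rw [Setoid.comap_rel]
        refine sup_left ((gL_ins L σ _ _).2 (Or.inr ⟨gth_ne L x, gth_ne L y, ?_⟩))
        rw [gpsi_gth, gpsi_gth]
        exact hxy
      · intro x y hxy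
        rw [Setoid.comap_rel]
        refine sup_right ((gL_ins L τ _ _).2 (Or.inr ⟨gth_ne L x, gth_ne L y, ?_⟩))
        rw [gpsi_gth, gpsi_gth]
        exact hxy
    have h2 : ∀ g, (g ≠ 1 ∧ g ≠ L + 3) → S g (gth L (gpsi L g)) := by
      intro g hg
      refine sup_left ((gL_ins L σ _ _).2 (Or.inr ⟨hg, gth_ne L _, ?_⟩))
      rw [gpsi_gth]
    exact S.trans (h2 g hg) (S.trans h1 (S.symm (h2 g' hg')))

/-- insertion of an arc next to the marked gap -/
theorem h0_ins (L : ℕ) {σ τ : St} (_hσ : σ ∈ IPC.W L) (_hτ : τ ∈ IPC.W L) :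
    h0 (L + 2) (IPC.ins 0 σ) (IPC.ins 0 τ) = h0 L σ τ := by
  unfold h0
  have a1 : (0 : ℕ) ≠ 1 ∧ (0 : ℕ) ≠ L + 3 := ⟨by omega, by omega⟩
  have a2 : L + 2 ≠ 1 ∧ L + 2 ≠ L + 3 := ⟨by omega, by omega⟩
  have h := gL_ins_sup L σ τ a1 a2
  have e1 : gpsi L 0 = 0 := rfl
  have e2 : gpsi L (L + 2) = L := by
    rw [gpsi, if_neg (by omega), if_pos (by omega)]
    omega
  rw [e1, e2] at h
  by_cases hh : (gL L σ ⊔ gL L τ) 0 L
  · rw [if_pos (h.2 hh), if_pos hh]
  · rw [if_neg (fun h3 => hh (h.1 h3)), if_neg hh]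

/-- after a rotation the gap `L + 2` is a singleton -/
theorem gL_wrap (L : ℕ) (σ : St) {g g' : ℕ}
    (h : gL (L + 2) (rel (rtn (L + 2)).symm (IPC.ins 0 σ)) g g') : g = L + 2 ↔ g' = L + 2 := by
  have hr : (rel (rtn (L + 2)).symm (IPC.ins 0 σ)) 5 (2 * L + 6) := by
    rw [rel_iff']
    have e1 : (rtn (L + 2)).symm.symm 5 = 7 := by
      rw [Equiv.symm_symm, bc_rtn_apply, if_neg (by omega), if_pos (by omega)]
    have e2 : (rtn (L + 2)).symm.symm (2 * L + 6) = 5 := by
      rw [Equiv.symm_symm, bc_rtn_apply, if_neg (by omega), if_neg (by omega)]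
      omega
    rw [e1, e2]
    exact Or.inr (Or.inr (Or.inl (by omega)))
  have h1 := h 5 (2 * L + 6) (by omega) (by omega) (by omega) (by omega) hr
  have c : ∀ g, cov (ps (L + 2)) 5 (2 * L + 6) g ↔ g = L + 2 := by
    intro g
    have p1 : ps (L + 2) 5 = L + 2 := by
      unfold ps
      rw [if_neg (by omega)]
      omega
    have p2 : ps (L + 2) (2 * L + 6) = L + 1 := by
      unfold ps
      rw [if_pos (by omega)]
      omega
    unfold cov
    rw [p1, p2]
    omega
  rw [c, c] at h1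
  exact h1

/-- arcs across the marked gap on both sides: the marked gap is surrounded by a loop -/
theorem h0_wrap (L : ℕ) {σ τ : St} (_hσ : σ ∈ IPC.W L) (_hτ : τ ∈ IPC.W L) :
    h0 (L + 2) (rel (rtn (L + 2)).symm (IPC.ins 0 σ)) (rel (rtn (L + 2)).symm (IPC.ins 0 τ)) = 0 := by
  unfold h0
  rw [if_neg]
  intro h
  have h1 : ∀ x y, (gL (L + 2) (rel (rtn (L + 2)).symm (IPC.ins 0 σ)) ⊔
      gL (L + 2) (rel (rtn (L + 2)).symm (IPC.ins 0 τ))) x y →
      (Setoid.comap (fun g => (g = L + 2 : Prop)) ⊥) x y := by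
    refine sup_le_of ?_ ?_
    · intro x y hxy
      show (x = L + 2) = (y = L + 2)
      exact propext (gL_wrap L σ hxy)
    · intro x y hxy
      show (x = L + 2) = (y = L + 2)
      exact propext (gL_wrap L τ hxy)
  have h2 : ((0 : ℕ) = L + 2) = (L + 2 = L + 2) := h1 0 (L + 2) h
  have h3 : (0 : ℕ) = L + 2 := by rw [h2]
  omega

/-! ### bilinear forms -/

theorem bil_add_left (f : St → St → ℝ) (v v' w : M) : bil f (v + v') w = bil f v w + bil f v' w :=
  IPC.bil_add_left f v v' w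
theorem bil_add_right (f : St → St → ℝ) (v w w' : M) : bil f v (w + w') = bil f v w + bil f v w' :=
  IPC.bil_add_right f v w w'
theorem bil_smul_left (f : St → St → ℝ) (c : ℝ) (v w : M) : bil f (c • v) w = c * bil f v w :=
  IPC.bil_smul_left f c v w
theorem bil_smul_right (f : St → St → ℝ) (c : ℝ) (v w : M) : bil f v (c • w) = c * bil f v w :=
  IPC.bil_smul_right f c v w
/-- finite expansion over the states of `W L` -/
theorem bil_eq_sum (f : St → St → ℝ) (L : ℕ) {v w : M} (hv : v ∈ Sup (IPC.W L)) (hw : w ∈ Sup (IPC.W L)) :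
    bil f v w = ∑ σ ∈ (IPC.W_finite L).toFinset, ∑ τ ∈ (IPC.W_finite L).toFinset, v σ * w τ * f σ τ := by
  have e : (IPC.W L : Set St) = ((IPC.W_finite L).toFinset : Set St) := by rw [Set.Finite.coe_toFinset]
  rw [e] at hv hw
  exact IPC.bil_eq_sum f hv hw
/-- the constant form -/
theorem bil_one (v w : M) : bil (fun _ _ => 1) v w = tot v * tot w := by
  induction v using Finsupp.induction_linear with
  | zero => rw [bil_zero_left, map_zero, zero_mul]
  | add v v' h h' => rw [bil_add_left, map_add, h, h', add_mul]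
  | single σ x =>
    induction w using Finsupp.induction_linear with
    | zero => rw [bil_zero_right, map_zero, mul_zero]
    | add v v' h h' => rw [bil_add_right, map_add, h, h', mul_add]
    | single τ y =>
      rw [bil_single]
      have e : ∀ (ρ : St) (z : ℝ), tot (Finsupp.single ρ z) = z := by
        intro ρ z
        simp [tot]
      rw [e, e, mul_one]
theorem bil_h0_comm (L : ℕ) (v w : M) : bil (h0 L) v w = bil (h0 L) w v := by
  rw [IPC.bil_flip]
  congr 1
  funext σ τ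
  exact h0_comm L τ σ

/-- images under maps of the states -/
theorem bil_map2 (f : St → St → ℝ) (g g' : St → St) (v w : M) :
    bil f (Finsupp.lmapDomain ℝ ℝ g v) (Finsupp.lmapDomain ℝ ℝ g' w) = bil (fun σ τ => f (g σ) (g' τ)) v w :=
  IPC.bil_map (S := Set.univ) (S' := Set.univ) (by simp [Sup, Finsupp.supported_univ])
    (by simp [Sup, Finsupp.supported_univ]) (fun _ _ _ _ => rfl)

theorem Es_eq (i : ℕ) (v : M) : Es i v = Finsupp.lmapDomain ℝ ℝ
    (fun σ => pr (2 * i + 4) (2 * i + 6) (pr (2 * i + 5) (2 * i + 7) σ)) v := by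
  unfold Es G Pr
  rw [LinearMap.comp_apply, Finsupp.lmapDomain_apply, Finsupp.lmapDomain_apply, Finsupp.lmapDomain_apply,
    ← Finsupp.mapDomain_comp]
  rfl

theorem bil_h0_Es {L i : ℕ} (h : i + 1 < L) {v w : M} (hv : v ∈ Sup (IPC.W L ∩ IPC.NC L)) (hw : w ∈ Sup (IPC.W L ∩ IPC.NC L)) :
    bil (h0 L) (Es i v) w = bil (h0 L) v (Es i w) := by
  have e1 : ∀ u : M, u = Finsupp.lmapDomain ℝ ℝ (fun σ => σ) u := by
    intro u
    rw [Finsupp.lmapDomain_apply]
    exact Finsupp.mapDomain_id.symm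
  have h1 : bil (h0 L) (Es i v) w = bil (h0 L) (Es i v) (Finsupp.lmapDomain ℝ ℝ (fun σ => σ) w) := by
    rw [← e1]
  have h2 : bil (h0 L) v (Es i w) = bil (h0 L) (Finsupp.lmapDomain ℝ ℝ (fun σ => σ) v) (Es i w) := by
    rw [← e1]
  rw [h1, h2, Es_eq, Es_eq, bil_map2, bil_map2]
  exact bil_congr hv hw fun σ hσ τ hτ => h0_Es h hσ.1 hσ.2 hτ.1 hτ.2

theorem bil_h0_In (L : ℕ) {v w : M} (hv : v ∈ Sup (IPC.W L)) (hw : w ∈ Sup (IPC.W L)) :
    bil (h0 (L + 2)) (IPC.In 0 v) (IPC.In 0 w) = bil (h0 L) v w :=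
  IPC.bil_map hv hw fun _ hσ _ hτ => h0_ins L hσ hτ

theorem bil_zero_form (v w : M) : bil (fun _ _ => 0) v w = 0 := by
  unfold bil
  simp

theorem bil_h0_wrap (L : ℕ) {v w : M} (hv : v ∈ Sup (IPC.W L)) (hw : w ∈ Sup (IPC.W L)) :
    bil (h0 (L + 2)) (IPC.Rel (rtn (L + 2)).symm (IPC.In 0 v)) (IPC.Rel (rtn (L + 2)).symm (IPC.In 0 w)) = 0 := by
  have e : ∀ u : M, IPC.Rel (rtn (L + 2)).symm (IPC.In 0 u) =
      Finsupp.lmapDomain ℝ ℝ (fun σ => rel (rtn (L + 2)).symm (IPC.ins 0 σ)) u := by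
    intro u
    unfold IPC.Rel IPC.In
    rw [Finsupp.lmapDomain_apply, Finsupp.lmapDomain_apply, Finsupp.lmapDomain_apply,
      ← Finsupp.mapDomain_comp]
    rfl
  rw [e, e, bil_map2]
  rw [bil_congr hv hw (f' := fun _ _ => 0) fun σ hσ τ hτ => h0_wrap L hσ hτ]
  exact bil_zero_form v w

end OneArm
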