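import Pool.Agent.Helper18.OneArm.Tc

/-! MODULE Tc2: division by sines, factorisation with double zeros at `c i` and simple zeros at `c i ± π/3`. -/

namespace OneArm
open IP IPC Finset Real Filter Topology

theorem exp_sub_exp (x y : ℝ) : Complex.exp (2 * x * Complex.I) - Complex.exp (2 * y * Complex.I) =
    2 * Complex.I * Complex.exp (x * Complex.I) * Complex.exp (y * Complex.I) *
      ((Real.sin (x - y) : ℝ) : ℂ) := by
  have h1 := tc_sin_form 0 y x
  rw [zero_add] at h1
  rw [h1]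
  have hI : (2 * Complex.I) ≠ 0 := by simp
  have e1 : Complex.exp (2 * x * Complex.I) = Complex.exp (x * Complex.I) * Complex.exp (x * Complex.I) := by
    rw [← Complex.exp_add]; congr 1; ring
  have e2 : Complex.exp (2 * y * Complex.I) = Complex.exp (y * Complex.I) * Complex.exp (y * Complex.I) := by
    rw [← Complex.exp_add]; congr 1; ring
  have e3 : Complex.exp (-(x * Complex.I)) = (Complex.exp (x * Complex.I))⁻¹ := Complex.exp_neg _
  have e4 : Complex.exp (-(y * Complex.I)) = (Complex.exp (y * Complex.I))⁻¹ := Complex.exp_neg _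
  rw [e1, e2, e3, e4]
  have hx := Complex.exp_ne_zero (x * Complex.I)
  have hy := Complex.exp_ne_zero (y * Complex.I)
  simp only [Complex.ofReal_zero, zero_mul, neg_zero, Complex.exp_zero, one_mul]
  field_simp
  ring

/-- division by `sin (x - y)` -/
theorem TPC_div {m : ℕ} {F : ℝ → ℂ} (hF : TPC (m + 1) F) (y : ℝ) (hy : F y = 0) :
    ∃ G : ℝ → ℂ, TPC m G ∧ ∀ x, F x = ((Real.sin (x - y) : ℝ) : ℂ) * G x := by
  obtain ⟨P, hP, h1⟩ := hF
  set z := Complex.exp (2 * y * Complex.I) with hz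
  have hroot : P.eval z = 0 := by
    have h2 := h1 y
    rw [hy] at h2
    rcases mul_eq_zero.1 h2.symm with h3 | h3
    · exact absurd h3 (Complex.exp_ne_zero _)
    · exact h3
  obtain ⟨Q, hQ⟩ := Polynomial.dvd_iff_isRoot.2 hroot
  have hQd : Q.natDegree ≤ m := by
    by_cases hQ0 : Q = 0
    · rw [hQ0]; simp
    · have h3 : P.natDegree = 1 + Q.natDegree := by
        rw [hQ, Polynomial.natDegree_mul (Polynomial.X_sub_C_ne_zero z) hQ0, Polynomial.natDegree_X_sub_C]
      omega
  refine ⟨fun x => 2 * Complex.I * Complex.exp (y * Complex.I) *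
    (Complex.exp (-(m * x * Complex.I)) * Q.eval (Complex.exp (2 * x * Complex.I))), ?_, fun x => ?_⟩
  · refine ⟨Polynomial.C (2 * Complex.I * Complex.exp (y * Complex.I)) * Q, ?_, fun x => ?_⟩
    · exact (Polynomial.natDegree_C_mul_le _ _).trans hQd
    · rw [Polynomial.eval_mul, Polynomial.eval_C]
      ring
  · rw [h1 x, hQ, Polynomial.eval_mul, Polynomial.eval_sub, Polynomial.eval_X, Polynomial.eval_C, hz,
      exp_sub_exp]
    have e : Complex.exp (-(((m + 1 : ℕ) : ℂ) * x * Complex.I)) * Complex.exp (x * Complex.I) =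
        Complex.exp (-(m * x * Complex.I)) := by
      rw [← Complex.exp_add]
      congr 1
      push_cast
      ring
    beta_reduce
    rw [← e]
    ring

theorem sin_ne_punctured (y c : ℝ) : ∀ᶠ x : ℝ in 𝓝[≠] y, Real.sin (x - c) ≠ 0 := by
  by_cases h : Real.sin (y - c) = 0
  · have hd : HasDerivAt (fun x : ℝ => Real.sin (x - c)) (Real.cos (y - c)) y := by
      have := (Real.hasDerivAt_sin (y - c)).comp y ((hasDerivAt_id y).sub_const c)
      simpa [Function.comp_def] using this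
    have hc : Real.cos (y - c) ≠ 0 := by
      intro hc
      have := Real.sin_sq_add_cos_sq (y - c)
      rw [h, hc] at this
      norm_num at this
    have := hd.eventually_ne hc (c := 0)
    simpa using this
  · have hcont : Continuous (fun x : ℝ => Real.sin (x - c)) := by fun_prop
    exact (hcont.continuousAt.eventually_ne h).filter_mono nhdsWithin_le_nhds

/-- division by `sin (x - y) ^ 2` -/
theorem TPC_div2 {m : ℕ} {F : ℝ → ℂ} (hF : TPC (m + 2) F) (y : ℝ) (hy : F y = 0)
    (hy2 : Tendsto (fun x : ℝ => F x / ((Real.sin (x - y) : ℝ) : ℂ)) (𝓝[≠] y) (𝓝 0)) :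
    ∃ G : ℝ → ℂ, TPC m G ∧ ∀ x, F x = ((Real.sin (x - y) : ℝ) : ℂ) ^ 2 * G x := by
  obtain ⟨G, hG, h1⟩ := TPC_div (m := m + 1) hF y hy
  have hG0 : G y = 0 := by
    have hc := (tc_TPC_continuous hG).tendsto y
    have hc' : Tendsto G (𝓝[≠] y) (𝓝 (G y)) := hc.mono_left nhdsWithin_le_nhds
    refine tendsto_nhds_unique hc' (hy2.congr' ?_)
    filter_upwards [sin_ne_punctured y y] with x hx
    have hx' : ((Real.sin (x - y) : ℝ) : ℂ) ≠ 0 := by exact_mod_cast hx
    rw [h1 x, mul_div_cancel_left₀ _ hx']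
  obtain ⟨H, hH, h2⟩ := TPC_div hG y hG0
  refine ⟨H, hH, fun x => ?_⟩
  rw [h1 x, h2 x]
  ring

theorem TPC_fac1 {ι : Type*} [DecidableEq ι] (t : Finset ι) (c : ι → ℝ) {m : ℕ} {F : ℝ → ℂ}
    (hc : ∀ i ∈ t, ∀ j ∈ t, i ≠ j → Real.sin (c i - c j) ≠ 0)
    (hF : TPC (m + t.card) F) (h0 : ∀ i ∈ t, F (c i) = 0) :
    ∃ G : ℝ → ℂ, TPC m G ∧ ∀ x, F x = ((∏ i ∈ t, Real.sin (x - c i) : ℝ) : ℂ) * G x := by
  induction t using Finset.induction_on generalizing F with
  | empty => exact ⟨F, by simpa using hF, fun x => by simp⟩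
  | insert a t ha ih =>
    rw [card_insert_of_notMem ha, ← add_assoc] at hF
    obtain ⟨G, hG, h1⟩ := TPC_div hF (c a) (h0 a (mem_insert_self _ _))
    obtain ⟨H, hH, h2⟩ := ih (F := G)
      (fun i hi j hj hij => hc i (mem_insert_of_mem hi) j (mem_insert_of_mem hj) hij) hG
      (fun i hi => by
        have h3 := h1 (c i)
        rw [h0 i (mem_insert_of_mem hi)] at h3
        rcases mul_eq_zero.1 h3.symm with h4 | h4
        · exfalso
          refine hc i (mem_insert_of_mem hi) a (mem_insert_self _ _) (fun h => ha (h ▸ hi)) ?_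
          exact_mod_cast h4
        · exact h4)
    refine ⟨H, hH, fun x => ?_⟩
    rw [h1 x, h2 x, prod_insert ha]
    push_cast
    ring

theorem TPC_fac2 {ι : Type*} [DecidableEq ι] (t : Finset ι) (c : ι → ℝ) {m : ℕ} {F : ℝ → ℂ}
    (hc : ∀ i ∈ t, ∀ j ∈ t, i ≠ j → Real.sin (c i - c j) ≠ 0)
    (hF : TPC (m + 2 * t.card) F) (h0 : ∀ i ∈ t, F (c i) = 0)
    (h2 : ∀ i ∈ t, Tendsto (fun x : ℝ => F x / ((Real.sin (x - c i) : ℝ) : ℂ)) (𝓝[≠] (c i)) (𝓝 0)) :
    ∃ G : ℝ → ℂ, TPC m G ∧ ∀ x, F x = ((∏ i ∈ t, Real.sin (x - c i) ^ 2 : ℝ) : ℂ) * G x := by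
  induction t using Finset.induction_on generalizing F with
  | empty => exact ⟨F, by simpa using hF, fun x => by simp⟩
  | insert a t ha ih =>
    rw [card_insert_of_notMem ha, show m + 2 * (t.card + 1) = m + 2 * t.card + 2 by ring] at hF
    obtain ⟨G, hG, h1⟩ := TPC_div2 hF (c a) (h0 a (mem_insert_self _ _)) (h2 a (mem_insert_self _ _))
    have hs : ∀ i ∈ t, ((Real.sin (c i - c a) : ℝ) : ℂ) ≠ 0 := by
      intro i hi
      have := hc i (mem_insert_of_mem hi) a (mem_insert_self _ _) (fun h => ha (h ▸ hi))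
      exact_mod_cast this
    obtain ⟨H, hH, h3⟩ := ih (F := G)
      (fun i hi j hj hij => hc i (mem_insert_of_mem hi) j (mem_insert_of_mem hj) hij) hG
      (fun i hi => by
        have h3 := h1 (c i)
        rw [h0 i (mem_insert_of_mem hi)] at h3
        rcases mul_eq_zero.1 h3.symm with h4 | h4
        · exact absurd h4 (pow_ne_zero 2 (hs i hi))
        · exact h4)
      (fun i hi => by
        have h4 := h2 i (mem_insert_of_mem hi)
        have h5 : Tendsto (fun x : ℝ => (((Real.sin (x - c a) : ℝ) : ℂ) ^ 2)⁻¹) (𝓝[≠] (c i))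
            (𝓝 ((((Real.sin (c i - c a) : ℝ) : ℂ) ^ 2)⁻¹)) := by
          have hcont : Continuous (fun x : ℝ => ((Real.sin (x - c a) : ℝ) : ℂ) ^ 2) := by fun_prop
          exact ((hcont.tendsto (c i)).inv₀ (pow_ne_zero 2 (hs i hi))).mono_left nhdsWithin_le_nhds
        have h6 := h4.mul h5
        rw [zero_mul] at h6
        refine h6.congr' ?_
        have hcont : Continuous (fun x : ℝ => Real.sin (x - c a)) := by fun_prop
        have hne : Real.sin (c i - c a) ≠ 0 := by exact_mod_cast hs i hi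
        filter_upwards [(hcont.continuousAt.eventually_ne hne).filter_mono nhdsWithin_le_nhds] with x hx
        have hx' : ((Real.sin (x - c a) : ℝ) : ℂ) ^ 2 ≠ 0 := pow_ne_zero 2 (by exact_mod_cast hx)
        rw [h1 x, mul_div_assoc, mul_comm, ← mul_assoc, inv_mul_cancel₀ hx', one_mul])
    refine ⟨H, hH, fun x => ?_⟩
    rw [h1 x, h3 x, prod_insert ha]
    push_cast
    ring

theorem TPC_zero_const {F : ℝ → ℂ} (hF : TPC 0 F) (x y : ℝ) : F x = F y := by
  obtain ⟨P, hP, h⟩ := hF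
  rw [Polynomial.eq_C_of_natDegree_le_zero hP] at h
  rw [h x, h y]
  simp

/-! ### the factor `qq` -/

/-- `sin u ^ 2 * s u * s (-u)` -/
noncomputable def qq (u : ℝ) : ℝ := Real.sin u ^ 2 * (s u * s (-u))

theorem qq_neg (u : ℝ) : qq (-u) = qq u := by
  unfold qq
  rw [Real.sin_neg, neg_neg]
  ring

/-- generic parameters -/
def Good (M : ℕ) (c : ℕ → ℝ) : Prop := ∀ i < M, ∀ j < M, i ≠ j →
  Real.sin (c i - c j) ≠ 0 ∧ Real.sin (c i - c j + π / 3) ≠ 0 ∧ Real.sin (c i - c j - π / 3) ≠ 0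

theorem sin_pi_third_ne : Real.sin (π / 3) ≠ 0 := by
  rw [Real.sin_pi_div_three]
  positivity

theorem sin_add_two (u : ℝ) : Real.sin (u + π / 3 + π / 3) = -Real.sin (u - π / 3) := by
  rw [show u + π / 3 + π / 3 = (u - π / 3) + π by ring, Real.sin_add_pi]

theorem sin_sub_two (u : ℝ) : Real.sin (u - π / 3 - π / 3) = -Real.sin (u + π / 3) := by
  rw [show u - π / 3 - π / 3 = (u + π / 3) - π by ring, Real.sin_sub_pi]

/-- double zeros at `c i`, simple zeros at `c i ± π/3` -/
theorem fac_A {M : ℕ} {c : ℕ → ℝ} {F : ℝ → ℂ} (hc : Good M c) (hF : TPC (4 * M) F)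
    (h1 : ∀ i < M, F (c i) = 0)
    (h2 : ∀ i < M, Tendsto (fun x : ℝ => F x / ((Real.sin (x - c i) : ℝ) : ℂ)) (𝓝[≠] (c i)) (𝓝 0))
    (h3 : ∀ i < M, F (c i + π / 3) = 0) (h4 : ∀ i < M, F (c i - π / 3) = 0) :
    ∃ C : ℂ, ∀ x, F x = C * ((∏ i ∈ range M, qq (x - c i) : ℝ) : ℂ) := by
  classical
  obtain ⟨G, hG, hFG⟩ := TPC_fac2 (range M) c (m := 2 * M) (F := F)
    (fun i hi j hj hij => (hc i (mem_range.1 hi) j (mem_range.1 hj) hij).1)
    (by rw [card_range]; rwa [show 2 * M + 2 * M = 4 * M by ring])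
    (fun i hi => h1 i (mem_range.1 hi)) (fun i hi => h2 i (mem_range.1 hi))
  have hzero : ∀ y : ℝ, F y = 0 → (∀ i < M, Real.sin (y - c i) ≠ 0) → G y = 0 := by
    intro y hy hne
    have h5 := hFG y
    rw [hy] at h5
    rcases mul_eq_zero.1 h5.symm with h6 | h6
    · exfalso
      have h7 : ∏ i ∈ range M, Real.sin (y - c i) ^ 2 = 0 := by exact_mod_cast h6
      rw [prod_eq_zero_iff] at h7
      obtain ⟨i, hi, h8⟩ := h7
      exact hne i (mem_range.1 hi) (pow_eq_zero_iff (two_ne_zero) |>.1 h8)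
    · exact h6
  have hGp : ∀ i < M, G (c i + π / 3) = 0 := by
    intro i hi
    refine hzero _ (h3 i hi) fun j hj => ?_
    by_cases hij : i = j
    · subst hij
      rw [add_sub_cancel_left]
      exact sin_pi_third_ne
    · rw [show c i + π / 3 - c j = c i - c j + π / 3 by ring]
      exact (hc i hi j hj hij).2.1
  have hGm : ∀ i < M, G (c i - π / 3) = 0 := by
    intro i hi
    refine hzero _ (h4 i hi) fun j hj => ?_
    by_cases hij : i = j
    · subst hij
      rw [show c i - π / 3 - c i = -(π / 3) by ring, Real.sin_neg, neg_ne_zero]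
      exact sin_pi_third_ne
    · rw [show c i - π / 3 - c j = c i - c j - π / 3 by ring]
      exact (hc i hi j hj hij).2.2
  set e : ℕ × Bool → ℝ := fun q => if q.2 then c q.1 + π / 3 else c q.1 - π / 3 with he
  obtain ⟨H, hH, hGH⟩ := TPC_fac1 (range M ×ˢ (univ : Finset Bool)) e (m := 0) (F := G)
    (by
      rintro ⟨i, a⟩ hi ⟨j, b⟩ hj hij
      simp only [mem_product, mem_range, mem_univ, and_true] at hi hj
      by_cases hij' : i = j
      · subst hij'
        rcases a with _ | _ <;> rcases b with _ | _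
        · exact absurd rfl hij
        · simp only [he, Bool.false_eq_true, if_false, if_true]
          rw [show c i - π / 3 - (c i + π / 3) = 0 - π / 3 - π / 3 by ring, sin_sub_two, zero_add,
            neg_ne_zero]
          exact sin_pi_third_ne
        · simp only [he, Bool.false_eq_true, if_false, if_true]
          rw [show c i + π / 3 - (c i - π / 3) = 0 + π / 3 + π / 3 by ring, sin_add_two, zero_sub,
            Real.sin_neg, neg_neg]
          exact sin_pi_third_ne
        · exact absurd rfl hij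
      · obtain ⟨g1, g2, g3⟩ := hc i hi j hj hij'
        rcases a with _ | _ <;> rcases b with _ | _
        · simp only [he, Bool.false_eq_true, if_false]
          rw [show c i - π / 3 - (c j - π / 3) = c i - c j by ring]
          exact g1
        · simp only [he, Bool.false_eq_true, if_false, if_true]
          rw [show c i - π / 3 - (c j + π / 3) = c i - c j - π / 3 - π / 3 by ring, sin_sub_two, neg_ne_zero]
          exact g2
        · simp only [he, Bool.false_eq_true, if_false, if_true]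
          rw [show c i + π / 3 - (c j - π / 3) = c i - c j + π / 3 + π / 3 by ring, sin_add_two, neg_ne_zero]
          exact g3
        · simp only [he, if_true]
          rw [show c i + π / 3 - (c j + π / 3) = c i - c j by ring]
          exact g1)
    (by
      rw [card_product, card_range]
      simpa [mul_comm] using hG)
    (by
      rintro ⟨i, a⟩ hi
      simp only [mem_product, mem_range, mem_univ, and_true] at hi
      rcases a with _ | _
      · simpa [he] using hGm i hi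
      · simpa [he] using hGp i hi)
  refine ⟨(-1) ^ M * H 0, fun x => ?_⟩
  rw [hFG x, hGH x, TPC_zero_const hH x 0, prod_product]
  have h5 : ∀ i ∈ range M, ∏ b : Bool, Real.sin (x - e (i, b)) = -(s (x - c i) * s (-(x - c i))) := by
    intro i _
    rw [Fintype.prod_bool]
    simp only [he, Bool.false_eq_true, if_false, if_true]
    unfold s
    rw [show x - (c i - π / 3) = π / 3 + (x - c i) by ring,
      show x - (c i + π / 3) = -(π / 3 + -(x - c i)) by ring, Real.sin_neg]
    ring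
  rw [prod_congr rfl h5]
  simp only [qq, prod_mul_distrib, prod_neg, card_range]
  push_cast
  ring

/-! ### top coefficients of the factors -/

theorem TPC_sin2 (y : ℝ) : TPC 2 (fun x : ℝ => ((Real.sin (x - y) ^ 2 : ℝ) : ℂ)) := by
  have h := tc_TPC_sin 0 y
  refine tc_TPC_congr (h.mul h) fun x => ?_
  rw [zero_add]
  push_cast
  ring

theorem tc_sin2 (y : ℝ) : tc 2 (fun x : ℝ => ((Real.sin (x - y) ^ 2 : ℝ) : ℂ)) =
    -(1 / 4) * Complex.exp (-(2 * y * Complex.I)) := by
  have h := tc_TPC_sin 0 y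
  have h1 := tc_mul h h
  rw [tc_sin] at h1
  have h2 : tc (1 + 1) (fun x : ℝ => ((Real.sin (0 + (x - y)) : ℝ) : ℂ) * ((Real.sin (0 + (x - y)) : ℝ) : ℂ)) =
      tc 2 (fun x : ℝ => ((Real.sin (x - y) ^ 2 : ℝ) : ℂ)) := by
    refine tc_congr fun x => ?_
    rw [zero_add]
    push_cast
    ring
  rw [← h2, h1]
  have e1 : Complex.exp (-(2 * y * Complex.I)) = Complex.exp (-(y * Complex.I)) * Complex.exp (-(y * Complex.I)) := by
    rw [← Complex.exp_add]; congr 1; ring
  rw [e1]
  simp only [Complex.ofReal_zero, zero_mul, Complex.exp_zero, one_mul]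
  have hI : Complex.I ^ 2 = -1 := Complex.I_sq
  have hI0 : Complex.I ≠ 0 := Complex.I_ne_zero
  field_simp
  rw [hI]
  ring

theorem TPC_ss (y : ℝ) : TPC 2 (fun x : ℝ => ((s (x - y) * s (y - x) : ℝ) : ℂ)) := by
  have h := (tc_TPC_sin (π / 3) y).mul (tc_TPC_sin' (π / 3) y)
  refine tc_TPC_congr h fun x => ?_
  unfold s
  push_cast
  ring

theorem tc_ss (y : ℝ) : tc 2 (fun x : ℝ => ((s (x - y) * s (y - x) : ℝ) : ℂ)) =
    1 / 4 * Complex.exp (-(2 * y * Complex.I)) := by
  have h1 := tc_mul (tc_TPC_sin (π / 3) y) (tc_TPC_sin' (π / 3) y)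
  rw [tc_sin, tc_sin'] at h1
  have h2 : tc (1 + 1) (fun x : ℝ => ((Real.sin (π / 3 + (x - y)) : ℝ) : ℂ) *
      ((Real.sin (π / 3 + (y - x)) : ℝ) : ℂ)) =
      tc 2 (fun x : ℝ => ((s (x - y) * s (y - x) : ℝ) : ℂ)) := by
    refine tc_congr fun x => ?_
    unfold s
    push_cast
    ring
  rw [← h2, h1]
  have e1 : Complex.exp (-(2 * y * Complex.I)) = Complex.exp (-(y * Complex.I)) * Complex.exp (-(y * Complex.I)) := by
    rw [← Complex.exp_add]; congr 1; ring
  have e2 : Complex.exp (((π / 3 : ℝ) : ℂ) * Complex.I) * Complex.exp (-(((π / 3 : ℝ) : ℂ) * Complex.I)) = 1 := by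
    rw [← Complex.exp_add]; simp
  rw [e1]
  have hI : Complex.I ^ 2 = -1 := Complex.I_sq
  have hI0 : Complex.I ≠ 0 := Complex.I_ne_zero
  have h3 : Complex.exp (((π / 3 : ℝ) : ℂ) * Complex.I) * Complex.exp (-(y * Complex.I)) / (2 * Complex.I) *
      (-(Complex.exp (-(((π / 3 : ℝ) : ℂ) * Complex.I)) * Complex.exp (-(y * Complex.I))) / (2 * Complex.I)) =
      -(Complex.exp (((π / 3 : ℝ) : ℂ) * Complex.I) * Complex.exp (-(((π / 3 : ℝ) : ℂ) * Complex.I))) *
      (Complex.exp (-(y * Complex.I)) * Complex.exp (-(y * Complex.I))) / (4 * Complex.I ^ 2) := by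
    field_simp
    ring
  rw [h3, e2, hI]
  ring

theorem TPC_qq (y : ℝ) : TPC 4 (fun x : ℝ => ((qq (x - y) : ℝ) : ℂ)) := by
  refine tc_TPC_congr ((TPC_sin2 y).mul (TPC_ss y)) fun x => ?_
  unfold qq
  rw [neg_sub]
  push_cast
  ring

theorem tc_qq (y : ℝ) : tc 4 (fun x : ℝ => ((qq (x - y) : ℝ) : ℂ)) =
    -(1 / 16) * Complex.exp (-(4 * y * Complex.I)) := by
  have h1 := tc_mul (TPC_sin2 y) (TPC_ss y)
  rw [tc_sin2, tc_ss] at h1
  have h2 : tc (2 + 2) (fun x : ℝ => ((Real.sin (x - y) ^ 2 : ℝ) : ℂ) * ((s (x - y) * s (y - x) : ℝ) : ℂ)) =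
      tc 4 (fun x : ℝ => ((qq (x - y) : ℝ) : ℂ)) := by
    refine tc_congr fun x => ?_
    unfold qq
    rw [neg_sub]
    push_cast
    ring
  rw [← h2, h1]
  have e1 : Complex.exp (-(4 * y * Complex.I)) = Complex.exp (-(2 * y * Complex.I)) * Complex.exp (-(2 * y * Complex.I)) := by
    rw [← Complex.exp_add]; congr 1; ring
  rw [e1]
  ring

theorem TPC_prod_qq (M : ℕ) (c : ℕ → ℝ) : TPC (4 * M) (fun x => ((∏ i ∈ range M, qq (x - c i) : ℝ) : ℂ)) := by
  have h := tc_TPC_prod_const (range M) 4 (fun i x => ((qq (x - c i) : ℝ) : ℂ)) (fun i _ => TPC_qq (c i))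
  rw [card_range, mul_comm] at h
  refine tc_TPC_congr h fun x => ?_
  push_cast
  rfl

theorem tc_prod_qq (M : ℕ) (c : ℕ → ℝ) : tc (4 * M) (fun x => ((∏ i ∈ range M, qq (x - c i) : ℝ) : ℂ)) =
    ∏ i ∈ range M, (-(1 / 16) * Complex.exp (-(4 * c i * Complex.I))) := by
  have h := tc_prod_const (range M) 4 (fun i x => ((qq (x - c i) : ℝ) : ℂ)) (fun i _ => TPC_qq (c i))
  rw [card_range, mul_comm] at h
  rw [show (∏ i ∈ range M, (-(1 / 16) * Complex.exp (-(4 * c i * Complex.I)))) =
    ∏ i ∈ range M, tc 4 (fun x : ℝ => ((qq (x - c i) : ℝ) : ℂ)) from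
    prod_congr rfl fun i _ => (tc_qq (c i)).symm, ← h]
  refine tc_congr fun x => ?_
  push_cast
  rfl

end OneArm
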