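import Pool.Agent.Helper18.OneArm.NA
import Pool.Agent.Helper18.OneArm.Tc2

/-! MODULE NA2: degree and leading part of `NN` in the first variable, double zero. -/

namespace OneArm
open IP IPC Finset Real Filter Topology

theorem n2_prod_erase_succ {M i : ℕ} (_ : i < M) (f : ℕ → ℝ) :
    ∏ k ∈ (range (M + 1)).erase (i + 1), f k = f 0 * ∏ k ∈ (range M).erase i, f (k + 1) := by
  have h1 : (range (M + 1)).erase (i + 1) = insert 0 (((range M).erase i).image fun k => k + 1) := by
    ext k
    rcases k with _ | k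
    · simp
    · simp only [mem_erase, mem_range, mem_insert, mem_image]
      constructor
      · rintro ⟨h1, h2⟩
        exact Or.inr ⟨k, ⟨by omega, by omega⟩, rfl⟩
      · rintro (h | ⟨k', ⟨h1, h2⟩, h3⟩)
        · omega
        · omega
  rw [h1, prod_insert (by simp), prod_image (fun a _ b _ h => by omega)]

theorem n2_prod_erase_succ2 {M i j : ℕ} (_ : i < M) (_ : j < M) (_ : i ≠ j) (f : ℕ → ℝ) :
    ∏ k ∈ ((range (M + 1)).erase (i + 1)).erase (j + 1), f k =
      f 0 * ∏ k ∈ ((range M).erase i).erase j, f (k + 1) := by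
  have h1 : ((range (M + 1)).erase (i + 1)).erase (j + 1) =
      insert 0 ((((range M).erase i).erase j).image fun k => k + 1) := by
    ext k
    rcases k with _ | k
    · simp
    · simp only [mem_erase, mem_range, mem_insert, mem_image]
      constructor
      · rintro ⟨h1, h2, h3⟩
        exact Or.inr ⟨k, ⟨by omega, by omega, by omega⟩, rfl⟩
      · rintro (h | ⟨k', ⟨h1, h2, h3⟩, h4⟩)
        · omega
        · omega
  rw [h1, prod_insert (by simp), prod_image (fun a _ b _ h => by omega)]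

theorem n2_prod_erase_zero (M : ℕ) (f : ℕ → ℝ) :
    ∏ k ∈ (range (M + 1)).erase 0, f k = ∏ k ∈ range M, f (k + 1) := by
  have h1 : (range (M + 1)).erase 0 = (range M).image fun k => k + 1 := by
    ext k
    rcases k with _ | k
    · simp
    · simp
  rw [h1, prod_image (fun a _ b _ h => by omega)]

theorem n2_prod_erase_zero2 {M j : ℕ} (f : ℕ → ℝ) :
    ∏ k ∈ ((range (M + 1)).erase 0).erase (j + 1), f k = ∏ k ∈ (range M).erase j, f (k + 1) := by
  have h1 : ((range (M + 1)).erase 0).erase (j + 1) = ((range M).erase j).image fun k => k + 1 := by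
    ext k
    rcases k with _ | k
    · simp
    · simp
  rw [h1, prod_image (fun a _ b _ h => by omega)]

theorem n2_prod_erase_zero3 {M i : ℕ} (f : ℕ → ℝ) :
    ∏ k ∈ ((range (M + 1)).erase (i + 1)).erase 0, f k = ∏ k ∈ (range M).erase i, f (k + 1) := by
  rw [erase_right_comm]
  exact n2_prod_erase_zero2 f

/-- `s (x - y) * s (y - x)` -/
noncomputable def sg (x y : ℝ) : ℝ := s (x - y) * s (y - x)

theorem n2_RR_00 (θ : ℝ) (M : ℕ) (x : ℝ) (c : ℕ → ℝ) :
    RR θ (M + 1) (IPC.cons x c) 0 0 = aa θ * ((∏ k ∈ range M, sg x (c k) : ℝ) : ℂ) := by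
  unfold RR
  rw [Matrix.of_apply, if_pos rfl]
  congr 2
  exact n2_prod_erase_zero M _

theorem n2_RR_0s (θ : ℝ) (M : ℕ) (x : ℝ) (c : ℕ → ℝ) (j : Fin M) :
    RR θ (M + 1) (IPC.cons x c) 0 j.succ = mm θ (IPC.cons x c) 0 (j + 1) *
      ((∏ k ∈ (range M).erase (j : ℕ), sg x (c k) : ℝ) : ℂ) := by
  unfold RR
  rw [Matrix.of_apply, if_neg (Fin.succ_ne_zero j).symm]
  congr 2
  exact n2_prod_erase_zero2 _

theorem n2_RR_s0 (θ : ℝ) (M : ℕ) (x : ℝ) (c : ℕ → ℝ) (i : Fin M) :
    RR θ (M + 1) (IPC.cons x c) i.succ 0 = mm θ (IPC.cons x c) (i + 1) 0 *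
      ((∏ k ∈ (range M).erase (i : ℕ), pp c i k : ℝ) : ℂ) := by
  unfold RR
  rw [Matrix.of_apply, if_neg (Fin.succ_ne_zero i)]
  congr 2
  exact n2_prod_erase_zero3 _

theorem n2_RR_ss (θ : ℝ) (M : ℕ) (x : ℝ) (c : ℕ → ℝ) (i j : Fin M) :
    RR θ (M + 1) (IPC.cons x c) i.succ j.succ = ((sg x (c i) : ℝ) : ℂ) * RR θ M c i j := by
  unfold RR
  rw [Matrix.of_apply, Matrix.of_apply]
  by_cases hij : i = j
  · subst hij
    rw [if_pos rfl, if_pos rfl]
    have h1 := n2_prod_erase_succ (M := M) i.2 (fun k => pp (IPC.cons x c) (i + 1) k)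
    have h2 : (((i.succ : Fin (M + 1)) : ℕ)) = (i : ℕ) + 1 := Fin.val_succ i
    rw [h2, h1]
    have h3 : pp (IPC.cons x c) (i + 1) 0 = sg x (c i) := by
      show s (c i - x) * s (x - c i) = sg x (c i)
      unfold sg
      ring
    have h4 : ∏ k ∈ (range M).erase (i : ℕ), pp (IPC.cons x c) (i + 1) (k + 1) =
        ∏ k ∈ (range M).erase (i : ℕ), pp c i k := rfl
    rw [h3, h4]
    push_cast
    ring
  · have hij' : (i : ℕ) ≠ j := fun h => hij (Fin.ext h)
    rw [if_neg (fun h => hij (Fin.succ_injective M h)), if_neg hij]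
    have h1 := n2_prod_erase_succ2 (M := M) i.2 j.2 hij' (fun k => pp (IPC.cons x c) (i + 1) k)
    have h2 : (((i.succ : Fin (M + 1)) : ℕ)) = (i : ℕ) + 1 := Fin.val_succ i
    have h2' : (((j.succ : Fin (M + 1)) : ℕ)) = (j : ℕ) + 1 := Fin.val_succ j
    rw [h2, h2', h1]
    have h3 : pp (IPC.cons x c) (i + 1) 0 = sg x (c i) := by
      show s (c i - x) * s (x - c i) = sg x (c i)
      unfold sg
      ring
    have h4 : ∏ k ∈ ((range M).erase (i : ℕ)).erase (j : ℕ), pp (IPC.cons x c) (i + 1) (k + 1) =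
        ∏ k ∈ ((range M).erase (i : ℕ)).erase (j : ℕ), pp c i k := rfl
    have h5 : mm θ (IPC.cons x c) (i + 1) (j + 1) = mm θ c i j := rfl
    rw [h3, h4, h5]
    push_cast
    ring

/-! ### degrees -/

theorem n2_sg_TPC (y : ℝ) : TPC 2 (fun x => ((sg x y : ℝ) : ℂ)) := TPC_ss y

theorem n2_mm0_TPC (θ : ℝ) (c : ℕ → ℝ) (j : ℕ) : TPC 1 (fun x => mm θ (IPC.cons x c) 0 (j + 1)) := by
  have h := ((tc_TPC_sin (π / 3) (c j)).const_mul (Complex.exp (Complex.I * θ / 2))).add
    ((tc_TPC_sin' (π / 3) (c j)).const_mul (Complex.exp (-(Complex.I * θ / 2))))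
  exact tc_TPC_congr h fun x => rfl

theorem n2_mms_TPC (θ : ℝ) (c : ℕ → ℝ) (i : ℕ) : TPC 1 (fun x => mm θ (IPC.cons x c) (i + 1) 0) := by
  have h := ((tc_TPC_sin' (π / 3) (c i)).const_mul (Complex.exp (Complex.I * θ / 2))).add
    ((tc_TPC_sin (π / 3) (c i)).const_mul (Complex.exp (-(Complex.I * θ / 2))))
  exact tc_TPC_congr h fun x => rfl

/-- Leibniz formula with column degrees -/
theorem n2_det_TPC {n : ℕ} (A : ℝ → Matrix (Fin n) (Fin n) ℂ) (d : Fin n → ℕ)
    (h : ∀ i j, TPC (d j) (fun x => A x i j)) : TPC (∑ j, d j) (fun x => (A x).det) := by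
  have h1 : ∀ σ : Equiv.Perm (Fin n), TPC (∑ j, d j)
      (fun x => ((Equiv.Perm.sign σ : ℤ) : ℂ) * ∏ i, A x (σ i) i) := by
    intro σ
    exact (tc_TPC_prod univ (m := d) (F := fun i x => A x (σ i) i) fun i _ => h _ _).const_mul _
  refine tc_TPC_congr (tc_TPC_sum univ (F := fun σ x => ((Equiv.Perm.sign σ : ℤ) : ℂ) * ∏ i, A x (σ i) i)
    fun σ _ => h1 σ) fun x => ?_
  rw [Matrix.det_apply']

theorem n2_minor (θ : ℝ) (m : ℕ) (c : ℕ → ℝ) (j : Fin (m + 1)) :
    TPC (2 * m + 1) (fun x => ((RR θ (m + 2) (IPC.cons x c)).submatrix Fin.succ (j.succ).succAbove).det) := by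
  have h := n2_det_TPC (fun x => (RR θ (m + 2) (IPC.cons x c)).submatrix Fin.succ (j.succ).succAbove)
    (fun k : Fin (m + 1) => if k = 0 then 1 else 2) (by
      intro i k
      by_cases hk : k = 0
      · subst hk
        rw [if_pos rfl]
        have h1 : (j.succ).succAbove (0 : Fin (m + 1)) = 0 := Fin.succAbove_ne_zero_zero (Fin.succ_ne_zero j)
        refine tc_TPC_congr ((n2_mms_TPC θ c i).mul (tc_TPC_const
          ((∏ k ∈ (range (m + 1)).erase (i : ℕ), pp c i k : ℝ) : ℂ))) fun x => ?_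
        rw [Matrix.submatrix_apply, h1, n2_RR_s0]
      · rw [if_neg hk]
        obtain ⟨k', hk'⟩ : ∃ k' : Fin (m + 1), (j.succ).succAbove k = k'.succ := by
          have h2 : (j.succ).succAbove k ≠ 0 := Fin.succAbove_ne_zero (Fin.succ_ne_zero j) hk
          exact ⟨((j.succ).succAbove k).pred h2, (Fin.succ_pred _ h2).symm⟩
        refine tc_TPC_congr ((n2_sg_TPC (c i)).mul (tc_TPC_const (RR θ (m + 1) c i k'))) fun x => ?_
        rw [Matrix.submatrix_apply, hk', n2_RR_ss])
  have h2 : (∑ k : Fin (m + 1), if k = 0 then 1 else 2) = 2 * m + 1 := by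
    rw [Fin.sum_univ_succ]
    simp [Fin.succ_ne_zero]
    ring
  rwa [h2] at h

theorem n2_det_diag (M : ℕ) (d : Fin M → ℂ) (A : Matrix (Fin M) (Fin M) ℂ) :
    (Matrix.of fun i j => d i * A i j).det = (∏ i, d i) * A.det := by
  exact Matrix.det_mul_column d A

/-- leading part in the first variable -/
theorem NN_top (θ : ℝ) (m : ℕ) (b : ℕ → ℝ) :
    TPC (4 * m + 2) (fun x => NN θ (m + 2) (IPC.cons x b) -
      aa θ * ((∏ k ∈ range (m + 1), (s (x - b k) * s (b k - x)) ^ 2 : ℝ) : ℂ) * NN θ (m + 1) b) := by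
  have hterm : ∀ j : Fin (m + 1), TPC (4 * m + 2) (fun x => (-1) ^ ((j.succ : Fin (m + 2)) : ℕ) *
      (RR θ (m + 2) (IPC.cons x b) 0 j.succ) *
      ((RR θ (m + 2) (IPC.cons x b)).submatrix Fin.succ (j.succ).succAbove).det) := by
    intro j
    have h1 : TPC (2 * m + 1) (fun x => RR θ (m + 2) (IPC.cons x b) 0 j.succ) := by
      have h2 := tc_TPC_prod_const ((range (m + 1)).erase (j : ℕ)) 2 (fun k x => ((sg x (b k) : ℝ) : ℂ))
        (fun k _ => n2_sg_TPC (b k))
      rw [card_erase_of_mem (mem_range.2 j.2), card_range, Nat.add_sub_cancel] at h2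
      have h3 := (n2_mm0_TPC θ b j).mul h2
      rw [show 1 + m * 2 = 2 * m + 1 by ring] at h3
      refine tc_TPC_congr h3 fun x => ?_
      rw [n2_RR_0s]
      push_cast
      rfl
    have h2 := (h1.mul (n2_minor θ m b j)).const_mul ((-1) ^ ((j.succ : Fin (m + 2)) : ℕ))
    rw [show 2 * m + 1 + (2 * m + 1) = 4 * m + 2 by ring] at h2
    refine tc_TPC_congr h2 fun x => ?_
    ring
  refine tc_TPC_congr (tc_TPC_sum univ (F := fun (j : Fin (m + 1)) x => (-1) ^ ((j.succ : Fin (m + 2)) : ℕ) *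
      (RR θ (m + 2) (IPC.cons x b) 0 j.succ) *
      ((RR θ (m + 2) (IPC.cons x b)).submatrix Fin.succ (j.succ).succAbove).det) fun j _ => hterm j) fun x => ?_
  have h0 : (RR θ (m + 2) (IPC.cons x b)).submatrix Fin.succ (Fin.succAbove 0) =
      Matrix.of fun (i j : Fin (m + 1)) => ((sg x (b i) : ℝ) : ℂ) * RR θ (m + 1) b i j := by
    ext i j
    rw [Matrix.submatrix_apply, Fin.succAbove_zero, n2_RR_ss]
    rfl
  have hd : NN θ (m + 2) (IPC.cons x b) = ∑ j : Fin (m + 2), (-1) ^ (j : ℕ) *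
      (RR θ (m + 2) (IPC.cons x b) 0 j) *
      ((RR θ (m + 2) (IPC.cons x b)).submatrix Fin.succ j.succAbove).det := by
    unfold NN
    exact Matrix.det_succ_row_zero _
  rw [hd, Fin.sum_univ_succ, h0, n2_det_diag, n2_RR_00]
  have h1 : ∏ i : Fin (m + 1), ((sg x (b i) : ℝ) : ℂ) = ∏ k ∈ range (m + 1), ((sg x (b k) : ℝ) : ℂ) :=
    Fin.prod_univ_eq_prod_range (fun k => ((sg x (b k) : ℝ) : ℂ)) (m + 1)
  have h2 : ((∏ k ∈ range (m + 1), (s (x - b k) * s (b k - x)) ^ 2 : ℝ) : ℂ) =
      (∏ k ∈ range (m + 1), ((sg x (b k) : ℝ) : ℂ)) * (∏ k ∈ range (m + 1), ((sg x (b k) : ℝ) : ℂ)) := by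
    rw [← prod_mul_distrib]
    push_cast
    refine prod_congr rfl fun k _ => ?_
    unfold sg
    push_cast
    ring
  rw [h1, h2]
  unfold NN
  push_cast
  simp only [Fin.val_zero, pow_zero, one_mul]
  ring

/-- degree in the first variable -/
theorem NN_TPC (θ : ℝ) (m : ℕ) (b : ℕ → ℝ) : TPC (4 * m) (fun x => NN θ (m + 1) (IPC.cons x b)) := by
  rcases m with _ | m
  · refine tc_TPC_congr (tc_TPC_const (aa θ)) fun x => ?_
    exact NN_one θ _
  · have h1 := tc_TPC_mono 1 (NN_top θ m b)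
    rw [show 4 * m + 2 + 2 * 1 = 4 * (m + 1) by ring] at h1
    have h2 := tc_TPC_prod_const (range (m + 1)) 4 (fun k x => (((s (x - b k) * s (b k - x)) ^ 2 : ℝ) : ℂ))
      (fun k _ => tc_TPC_congr ((TPC_ss (b k)).mul (TPC_ss (b k))) fun x => by push_cast; ring)
    rw [card_range, mul_comm] at h2
    have h3 := h1.add ((h2.const_mul (aa θ)).mul (tc_TPC_const (NN θ (m + 1) b)))
    refine tc_TPC_congr h3 fun x => ?_
    push_cast
    ring

/-! ### the double zero -/

/-- the entry of `Mm` as a function of the difference -/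
noncomputable def FF (θ : ℝ) (u : ℝ) : ℂ :=
  Complex.exp (Complex.I * θ / 2) / (s (-u) : ℂ) + Complex.exp (-(Complex.I * θ / 2)) / (s u : ℂ)

theorem n2_Mm_FF (θ : ℝ) (L : ℕ) (b : ℕ → ℝ) (i j : Fin L) : Mm θ L b i j = FF θ (b i - b j) := by
  unfold Mm FF
  rw [Matrix.of_apply, neg_sub]

theorem n2_s_diff : Differentiable ℝ s := by
  have h : s = fun x => Real.sin (π / 3 + x) := rfl
  rw [h]
  fun_prop

theorem n2_FF_diff (θ u : ℝ) (h1 : s u ≠ 0) (h2 : s (-u) ≠ 0) : DifferentiableAt ℝ (FF θ) u := by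
  have ha : DifferentiableAt ℝ (fun u : ℝ => ((s u : ℝ) : ℂ)) u :=
    Complex.ofRealCLM.differentiableAt.comp u (n2_s_diff u)
  have hb : DifferentiableAt ℝ (fun u : ℝ => ((s (-u) : ℝ) : ℂ)) u :=
    Complex.ofRealCLM.differentiableAt.comp u ((n2_s_diff (-u)).comp u differentiableAt_id.neg)
  have h3 : ((s u : ℝ) : ℂ) ≠ 0 := Complex.ofReal_ne_zero.2 h1
  have h4 : ((s (-u) : ℝ) : ℂ) ≠ 0 := Complex.ofReal_ne_zero.2 h2
  exact ((differentiableAt_const _).div hb h4).add ((differentiableAt_const _).div ha h3)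

/-- row 0 minus row 1, column 0 minus column 1, row 0 divided by `t` -/
theorem n2_det_reduce {n : ℕ} (A : Matrix (Fin (n + 2)) (Fin (n + 2)) ℂ) (t : ℂ) (ht : t ≠ 0) :
    A.det = t * (Matrix.of fun (i j : Fin (n + 2)) =>
      if i = 0 then (if j = 0 then (A 0 0 - A 1 0 - (A 0 1 - A 1 1)) / t else (A 0 j - A 1 j) / t)
      else (if j = 0 then A i 0 - A i 1 else A i j)).det := by
  have h01 : (0 : Fin (n + 2)) ≠ 1 := Fin.zero_ne_one
  have e1 := Matrix.det_updateRow_add_smul_self A h01 (-1)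
  have e2 := Matrix.det_updateCol_add_smul_self (A.updateRow 0 (A 0 + (-1 : ℂ) • A 1)) h01 (-1)
  rw [← e1, ← e2]
  set B : Matrix (Fin (n + 2)) (Fin (n + 2)) ℂ := Matrix.of fun (i j : Fin (n + 2)) =>
      if i = 0 then (if j = 0 then (A 0 0 - A 1 0 - (A 0 1 - A 1 1)) / t else (A 0 j - A 1 j) / t)
      else (if j = 0 then A i 0 - A i 1 else A i j) with hB
  have e3 := Matrix.det_updateRow_smul B 0 t (B 0)
  rw [Matrix.updateRow_eq_self] at e3
  rw [← e3]
  congr 1
  ext i j
  rw [Matrix.updateCol_apply, Matrix.updateRow_apply]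
  by_cases hj : j = 0
  · subst hj
    rw [if_pos rfl, Matrix.updateRow_apply, Matrix.updateRow_apply]
    by_cases hi : i = 0
    · subst hi
      rw [if_pos rfl, if_pos rfl, if_pos rfl]
      simp only [hB, Pi.add_apply, Pi.smul_apply, smul_eq_mul, Matrix.of_apply, if_true]
      field_simp
      ring
    · rw [if_neg hi, if_neg hi, if_neg hi]
      simp only [hB, smul_eq_mul, Matrix.of_apply, if_neg hi, if_true]
      ring
  · rw [if_neg hj, Matrix.updateRow_apply]
    by_cases hi : i = 0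
    · subst hi
      rw [if_pos rfl, Matrix.updateRow_self]
      simp only [hB, Pi.add_apply, Pi.smul_apply, smul_eq_mul, Matrix.of_apply, if_true, if_neg hj]
      field_simp
      ring
    · rw [if_neg hi, Matrix.updateRow_ne hi]
      simp only [hB, Matrix.of_apply, if_neg hi, if_neg hj]

theorem n2_det_tendsto {n : ℕ} {l : Filter ℝ} (B : ℝ → Matrix (Fin n) (Fin n) ℂ)
    (B0 : Matrix (Fin n) (Fin n) ℂ) (h : ∀ i j, Tendsto (fun x => B x i j) l (𝓝 (B0 i j))) :
    Tendsto (fun x => (B x).det) l (𝓝 B0.det) := by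
  simp only [Matrix.det_apply']
  exact tendsto_finsetSum _ fun σ _ => tendsto_const_nhds.mul (tendsto_finsetProd _ fun i _ => h _ _)

theorem n2_pp_cont (b : ℕ → ℝ) (i j : ℕ) : Continuous (fun x : ℝ => pp (IPC.cons x b) i j) := by
  have h1 : ∀ k, Continuous (fun x : ℝ => IPC.cons x b k) := by
    intro k
    rcases k with _ | k
    · exact continuous_id
    · exact continuous_const
  unfold pp
  exact (n2_s_diff.continuous.comp ((h1 i).sub (h1 j))).mul (n2_s_diff.continuous.comp ((h1 j).sub (h1 i)))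

theorem n2_s_zero : s 0 ≠ 0 := by
  have h : s 0 = Real.sin (π / 3 + 0) := rfl
  rw [h, add_zero, Real.sin_pi_div_three]
  positivity

/-- double zero at `b 0 = b 1`: row and column operations on `Mm` (row 0 - row 1, column 0 - column 1) -/
theorem NN_double (θ : ℝ) (L : ℕ) (b : ℕ → ℝ)
    (h : ∀ i < L + 1, ∀ j < L + 1, i ≠ j → pp b i j ≠ 0) :
    NN θ (L + 2) (IPC.cons (b 0) b) = 0 ∧
    Tendsto (fun x : ℝ => NN θ (L + 2) (IPC.cons x b) / (Real.sin (x - b 0) : ℂ)) (𝓝[≠] (b 0)) (𝓝 0) := by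
  -- near `b 0` all pair factors are nonzero
  have hpp0 : ∀ i < L + 2, ∀ j < L + 2, i ≠ j → pp (IPC.cons (b 0) b) i j ≠ 0 := by
    have hd : ∀ j < L + 1, pp (IPC.cons (b 0) b) 0 (j + 1) ≠ 0 := by
      intro j hj
      rcases j with _ | j
      · show s (b 0 - b 0) * s (b 0 - b 0) ≠ 0
        rw [sub_self]
        exact mul_ne_zero n2_s_zero n2_s_zero
      · exact h 0 (by omega) (j + 1) hj (by omega)
    intro i hi j hj hij
    rcases i with _ | i
    · rcases j with _ | j
      · exact absurd rfl hij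
      · exact hd j (by omega)
    · rcases j with _ | j
      · have h1 := hd i (by omega)
        have h2 : pp (IPC.cons (b 0) b) (i + 1) 0 = pp (IPC.cons (b 0) b) 0 (i + 1) := by
          unfold pp
          ring
        rwa [h2]
      · exact h i (by omega) j (by omega) (by omega)
  have hev : ∀ᶠ x in 𝓝 (b 0), ∀ i < L + 2, ∀ j < L + 2, i ≠ j → pp (IPC.cons x b) i j ≠ 0 := by
    have h1 : ∀ i ∈ range (L + 2), ∀ j ∈ range (L + 2), ∀ᶠ x in 𝓝 (b 0), i ≠ j → pp (IPC.cons x b) i j ≠ 0 := by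
      intro i hi j hj
      by_cases hij : i = j
      · exact Eventually.of_forall fun x hne => absurd hij hne
      · filter_upwards [(n2_pp_cont b i j).continuousAt.eventually_ne
          (hpp0 i (mem_range.1 hi) j (mem_range.1 hj) hij)] with x hx _ using hx
    have h2 : ∀ᶠ x in 𝓝 (b 0), ∀ i ∈ range (L + 2), ∀ j ∈ range (L + 2), i ≠ j → pp (IPC.cons x b) i j ≠ 0 := by
      rw [Filter.eventually_all_finset]
      intro i hi
      rw [Filter.eventually_all_finset]
      intro j hj
      exact h1 i hi j hj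
    filter_upwards [h2] with x hx i hi j hj hij using hx i (mem_range.2 hi) j (mem_range.2 hj) hij
  constructor
  · rw [NN_det θ (L + 2) _ hpp0]
    have h01 : (0 : Fin (L + 2)) ≠ 1 := Fin.zero_ne_one
    rw [Matrix.det_zero_of_row_eq h01 (by
      ext j
      rw [n2_Mm_FF, n2_Mm_FF]
      rfl), mul_zero]
  · -- the reduced matrix
    set A : ℝ → Matrix (Fin (L + 2)) (Fin (L + 2)) ℂ := fun x => Mm θ (L + 2) (IPC.cons x b) with hA
    have hAF : ∀ (x : ℝ) (i j : Fin (L + 2)), A x i j = FF θ (IPC.cons x b i - IPC.cons x b j) :=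
      fun x i j => n2_Mm_FF θ (L + 2) _ i j
    have hent : ∀ i j : Fin (L + 2), ∃ l : ℂ, Tendsto (fun x : ℝ =>
        (Matrix.of fun (i j : Fin (L + 2)) =>
          if i = 0 then (if j = 0 then (A x 0 0 - A x 1 0 - (A x 0 1 - A x 1 1)) / ((x - b 0 : ℝ) : ℂ)
            else (A x 0 j - A x 1 j) / ((x - b 0 : ℝ) : ℂ))
          else (if j = 0 then A x i 0 - A x i 1 else A x i j)) i j) (𝓝[≠] (b 0)) (𝓝 l) ∧ (j = 0 → l = 0) := by
      have hne : ∀ u ∈ range (L + 1), s (b 0 - b u) ≠ 0 ∧ s (-(b 0 - b u)) ≠ 0 := by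
        intro u hu
        have h1 := hpp0 0 (by omega) (u + 1) (by have := mem_range.1 hu; omega) (by omega)
        have h2 : pp (IPC.cons (b 0) b) 0 (u + 1) = s (b 0 - b u) * s (b u - b 0) := rfl
        rw [h2] at h1
        rw [neg_sub]
        exact ⟨left_ne_zero_of_mul h1, right_ne_zero_of_mul h1⟩
      intro i j
      by_cases hi : i = 0
      · subst hi
        by_cases hj : j = 0
        · subst hj
          refine ⟨0, ?_, fun _ => rfl⟩
          have hd0 : DifferentiableAt ℝ (FF θ) 0 := by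
            refine n2_FF_diff θ 0 n2_s_zero ?_
            rw [neg_zero]
            exact n2_s_zero
          have h1 : HasDerivAt (fun x : ℝ => FF θ (x - b 0)) (deriv (FF θ) 0) (b 0) := by
            have h2 : HasDerivAt (FF θ) (deriv (FF θ) 0) (b 0 - b 0) := by
              rw [sub_self]
              exact hd0.hasDerivAt
            exact h2.comp_sub_const (b 0) (b 0)
          have h1' : HasDerivAt (fun x : ℝ => FF θ (b 0 - x)) (-(deriv (FF θ) 0)) (b 0) := by
            have h2 : HasDerivAt (FF θ) (deriv (FF θ) 0) (b 0 - b 0) := by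
              rw [sub_self]
              exact hd0.hasDerivAt
            exact h2.comp_const_sub (b 0) (b 0)
          have h3 := (h1.add h1').neg
          rw [add_neg_cancel, neg_zero] at h3
          have h4 := hasDerivAt_iff_tendsto_slope.1 h3
          refine h4.congr fun x => ?_
          simp only [Matrix.of_apply, if_true]
          have e0 : A x 0 0 = FF θ 0 := by
            rw [hAF, sub_self]
          have e1 : A x 1 0 = FF θ (b 0 - x) := by
            rw [hAF]
            rfl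
          have e2 : A x 0 1 = FF θ (x - b 0) := by
            rw [hAF]
            rfl
          have e3 : A x 1 1 = FF θ 0 := by
            rw [hAF, sub_self]
          rw [e0, e1, e2, e3, slope_def_module]
          simp only [Pi.neg_apply, Pi.add_apply, sub_self]
          rw [div_eq_inv_mul, ← Complex.ofReal_inv, ← Complex.real_smul]
          congr 1
          ring
        · obtain ⟨j', hj'⟩ : ∃ j' : Fin (L + 1), j = j'.succ := ⟨j.pred hj, (Fin.succ_pred _ hj).symm⟩
          have hj2 := hne j' (mem_range.2 j'.2)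
          have hd0 : DifferentiableAt ℝ (FF θ) (b 0 - b j') := n2_FF_diff θ _ hj2.1 hj2.2
          have h1 : HasDerivAt (fun x : ℝ => FF θ (x - b j')) (deriv (FF θ) (b 0 - b j')) (b 0) :=
            hd0.hasDerivAt.comp_sub_const (b 0) (b j')
          have h4 := hasDerivAt_iff_tendsto_slope.1 h1
          refine ⟨deriv (FF θ) (b 0 - b j'), h4.congr fun x => ?_, fun hj0 => absurd hj0 hj⟩
          simp only [Matrix.of_apply, if_true, if_neg hj]
          have e0 : A x 0 j = FF θ (x - b j') := by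
            rw [hAF, hj']
            rfl
          have e1 : A x 1 j = FF θ (b 0 - b j') := by
            rw [hAF, hj']
            rfl
          rw [e0, e1, slope_def_module, div_eq_inv_mul, ← Complex.ofReal_inv, ← Complex.real_smul]
      · obtain ⟨i', hi'⟩ : ∃ i' : Fin (L + 1), i = i'.succ := ⟨i.pred hi, (Fin.succ_pred _ hi).symm⟩
        have hi2 := hne i' (mem_range.2 i'.2)
        by_cases hj : j = 0
        · subst hj
          refine ⟨0, ?_, fun _ => rfl⟩
          have hd0 : DifferentiableAt ℝ (FF θ) (b i' - b 0) := by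
            refine n2_FF_diff θ _ ?_ ?_
            · have := hi2.2
              rwa [neg_sub] at this
            · rw [neg_sub]
              exact hi2.1
          have h1 : ContinuousAt (fun x : ℝ => FF θ (b i' - x)) (b 0) :=
            ContinuousAt.comp (f := fun x : ℝ => b i' - x) (g := FF θ) (x := b 0) hd0.continuousAt
              (continuousAt_const.sub continuousAt_id)
          have h2 : Tendsto (fun x : ℝ => FF θ (b i' - x) - FF θ (b i' - b 0)) (𝓝[≠] (b 0)) (𝓝 0) := by
            have h3 := (h1.tendsto.sub_const (FF θ (b i' - b 0))).mono_left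
              (nhdsWithin_le_nhds (s := {b 0}ᶜ))
            rwa [sub_self] at h3
          refine h2.congr fun x => ?_
          simp only [Matrix.of_apply, if_true, if_neg hi]
          have e0 : A x i 0 = FF θ (b i' - x) := by
            rw [hAF, hi']
            rfl
          have e1 : A x i 1 = FF θ (b i' - b 0) := by
            rw [hAF, hi']
            rfl
          rw [e0, e1]
        · obtain ⟨j', hj'⟩ : ∃ j' : Fin (L + 1), j = j'.succ := ⟨j.pred hj, (Fin.succ_pred _ hj).symm⟩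
          refine ⟨FF θ (b i' - b j'), ?_, fun hj0 => absurd hj0 hj⟩
          refine tendsto_const_nhds.congr fun x => ?_
          simp only [Matrix.of_apply, if_neg hi, if_neg hj]
          rw [hAF, hi', hj']
          rfl
    choose l hl1 hl2 using hent
    have hdet := n2_det_tendsto _ (Matrix.of l) hl1
    have hz : (Matrix.of l).det = 0 := Matrix.det_eq_zero_of_column_eq_zero 0 fun i => hl2 i 0 rfl
    rw [hz] at hdet
    have hsin : Tendsto (fun x : ℝ => (((x - b 0) / Real.sin (x - b 0) : ℝ) : ℂ)) (𝓝[≠] (b 0)) (𝓝 1) := by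
      have h1 : HasDerivAt (fun x : ℝ => Real.sin (x - b 0)) 1 (b 0) := by
        have h2 : HasDerivAt Real.sin 1 (b 0 - b 0) := by
          have := Real.hasDerivAt_sin (b 0 - b 0)
          rwa [sub_self, Real.cos_zero, ← sub_self (b 0)] at this
        exact h2.comp_sub_const (b 0) (b 0)
      have h2 := hasDerivAt_iff_tendsto_slope.1 h1
      have h3 := h2.inv₀ one_ne_zero
      rw [inv_one] at h3
      have h4 : Tendsto (fun x : ℝ => (x - b 0) / Real.sin (x - b 0)) (𝓝[≠] (b 0)) (𝓝 1) := by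
        refine h3.congr fun x => ?_
        rw [slope_def_field, sub_self, Real.sin_zero, sub_zero, inv_div]
      have h5 := (Complex.continuous_ofReal.tendsto 1).comp h4
      rwa [Complex.ofReal_one] at h5
    have hPQ : Tendsto (fun x : ℝ => (PQ (L + 2) (IPC.cons x b) : ℂ)) (𝓝[≠] (b 0))
        (𝓝 (PQ (L + 2) (IPC.cons (b 0) b) : ℂ)) := by
      have h1 : Continuous (fun x : ℝ => PQ (L + 2) (IPC.cons x b)) := by
        unfold PQ
        exact continuous_finsetProd _ fun j _ => continuous_finsetProd _ fun i _ =>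
          (n2_pp_cont b i j).pow 2
      exact ((Complex.continuous_ofReal.comp h1).tendsto (b 0)).mono_left nhdsWithin_le_nhds
    have hfin := (hPQ.mul hsin).mul hdet
    rw [mul_zero] at hfin
    refine hfin.congr' ?_
    have hev' : ∀ᶠ x in 𝓝[≠] (b 0), ∀ i < L + 2, ∀ j < L + 2, i ≠ j → pp (IPC.cons x b) i j ≠ 0 :=
      hev.filter_mono nhdsWithin_le_nhds
    filter_upwards [hev', self_mem_nhdsWithin] with x hx hxne
    have hx0 : ((x - b 0 : ℝ) : ℂ) ≠ 0 := Complex.ofReal_ne_zero.2 (sub_ne_zero.2 hxne)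
    rw [NN_det θ (L + 2) _ hx]
    have h1 := n2_det_reduce (A x) ((x - b 0 : ℝ) : ℂ) hx0
    have h2 : (Mm θ (L + 2) (IPC.cons x b)).det = (A x).det := rfl
    rw [h2, h1]
    push_cast
    ring

end OneArm
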