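import Pool.Agent.Helper18.OneArm.TwoVar
import Pool.Agent.Helper18.OneArm.NA2
import Pool.Agent.Helper18.OneArm.Fam
import Pool.Agent.Lead.IP.Trig

/-! MODULE Ident: a family with the axioms `Fam (2 cos theta)` is the determinant:
`Z (2n) b * SQ (2n) b = (-3/4)^n * NN theta (2n) b`. -/

namespace OneArm
open IP IPC Finset Real Filter Topology

/-! ### permutations -/

theorem swap_of_sw {α : Type*} {L : ℕ} {F : (ℕ → ℝ) → α} (h : ∀ i b, i + 1 < L → F (sw i b) = F b)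
    (m : ℕ) (hm : m < L) (r k : ℕ) (hk : k + (r + 1) = m) (b : ℕ → ℝ) :
    F (fun j => b (Equiv.swap k m j)) = F b := by
  induction r generalizing k b with
  | zero =>
    obtain rfl : m = k + 1 := by omega
    exact h k b hm
  | succ r ih =>
    have e : (fun j => b (Equiv.swap k m j)) =
        sw k (fun j => sw k b (Equiv.swap (k + 1) m j)) := by
      funext j
      unfold sw
      have h0 : Equiv.swap k (k + 1) * Equiv.swap (k + 1) m * Equiv.swap k (k + 1) =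
          Equiv.swap k m := by
        have h1 := Equiv.mul_swap_eq_swap_mul (Equiv.swap k (k + 1)) (k + 1) m
        rw [Equiv.swap_apply_right, Equiv.swap_apply_of_ne_of_ne (by omega) (by omega)] at h1
        rw [h1, mul_assoc, Equiv.swap_mul_self, mul_one]
      rw [← h0]
      rfl
    rw [e, h k _ (by omega), ih (k + 1) (by omega) (sw k b), h k _ (by omega)]

theorem swap_of_sw' {α : Type*} {L : ℕ} {F : (ℕ → ℝ) → α} (h : ∀ i b, i + 1 < L → F (sw i b) = F b)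
    {k m : ℕ} (hkm : k ≤ m) (hm : m < L) (b : ℕ → ℝ) : F (fun j => b (Equiv.swap k m j)) = F b := by
  rcases Nat.eq_or_lt_of_le hkm with h1 | h1
  · subst h1
    simp
  · exact swap_of_sw h m hm (m - k - 1) k (by omega) b

theorem cons_eq_update (x : ℝ) (c : ℕ → ℝ) : IPC.cons x c = Function.update (IPC.cons 0 c) 0 x := by
  funext j
  rcases j with _ | j
  · simp [IPC.cons]
  · simp [IPC.cons]

theorem cons_eta (b : ℕ → ℝ) : IPC.cons (b 0) (fun j => b (j + 1)) = b := by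
  funext j
  rcases j with _ | j <;> rfl

theorem cons_swap (x : ℝ) (c : ℕ → ℝ) (i : ℕ) :
    (fun j => IPC.cons x c (Equiv.swap 1 (i + 1) j)) = IPC.cons x (fun j => c (Equiv.swap 0 i j)) := by
  funext j
  rcases j with _ | j
  · rw [Equiv.swap_apply_of_ne_of_ne (by omega) (by omega)]
    rfl
  · show IPC.cons x c (Equiv.swap 1 (i + 1) (j + 1)) = c (Equiv.swap 0 i j)
    have h : Equiv.swap 1 (i + 1) (j + 1) = Equiv.swap 0 i j + 1 := by
      simp only [Equiv.swap_apply_def]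
      split_ifs <;> omega
    rw [h]
    rfl

/-! ### the product `SQ` -/

theorem SQ_succ (L : ℕ) (b : ℕ → ℝ) :
    SQ (L + 1) b = SQ L b * ∏ i ∈ range L, Real.sin (b i - b L) ^ 2 := by
  unfold SQ
  rw [prod_range_succ]

theorem SQ_congr (L : ℕ) {b b' : ℕ → ℝ} (h : ∀ j < L, b j = b' j) : SQ L b = SQ L b' := by
  unfold SQ
  refine prod_congr rfl fun j hj => prod_congr rfl fun i hi => ?_
  rw [mem_range] at hi hj
  rw [h j hj, h i (by omega)]

theorem SQ_cons (M : ℕ) (x : ℝ) (c : ℕ → ℝ) :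
    SQ (M + 1) (IPC.cons x c) = (∏ k ∈ range M, Real.sin (x - c k) ^ 2) * SQ M c := by
  unfold SQ
  rw [prod_range_succ']
  simp only [range_zero, prod_empty, mul_one]
  rw [← prod_mul_distrib]
  refine prod_congr rfl fun j _ => ?_
  rw [prod_range_succ', mul_comm]
  rfl

theorem prod_sw_range {L i : ℕ} (h : i + 1 < L) (g : ℝ → ℝ) (b : ℕ → ℝ) :
    ∏ j ∈ range L, g (sw i b j) = ∏ j ∈ range L, g (b j) := by
  unfold sw
  refine prod_equiv (Equiv.swap i (i + 1)) (fun j => ?_) (fun j _ => rfl)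
  simp only [mem_range, Equiv.swap_apply_def]
  split_ifs <;> omega

theorem sw_ne {i j : ℕ} (h1 : j ≠ i) (h2 : j ≠ i + 1) (b : ℕ → ℝ) : sw i b j = b j := by
  unfold sw
  rw [Equiv.swap_apply_of_ne_of_ne h1 h2]

theorem sw_left (i : ℕ) (b : ℕ → ℝ) : sw i b i = b (i + 1) := by
  unfold sw
  rw [Equiv.swap_apply_left]

theorem sw_right (i : ℕ) (b : ℕ → ℝ) : sw i b (i + 1) = b i := by
  unfold sw
  rw [Equiv.swap_apply_right]

theorem SQ_sw {L i : ℕ} (h : i + 1 < L) (b : ℕ → ℝ) : SQ L (sw i b) = SQ L b := by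
  induction L with
  | zero => omega
  | succ L ih =>
    rw [SQ_succ, SQ_succ]
    by_cases h1 : i + 1 < L
    · rw [ih h1, sw_ne (by omega) (by omega)]
      congr 1
      exact prod_sw_range h1 (fun t => Real.sin (t - b L) ^ 2) b
    · obtain rfl : L = i + 1 := by omega
      rw [SQ_succ, SQ_succ, prod_range_succ, prod_range_succ, sw_left, sw_right]
      have e1 : SQ i (sw i b) = SQ i b := SQ_congr i fun j hj => sw_ne (by omega) (by omega) b
      have e2 : ∀ a : ℝ, ∏ j ∈ range i, Real.sin (sw i b j - a) ^ 2 = ∏ j ∈ range i, Real.sin (b j - a) ^ 2 := by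
        intro a
        refine prod_congr rfl fun j hj => ?_
        rw [mem_range] at hj
        rw [sw_ne (by omega) (by omega)]
      have e3 : Real.sin (b (i + 1) - b i) ^ 2 = Real.sin (b i - b (i + 1)) ^ 2 := by
        rw [show b (i + 1) - b i = -(b i - b (i + 1)) by ring, Real.sin_neg, neg_sq]
      rw [e1, e2, e2, e3]
      ring

theorem SQ_TPC (M : ℕ) (c : ℕ → ℝ) : TPC (2 * M) (fun x => ((SQ (M + 1) (IPC.cons x c) : ℝ) : ℂ)) := by
  have h := tc_TPC_prod_const (range M) 2 (fun i x => ((Real.sin (x - c i) ^ 2 : ℝ) : ℂ)) (fun i _ => TPC_sin2 (c i))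
  rw [card_range, mul_comm] at h
  refine tc_TPC_congr (h.mul (tc_TPC_const ((SQ M c : ℝ) : ℂ))) fun x => ?_
  rw [SQ_cons]
  push_cast
  rfl

theorem tc_SQ (M : ℕ) (c : ℕ → ℝ) : tc (2 * M) (fun x => ((SQ (M + 1) (IPC.cons x c) : ℝ) : ℂ)) =
    (∏ k ∈ range M, (-(1 / 4) * Complex.exp (-(2 * c k * Complex.I)))) * ((SQ M c : ℝ) : ℂ) := by
  have h := tc_prod_const (range M) 2 (fun i x => ((Real.sin (x - c i) ^ 2 : ℝ) : ℂ)) (fun i _ => TPC_sin2 (c i))
  rw [card_range, mul_comm] at h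
  rw [show (∏ k ∈ range M, (-(1 / 4) * Complex.exp (-(2 * c k * Complex.I)))) =
    ∏ k ∈ range M, tc 2 (fun x : ℝ => ((Real.sin (x - c k) ^ 2 : ℝ) : ℂ)) from
    prod_congr rfl fun k _ => (tc_sin2 (c k)).symm, ← h, ← tc_mul_const]
  refine tc_congr fun x => ?_
  rw [SQ_cons]
  push_cast
  rfl

/-! ### the top coefficient of `NN` -/

theorem TPC_ss2 (y : ℝ) : TPC 4 (fun x : ℝ => (((s (x - y) * s (y - x)) ^ 2 : ℝ) : ℂ)) := by
  refine tc_TPC_congr ((TPC_ss y).mul (TPC_ss y)) fun x => ?_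
  push_cast
  ring

theorem tc_ss2 (y : ℝ) : tc 4 (fun x : ℝ => (((s (x - y) * s (y - x)) ^ 2 : ℝ) : ℂ)) =
    1 / 16 * Complex.exp (-(4 * y * Complex.I)) := by
  have h1 := tc_mul (TPC_ss y) (TPC_ss y)
  rw [tc_ss] at h1
  have h2 : tc (2 + 2) (fun x : ℝ => ((s (x - y) * s (y - x) : ℝ) : ℂ) * ((s (x - y) * s (y - x) : ℝ) : ℂ)) =
      tc 4 (fun x : ℝ => (((s (x - y) * s (y - x)) ^ 2 : ℝ) : ℂ)) := by
    refine tc_congr fun x => ?_
    push_cast
    ring
  rw [← h2, h1]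
  have e1 : Complex.exp (-(4 * y * Complex.I)) = Complex.exp (-(2 * y * Complex.I)) * Complex.exp (-(2 * y * Complex.I)) := by
    rw [← Complex.exp_add]; congr 1; ring
  rw [e1]
  ring

theorem tc_NN (θ : ℝ) (M : ℕ) (c : ℕ → ℝ) : tc (4 * M) (fun x => NN θ (M + 1) (IPC.cons x c)) =
    aa θ * (∏ k ∈ range M, (1 / 16 * Complex.exp (-(4 * c k * Complex.I)))) * NN θ M c := by
  rcases M with _ | m
  · have h : (fun x => NN θ (0 + 1) (IPC.cons x c)) = fun _ : ℝ => aa θ := by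
      funext x
      exact NN_one θ _
    rw [h, NN_zero]
    simp [tc_const]
  · have h1 := tc_lower 1 one_ne_zero (NN_top θ m c)
    rw [show 4 * m + 2 + 2 * 1 = 4 * (m + 1) by ring, tc_sub, sub_eq_zero] at h1
    rw [h1]
    have h2 := tc_prod_const (range (m + 1)) 4 (fun i x => (((s (x - c i) * s (c i - x)) ^ 2 : ℝ) : ℂ))
      (fun i _ => TPC_ss2 (c i))
    rw [card_range, mul_comm] at h2
    rw [show (∏ k ∈ range (m + 1), (1 / 16 * Complex.exp (-(4 * c k * Complex.I)))) =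
      ∏ k ∈ range (m + 1), tc 4 (fun x : ℝ => (((s (x - c k) * s (c k - x)) ^ 2 : ℝ) : ℂ)) from
      prod_congr rfl fun k _ => (tc_ss2 (c k)).symm, ← h2, mul_assoc, ← tc_mul_const, ← tc_const_mul]
    refine tc_congr fun x => ?_
    push_cast
    ring

/-! ### the difference function -/

/-- `Z * SQ - κ * NN` -/
noncomputable def Df (θ : ℝ) (κ : ℂ) (L : ℕ) (Z : (ℕ → ℝ) → ℝ) (b : ℕ → ℝ) : ℂ :=
  ((Z b : ℝ) : ℂ) * ((SQ L b : ℝ) : ℂ) - κ * NN θ L b

theorem Df_sw {θ : ℝ} {κ : ℂ} {L : ℕ} {Z : (ℕ → ℝ) → ℝ} (hZ : ∀ i b, i + 1 < L → Z (sw i b) = Z b) :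
    ∀ i b, i + 1 < L → Df θ κ L Z (sw i b) = Df θ κ L Z b := by
  intro i b hi
  unfold Df
  rw [hZ i b hi, SQ_sw hi, NN_sw θ hi]

theorem Df_TPC {θ : ℝ} {κ : ℂ} {n : ℕ} {Z : (ℕ → ℝ) → ℝ} (hZ : Sep (2 * n + 2) (2 * (2 * n + 1)) Z) (c : ℕ → ℝ) :
    TPC (4 * (2 * n + 1)) (fun x => Df θ κ (2 * n + 2) Z (IPC.cons x c)) := by
  have h1 : TPC (2 * (2 * n + 1)) (fun x => ((Z (IPC.cons x c) : ℝ) : ℂ)) := by
    refine tc_TPC_congr (TPC.of_TP (hZ.1 (IPC.cons 0 c) 0 (by omega))) fun x => ?_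
    rw [cons_eq_update]
  have h2 := h1.mul (SQ_TPC (2 * n + 1) c)
  rw [show 2 * (2 * n + 1) + 2 * (2 * n + 1) = 4 * (2 * n + 1) by ring] at h2
  exact h2.sub ((NN_TPC θ (2 * n + 1) c).const_mul κ)

theorem sq_two (b : ℕ → ℝ) (L : ℕ) (h : b 1 = b 0 + π / 3) : SQ (L + 2) b =
    3 / 4 * (∏ k ∈ range L, (Real.sin (b 0 - b (k + 2)) ^ 2 * Real.sin (b 1 - b (k + 2)) ^ 2)) *
      SQ L (fun j => b (j + 2)) := by
  have h1 : b = IPC.cons (b 0) (IPC.cons (b 1) (fun j => b (j + 2))) := by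
    funext j
    rcases j with _ | _ | j <;> rfl
  conv_lhs => rw [h1]
  rw [SQ_cons, SQ_cons, prod_range_succ', prod_mul_distrib]
  have h2 : Real.sin (b 0 - IPC.cons (b 1) (fun j => b (j + 2)) 0) ^ 2 = 3 / 4 := by
    show Real.sin (b 0 - b 1) ^ 2 = 3 / 4
    rw [h, show b 0 - (b 0 + π / 3) = -(π / 3) by ring, Real.sin_neg, neg_sq, Real.sin_pi_div_three, div_pow,
      Real.sq_sqrt (by norm_num)]
    norm_num
  rw [h2]
  have h3 : ∀ k, IPC.cons (b 1) (fun j => b (j + 2)) (k + 1) = b (k + 2) := fun k => rfl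
  simp only [h3]
  ring

/-- the difference vanishes at the recursion points -/
theorem Df_rec {θ : ℝ} {n : ℕ} {Z Z' : (ℕ → ℝ) → ℝ}
    (hrec : ∀ b, b 1 = b 0 + π / 3 → Z b =
      3 / 4 * (∏ k ∈ range (2 * n), s (b (k + 2) - b 0) ^ 4) * Z' (fun j => b (j + 2)))
    (hind : ∀ b, ((Z' b : ℝ) : ℂ) * ((SQ (2 * n) b : ℝ) : ℂ) = (-(3 / 4)) ^ n * NN θ (2 * n) b)
    (b : ℕ → ℝ) (h : b 1 = b 0 + π / 3) : Df θ ((-(3 / 4)) ^ (n + 1)) (2 * n + 2) Z b = 0 := by
  unfold Df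
  rw [hrec b h, NN_rec θ (2 * n) b h, sq_two b (2 * n) h]
  have h1 := hind (fun j => b (j + 2))
  have h2 : ((∏ k ∈ range (2 * n), (s (b (k + 2) - b 0) ^ 4 * (Real.sin (b 0 - b (k + 2)) ^ 2 *
        Real.sin (b 1 - b (k + 2)) ^ 2)) : ℝ) : ℂ) =
      ((∏ k ∈ range (2 * n), s (b (k + 2) - b 0) ^ 4 : ℝ) : ℂ) *
      ((∏ k ∈ range (2 * n), (Real.sin (b 0 - b (k + 2)) ^ 2 * Real.sin (b 1 - b (k + 2)) ^ 2) : ℝ) : ℂ) := by
    rw [← Complex.ofReal_mul, ← prod_mul_distrib]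
  rw [h2]
  set A : ℝ := ∏ k ∈ range (2 * n), s (b (k + 2) - b 0) ^ 4
  set B : ℝ := ∏ k ∈ range (2 * n), (Real.sin (b 0 - b (k + 2)) ^ 2 * Real.sin (b 1 - b (k + 2)) ^ 2)
  push_cast
  linear_combination (9 / 16 : ℂ) * A * B * h1

theorem Good_perm {M : ℕ} {c : ℕ → ℝ} (h : Good M c) {i : ℕ} (hi : i < M) :
    Good M (fun j => c (Equiv.swap 0 i j)) := by
  intro k hk l hl hkl
  have hlt : ∀ j < M, Equiv.swap 0 i j < M := by
    intro j hj
    rw [Equiv.swap_apply_def]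
    split_ifs <;> omega
  exact h _ (hlt k hk) _ (hlt l hl) (fun h' => hkl ((Equiv.swap 0 i).injective h'))

theorem Good_pp {M : ℕ} {c : ℕ → ℝ} (h : Good M c) : ∀ i < M, ∀ j < M, i ≠ j → pp c i j ≠ 0 := by
  intro i hi j hj hij
  obtain ⟨_, h2, h3⟩ := h i hi j hj hij
  unfold pp s
  refine mul_ne_zero (by rwa [add_comm]) ?_
  rw [show π / 3 + (c j - c i) = -(c i - c j - π / 3) by ring, Real.sin_neg, neg_ne_zero]
  exact h3

theorem Df_double {θ : ℝ} {κ : ℂ} {n : ℕ} {Z : (ℕ → ℝ) → ℝ} (hZ : Sep (2 * n + 2) (2 * (2 * n + 1)) Z)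
    (hsw : ∀ i b, i + 1 < 2 * n + 2 → Z (sw i b) = Z b) {c : ℕ → ℝ} (hc : Good (2 * n + 1) c) {i : ℕ}
    (hi : i < 2 * n + 1) :
    Df θ κ (2 * n + 2) Z (IPC.cons (c i) c) = 0 ∧
    Tendsto (fun x : ℝ => Df θ κ (2 * n + 2) Z (IPC.cons x c) / ((Real.sin (x - c i) : ℝ) : ℂ))
      (𝓝[≠] (c i)) (𝓝 0) := by
  set c' : ℕ → ℝ := fun j => c (Equiv.swap 0 i j) with hc'
  have hc0 : c' 0 = c i := by rw [hc']; simp
  have hperm : ∀ x, Df θ κ (2 * n + 2) Z (IPC.cons x c) = Df θ κ (2 * n + 2) Z (IPC.cons x c') := by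
    intro x
    rw [hc', ← cons_swap x c i]
    exact (swap_of_sw' (Df_sw hsw) (k := 1) (m := i + 1) (by omega) (by omega) _).symm
  have hgood : Good (2 * n + 1) c' := Good_perm hc hi
  obtain ⟨hd1, hd2⟩ := NN_double θ (2 * n) c' (Good_pp hgood)
  rw [hc0] at hd1 hd2
  have hsq : ∀ x, SQ (2 * n + 2) (IPC.cons x c') = Real.sin (x - c i) ^ 2 *
      ((∏ k ∈ range (2 * n), Real.sin (x - c' (k + 1)) ^ 2) * SQ (2 * n + 1) c') := by
    intro x
    rw [SQ_cons, prod_range_succ', hc0]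
    ring
  constructor
  · rw [hperm]
    unfold Df
    rw [hsq, hd1, sub_self, Real.sin_zero]
    simp
  · have hcont : Continuous (fun x : ℝ => ((Real.sin (x - c i) : ℝ) : ℂ) *
        ((Z (IPC.cons x c') * ((∏ k ∈ range (2 * n), Real.sin (x - c' (k + 1)) ^ 2) * SQ (2 * n + 1) c') : ℝ) : ℂ)) := by
      have h1 : Continuous (fun x : ℝ => Z (IPC.cons x c')) := by
        have h2 : Continuous (fun x : ℝ => IPC.cons x c') := by
          refine continuous_pi fun j => ?_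
          rcases j with _ | j
          · exact continuous_id
          · exact continuous_const
        exact hZ.continuous.comp h2
      have h3 : Continuous (fun x : ℝ => (∏ k ∈ range (2 * n), Real.sin (x - c' (k + 1)) ^ 2) * SQ (2 * n + 1) c') := by
        fun_prop
      have h4 : Continuous (fun x : ℝ => Real.sin (x - c i)) := by fun_prop
      exact (Complex.continuous_ofReal.comp h4).mul (Complex.continuous_ofReal.comp (h1.mul h3))
    have h3 : Tendsto (fun x : ℝ => ((Real.sin (x - c i) : ℝ) : ℂ) *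
        ((Z (IPC.cons x c') * ((∏ k ∈ range (2 * n), Real.sin (x - c' (k + 1)) ^ 2) * SQ (2 * n + 1) c') : ℝ) : ℂ))
        (𝓝[≠] (c i)) (𝓝 0) := by
      have h4 := hcont.tendsto (c i)
      rw [sub_self, Real.sin_zero] at h4
      simp only [Complex.ofReal_zero, zero_mul] at h4
      exact h4.mono_left nhdsWithin_le_nhds
    have h5 := h3.sub (hd2.const_mul κ)
    rw [mul_zero, sub_zero] at h5
    refine h5.congr' ?_
    filter_upwards [sin_ne_punctured (c i) (c i)] with x hx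
    have hx' : ((Real.sin (x - c i) : ℝ) : ℂ) ≠ 0 := by exact_mod_cast hx
    rw [hperm]
    unfold Df
    rw [hsq]
    push_cast
    field_simp

/-- the zeros at `c i ± π/3` -/
theorem Df_simple {θ : ℝ} {n : ℕ} {Z Z' : (ℕ → ℝ) → ℝ}
    (hsw : ∀ i b, i + 1 < 2 * n + 2 → Z (sw i b) = Z b)
    (hrec : ∀ b, b 1 = b 0 + π / 3 → Z b =
      3 / 4 * (∏ k ∈ range (2 * n), s (b (k + 2) - b 0) ^ 4) * Z' (fun j => b (j + 2)))
    (hind : ∀ b, ((Z' b : ℝ) : ℂ) * ((SQ (2 * n) b : ℝ) : ℂ) = (-(3 / 4)) ^ n * NN θ (2 * n) b)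
    (c : ℕ → ℝ) {i : ℕ} (hi : i < 2 * n + 1) :
    Df θ ((-(3 / 4)) ^ (n + 1)) (2 * n + 2) Z (IPC.cons (c i + π / 3) c) = 0 ∧
    Df θ ((-(3 / 4)) ^ (n + 1)) (2 * n + 2) Z (IPC.cons (c i - π / 3) c) = 0 := by
  have hm : ∀ c : ℕ → ℝ, Df θ ((-(3 / 4)) ^ (n + 1)) (2 * n + 2) Z (IPC.cons (c i - π / 3) c) = 0 := by
    intro c
    have h1 := swap_of_sw' (Df_sw (θ := θ) (κ := (-(3 / 4)) ^ (n + 1)) hsw) (k := 1) (m := i + 1)
      (by omega) (by omega) (IPC.cons (c i - π / 3) c)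
    rw [← h1, cons_swap]
    refine Df_rec hrec hind _ ?_
    show c (Equiv.swap 0 i 0) = c i - π / 3 + π / 3
    rw [Equiv.swap_apply_left]
    ring
  refine ⟨?_, hm c⟩
  -- exchange the coordinates `0` and `i + 1`
  set b : ℕ → ℝ := IPC.cons (c i + π / 3) c with hb
  have h1 := swap_of_sw' (Df_sw (θ := θ) (κ := (-(3 / 4)) ^ (n + 1)) hsw) (k := 0) (m := i + 1)
    (by omega) (by omega) b
  rw [← h1]
  have h2 : (fun j => b (Equiv.swap 0 (i + 1) j)) =
      IPC.cons ((fun j => b (Equiv.swap 0 (i + 1) (j + 1))) i - π / 3)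
        (fun j => b (Equiv.swap 0 (i + 1) (j + 1))) := by
    funext j
    rcases j with _ | j
    · show b (Equiv.swap 0 (i + 1) 0) = b (Equiv.swap 0 (i + 1) (i + 1)) - π / 3
      rw [Equiv.swap_apply_left, Equiv.swap_apply_right]
      show c i = c i + π / 3 - π / 3
      ring
    · rfl
  rw [h2]
  exact hm (fun j => b (Equiv.swap 0 (i + 1) (j + 1)))

theorem sin_line_ne (e : ℝ) {d : ℝ} (hd : d ≠ 0) : ∀ᶠ t : ℝ in 𝓝[≠] 0, Real.sin (e + t * d) ≠ 0 := by
  by_cases h : Real.sin e = 0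
  · have h1 : HasDerivAt (fun t : ℝ => Real.sin (e + t * d)) (Real.cos (e + 0 * d) * d) 0 := by
      have h2 : HasDerivAt (fun t : ℝ => e + t * d) d 0 := by
        simpa using ((hasDerivAt_id (0 : ℝ)).mul_const d).const_add e
      exact h2.sin
    have hc : Real.cos (e + 0 * d) * d ≠ 0 := by
      refine mul_ne_zero ?_ hd
      rw [zero_mul, add_zero]
      intro hc
      have := Real.sin_sq_add_cos_sq e
      rw [h, hc] at this
      norm_num at this
    have := h1.eventually_ne hc (c := 0)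
    simpa using this
  · have hcont : Continuous (fun t : ℝ => Real.sin (e + t * d)) := by fun_prop
    have h0 : Real.sin (e + 0 * d) ≠ 0 := by simpa using h
    exact (hcont.continuousAt.eventually_ne h0).filter_mono nhdsWithin_le_nhds

theorem Good_line (M : ℕ) (b v : ℕ → ℝ) (hv : ∀ i j, i ≠ j → v i ≠ v j) :
    ∀ᶠ t : ℝ in 𝓝[≠] 0, Good M (fun j => b j + t * v j) := by
  have h1 : ∀ q ∈ (range M ×ˢ range M), ∀ᶠ t : ℝ in 𝓝[≠] 0, q.1 ≠ q.2 →
      Real.sin (b q.1 + t * v q.1 - (b q.2 + t * v q.2)) ≠ 0 ∧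
      Real.sin (b q.1 + t * v q.1 - (b q.2 + t * v q.2) + π / 3) ≠ 0 ∧
      Real.sin (b q.1 + t * v q.1 - (b q.2 + t * v q.2) - π / 3) ≠ 0 := by
    intro q _
    by_cases hq : q.1 = q.2
    · exact Eventually.of_forall fun t h => absurd hq h
    · have hd : v q.1 - v q.2 ≠ 0 := sub_ne_zero.2 (hv _ _ hq)
      filter_upwards [sin_line_ne (b q.1 - b q.2) hd, sin_line_ne (b q.1 - b q.2 + π / 3) hd,
        sin_line_ne (b q.1 - b q.2 - π / 3) hd] with t h2 h3 h4 _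
      refine ⟨?_, ?_, ?_⟩
      · rwa [show b q.1 + t * v q.1 - (b q.2 + t * v q.2) = b q.1 - b q.2 + t * (v q.1 - v q.2) by ring]
      · rwa [show b q.1 + t * v q.1 - (b q.2 + t * v q.2) + π / 3 =
          b q.1 - b q.2 + π / 3 + t * (v q.1 - v q.2) by ring]
      · rwa [show b q.1 + t * v q.1 - (b q.2 + t * v q.2) - π / 3 =
          b q.1 - b q.2 - π / 3 + t * (v q.1 - v q.2) by ring]
  have h2 := (Finset.eventually_all (range M ×ˢ range M)).2 h1
  filter_upwards [h2] with t ht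
  intro i hi j hj hij
  exact ht (i, j) (by simp [hi, hj]) hij

theorem aa_sq (θ : ℝ) : aa θ ^ 2 = ((4 / 3 * (2 * Real.cos θ + 2) : ℝ) : ℂ) := by
  unfold aa s
  rw [add_zero, ← Complex.ofReal_pow]
  congr 1
  rw [Real.sin_pi_div_three, div_pow, div_pow, Real.sq_sqrt (by norm_num), mul_pow]
  have := Real.cos_sq (θ / 2)
  rw [show 2 * (θ / 2) = θ by ring] at this
  rw [this]
  ring

/-- the leading coefficient condition -/
theorem Df_lead {θ : ℝ} {n : ℕ} {Z Z' : (ℕ → ℝ) → ℝ} (hZ : Sep (2 * n + 2) (2 * (2 * n + 1)) Z)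
    (hl1 : ∀ β, TPC (2 * (2 * n)) (ld (2 * n) Z β))
    (hl2 : ∀ β, tc (2 * (2 * n)) (ld (2 * n) Z β) = ((2 * Real.cos θ + 2) / 4 : ℝ) *
      (∏ k ∈ range (2 * n), ((1 / 16) * Complex.exp (-(4 * β k * Complex.I)))) * ((Z' β : ℝ) : ℂ))
    (hind : ∀ b, ((Z' b : ℝ) : ℂ) * ((SQ (2 * n) b : ℝ) : ℂ) = (-(3 / 4)) ^ n * NN θ (2 * n) b) (β : ℕ → ℝ) :
    tc (4 * (2 * n)) (fun y => Complex.exp (4 * y * Complex.I) * tc (4 * (2 * n + 1))
      (fun x => Df θ ((-(3 / 4)) ^ (n + 1)) (2 * n + 2) Z (IPC.cons x (IPC.cons y β)))) = 0 := by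
  set m := 2 * n with hm
  set κ : ℂ := (-(3 / 4)) ^ (n + 1) with hκ
  set PA : ℂ := ∏ k ∈ range m, (-(1 / 4) * Complex.exp (-(2 * β k * Complex.I))) with hPA
  set PB : ℂ := ∏ k ∈ range m, (1 / 16 * Complex.exp (-(4 * β k * Complex.I))) with hPB
  have hPAB : PA * PA = PB := by
    rw [hPA, hPB, ← prod_mul_distrib]
    refine prod_congr rfl fun k _ => ?_
    have e1 : Complex.exp (-(4 * β k * Complex.I)) = Complex.exp (-(2 * β k * Complex.I)) * Complex.exp (-(2 * β k * Complex.I)) := by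
      rw [← Complex.exp_add]; congr 1; ring
    rw [e1]
    ring
  have hy : ∀ y : ℝ, Complex.exp (4 * y * Complex.I) * tc (4 * (m + 1))
      (fun x => Df θ κ (m + 2) Z (IPC.cons x (IPC.cons y β))) =
      (-(1 / 4) * PA) * (ld m Z β y * ((SQ (m + 1) (IPC.cons y β) : ℝ) : ℂ)) -
        (κ * (aa θ * (1 / 16 * PB))) * NN θ (m + 1) (IPC.cons y β) := by
    intro y
    have hZx : TPC (2 * (m + 1)) (fun x => ((Z (IPC.cons x (IPC.cons y β)) : ℝ) : ℂ)) := by
      refine tc_TPC_congr (TPC.of_TP (hZ.1 (IPC.cons 0 (IPC.cons y β)) 0 (by omega))) fun x => ?_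
      rw [cons_eq_update]
    have h1 := tc_mul hZx (SQ_TPC (m + 1) (IPC.cons y β))
    rw [show 2 * (m + 1) + 2 * (m + 1) = 4 * (m + 1) by ring] at h1
    have h2 : tc (4 * (m + 1)) (fun x => Df θ κ (m + 2) Z (IPC.cons x (IPC.cons y β))) =
        tc (2 * (m + 1)) (fun x => ((Z (IPC.cons x (IPC.cons y β)) : ℝ) : ℂ)) *
          tc (2 * (m + 1)) (fun x => ((SQ (m + 1 + 1) (IPC.cons x (IPC.cons y β)) : ℝ) : ℂ)) -
        κ * tc (4 * (m + 1)) (fun x => NN θ (m + 1 + 1) (IPC.cons x (IPC.cons y β))) := by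
      rw [← h1, ← tc_const_mul, ← tc_sub]
      rfl
    rw [h2, tc_SQ, tc_NN]
    have h3 : ∏ k ∈ range (m + 1), (-(1 / 4) * Complex.exp (-(2 * IPC.cons y β k * Complex.I))) =
        PA * (-(1 / 4) * Complex.exp (-(2 * y * Complex.I))) := by
      rw [prod_range_succ']
      rfl
    have h4 : ∏ k ∈ range (m + 1), (1 / 16 * Complex.exp (-(4 * IPC.cons y β k * Complex.I))) =
        PB * (1 / 16 * Complex.exp (-(4 * y * Complex.I))) := by
      rw [prod_range_succ']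
      rfl
    rw [h3, h4]
    unfold ld
    have e1 : Complex.exp (4 * y * Complex.I) = Complex.exp (2 * y * Complex.I) * Complex.exp (2 * y * Complex.I) := by
      rw [← Complex.exp_add]; congr 1; ring
    have e2 : Complex.exp (2 * y * Complex.I) * Complex.exp (-(2 * y * Complex.I)) = 1 := by
      rw [← Complex.exp_add]; simp
    have e3 : Complex.exp (4 * y * Complex.I) * Complex.exp (-(4 * y * Complex.I)) = 1 := by
      rw [← Complex.exp_add]; simp
    set T := tc (2 * (m + 1)) (fun x => ((Z (IPC.cons x (IPC.cons y β)) : ℝ) : ℂ))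
    set S1 := ((SQ (m + 1) (IPC.cons y β) : ℝ) : ℂ)
    set N1 := NN θ (m + 1) (IPC.cons y β)
    rw [mul_sub]
    have hA : Complex.exp (4 * y * Complex.I) * (T * (PA * (-(1 / 4) * Complex.exp (-(2 * y * Complex.I))) * S1)) =
        -(1 / 4) * PA * (Complex.exp (2 * y * Complex.I) * T * S1) := by
      rw [e1]
      linear_combination (-(1 / 4) * PA * T * S1 * Complex.exp (2 * y * Complex.I)) * e2
    have hB : Complex.exp (4 * y * Complex.I) * (κ * (aa θ * (PB * (1 / 16 * Complex.exp (-(4 * y * Complex.I)))) * N1)) =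
        κ * (aa θ * (1 / 16 * PB)) * N1 := by
      linear_combination (κ * aa θ * PB * (1 / 16) * N1) * e3
    rw [hA, hB]
  rw [tc_congr hy, tc_sub, tc_const_mul, tc_const_mul, tc_NN]
  have h5 := tc_mul (hl1 β) (SQ_TPC m β)
  rw [show 2 * m + 2 * m = 4 * m by ring] at h5
  rw [h5, tc_SQ, hl2 β]
  have h6 := hind β
  have h7 := aa_sq θ
  rw [← hPA, ← hPB]
  have h8 : κ = -(3 / 4) * (-(3 / 4)) ^ n := by
    rw [hκ, pow_succ]
    ring
  rw [h8]
  push_cast at h7 ⊢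
  set Cn : ℂ := (-(3 / 4)) ^ n
  set C := Complex.cos θ
  linear_combination (-(1 / 16) * (2 * C + 2) * PB * PB) * h6 +
    (-(1 / 16) * (2 * C + 2) * PB * (Z' β : ℂ) * (SQ m β : ℂ)) * hPAB +
    ((3 / 4) * Cn * (1 / 16) * PB * PB * NN θ m β) * h7

/-- MAIN: the determinant formula -/
theorem Fam_eq {θ : ℝ} {Z : ℕ → (ℕ → ℝ) → ℝ} (hF : Fam (2 * Real.cos θ) Z) (n : ℕ) :
    ∀ b, ((Z (2 * n) b : ℝ) : ℂ) * ((SQ (2 * n) b : ℝ) : ℂ) = (-(3 / 4)) ^ n * NN θ (2 * n) b := by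
  induction n with
  | zero =>
    intro b
    rw [mul_zero, hF.zero, NN_zero]
    simp [SQ]
  | succ n ih =>
    intro b
    rw [show 2 * (n + 1) = 2 * n + 2 by ring]
    have hgen : ∀ β, Good (2 * n) β → ∀ x y,
        Df θ ((-(3 / 4)) ^ (n + 1)) (2 * n + 2) (Z (2 * n + 2)) (IPC.cons x (IPC.cons y β)) = 0 := by
      intro β hβ
      refine two_var hβ (fun x y => Df θ ((-(3 / 4)) ^ (n + 1)) (2 * n + 2) (Z (2 * n + 2))
        (IPC.cons x (IPC.cons y β))) ?_ ?_ ?_ ?_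
      · intro x y
        have h1 := Df_sw (θ := θ) (κ := (-(3 / 4)) ^ (n + 1)) (hF.swp n) 0 (IPC.cons x (IPC.cons y β)) (by omega)
        beta_reduce
        rw [← h1]
        congr 1
        funext j
        rcases j with _ | _ | j
        · rw [sw_left]; rfl
        · exact sw_right 0 _
        · rw [sw_ne (by omega) (by omega)]; rfl
      · intro y
        exact Df_TPC (hF.sep n) _
      · intro y hy
        exact fac_A hy (Df_TPC (hF.sep n) _)
          (fun i hi => (Df_double (hF.sep n) (hF.swp n) hy hi).1)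
          (fun i hi => (Df_double (hF.sep n) (hF.swp n) hy hi).2)
          (fun i hi => (Df_simple (hF.swp n) (hF.recu n) ih _ hi).1)
          (fun i hi => (Df_simple (hF.swp n) (hF.recu n) ih _ hi).2)
      · exact Df_lead (hF.sep n) (hF.lead1 n) (hF.lead2 n) ih β
    -- all parameters by continuity
    have hline : Df θ ((-(3 / 4)) ^ (n + 1)) (2 * n + 2) (Z (2 * n + 2)) (fun j => b j + 0 * (j : ℝ)) = 0 := by
      have hc1 : Continuous (fun t : ℝ => Df θ ((-(3 / 4)) ^ (n + 1)) (2 * n + 2) (Z (2 * n + 2))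
          (fun j => b j + t * (j : ℝ))) := by
        unfold Df
        have h1 : Continuous (fun t : ℝ => (fun j : ℕ => b j + t * (j : ℝ))) := by fun_prop
        have h2 : Continuous (fun t : ℝ => Z (2 * n + 2) (fun j => b j + t * (j : ℝ))) :=
          (hF.sep n).continuous.comp h1
        have h3 : Continuous (fun t : ℝ => SQ (2 * n + 2) (fun j => b j + t * (j : ℝ))) := by
          unfold SQ
          fun_prop
        have h4 := NN_continuous_line θ (2 * n + 2) b (fun j => (j : ℝ))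
        exact ((Complex.continuous_ofReal.comp h2).mul (Complex.continuous_ofReal.comp h3)).sub
          (continuous_const.mul h4)
      refine eq_of_punctured hc1 (continuous_const (y := (0 : ℂ))) 0 ?_
      have hv : ∀ i j : ℕ, i ≠ j → ((i + 2 : ℕ) : ℝ) ≠ ((j + 2 : ℕ) : ℝ) := by
        intro i j hij h
        have : i + 2 = j + 2 := by exact_mod_cast h
        omega
      filter_upwards [Good_line (2 * n) (fun j => b (j + 2)) (fun j => ((j + 2 : ℕ) : ℝ)) hv] with t ht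
      have h1 := hgen _ ht (b 0 + t * ((0 : ℕ) : ℝ)) (b 1 + t * ((1 : ℕ) : ℝ))
      rw [← h1]
      congr 1
      funext j
      rcases j with _ | _ | j <;> rfl
    have h0 : (fun j : ℕ => b j + 0 * (j : ℝ)) = b := by
      funext j
      ring
    rw [h0] at hline
    exact sub_eq_zero.1 hline

end OneArm
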