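import Pool.Agent.Helper18.OneArm.NDefs

/-! MODULE NA: the polynomial determinant `NN` (owner helper67).
`cons x b` is `(x, b 0, b 1, ...)` (IPC.Defs), `sw i b` exchanges `b i`, `b (i+1)` (IP.Defs). -/

namespace OneArm
open IP IPC Finset Real Filter Topology

theorem NN_zero (θ : ℝ) (b : ℕ → ℝ) : NN θ 0 b = 1 := by
  unfold NN
  exact Matrix.det_isEmpty

theorem na_RR_congr (θ : ℝ) (L : ℕ) {b b' : ℕ → ℝ} (h : ∀ j < L, b j = b' j) : RR θ L b = RR θ L b' := by
  ext i j
  have hi := h i i.2
  have hj := h j j.2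
  simp only [RR, Matrix.of_apply]
  split_ifs with hij
  · have : ∏ k ∈ (range L).erase (i : ℕ), pp b i k = ∏ k ∈ (range L).erase (i : ℕ), pp b' i k := by
      refine Finset.prod_congr rfl fun k hk => ?_
      have hk' := h k (Finset.mem_range.mp (Finset.mem_of_mem_erase hk))
      simp only [pp, hi, hk']
    rw [this]
  · have : ∏ k ∈ ((range L).erase (i : ℕ)).erase (j : ℕ), pp b i k =
        ∏ k ∈ ((range L).erase (i : ℕ)).erase (j : ℕ), pp b' i k := by
      refine Finset.prod_congr rfl fun k hk => ?_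
      have hk' := h k (Finset.mem_range.mp (Finset.mem_of_mem_erase (Finset.mem_of_mem_erase hk)))
      simp only [pp, hi, hk']
    rw [this]
    simp only [mm, hi, hj]

theorem NN_congr (θ : ℝ) (L : ℕ) {b b' : ℕ → ℝ} (h : ∀ j < L, b j = b' j) : NN θ L b = NN θ L b' := by
  unfold NN
  rw [na_RR_congr θ L h]

/-- simultaneous permutation of rows and columns -/
theorem NN_sw (θ : ℝ) {L i : ℕ} (h : i + 1 < L) (b : ℕ → ℝ) : NN θ L (sw i b) = NN θ L b := by
  set e : Equiv.Perm (Fin L) := Equiv.swap ⟨i, by omega⟩ ⟨i + 1, h⟩ with he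
  have hcoe : ∀ j : Fin L, ((e j : Fin L) : ℕ) = Equiv.swap i (i + 1) (j : ℕ) := by
    intro j
    rw [he, Equiv.swap_apply_def, Equiv.swap_apply_def]
    by_cases h1 : j = ⟨i, by omega⟩
    · subst h1; simp
    · have h1' : (j : ℕ) ≠ i := fun hh => h1 (Fin.ext hh)
      rw [if_neg h1, if_neg h1']
      by_cases h2 : j = ⟨i + 1, h⟩
      · subst h2; simp
      · have h2' : (j : ℕ) ≠ i + 1 := fun hh => h2 (Fin.ext hh)
        rw [if_neg h2, if_neg h2']
  have hrange : ∀ k, k ∈ range L → Equiv.swap i (i + 1) k ∈ range L := by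
    intro k hk
    rw [mem_range] at hk ⊢
    rw [Equiv.swap_apply_def]
    split_ifs <;> omega
  have hM : RR θ L (sw i b) = (RR θ L b).submatrix e e := by
    ext p q
    have hsw : ∀ k, sw i b k = b (Equiv.swap i (i + 1) k) := fun k => rfl
    have hpp : ∀ x y, pp (sw i b) x y = pp b (Equiv.swap i (i + 1) x) (Equiv.swap i (i + 1) y) := fun x y => rfl
    have hmm : ∀ x y, mm θ (sw i b) x y = mm θ b (Equiv.swap i (i + 1) x) (Equiv.swap i (i + 1) y) :=
      fun x y => rfl
    simp only [RR, Matrix.of_apply, Matrix.submatrix_apply, hcoe, EmbeddingLike.apply_eq_iff_eq, hpp, hmm]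
    split_ifs with hpq
    · congr 2
      refine Finset.prod_nbij' (Equiv.swap i (i + 1)) (Equiv.swap i (i + 1)) ?_ ?_ ?_ ?_ ?_
      · intro k hk
        rw [mem_erase] at hk ⊢
        exact ⟨fun hh => hk.1 ((Equiv.injective _) hh), hrange k hk.2⟩
      · intro k hk
        rw [mem_erase] at hk ⊢
        refine ⟨fun hh => hk.1 ?_, hrange k hk.2⟩
        rw [← hh, Equiv.swap_apply_self]
      · intro k _; exact Equiv.swap_apply_self _ _ _
      · intro k _; exact Equiv.swap_apply_self _ _ _
      · intro k _; rfl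
    · congr 2
      refine Finset.prod_nbij' (Equiv.swap i (i + 1)) (Equiv.swap i (i + 1)) ?_ ?_ ?_ ?_ ?_
      · intro k hk
        rw [mem_erase, mem_erase] at hk ⊢
        exact ⟨fun hh => hk.1 ((Equiv.injective _) hh), fun hh => hk.2.1 ((Equiv.injective _) hh),
          hrange k hk.2.2⟩
      · intro k hk
        rw [mem_erase, mem_erase] at hk ⊢
        refine ⟨fun hh => hk.1 ?_, fun hh => hk.2.1 ?_, hrange k hk.2.2⟩
        · rw [← hh, Equiv.swap_apply_self]
        · rw [← hh, Equiv.swap_apply_self]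
      · intro k _; exact Equiv.swap_apply_self _ _ _
      · intro k _; exact Equiv.swap_apply_self _ _ _
      · intro k _; rfl
  unfold NN
  rw [hM, Matrix.det_submatrix_equiv_self]

theorem na_pp_comm (b : ℕ → ℝ) (i j : ℕ) : pp b i j = pp b j i := by
  simp only [pp]; ring

theorem na_PQ (b : ℕ → ℝ) (L : ℕ) : ∏ i ∈ range L, ∏ k ∈ (range L).erase i, pp b i k = PQ L b := by
  induction L with
  | zero => simp [PQ]
  | succ L ih =>
    rw [prod_range_succ]
    have h1 : (range (L + 1)).erase L = range L := by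
      ext k; simp only [mem_erase, mem_range]; omega
    rw [h1]
    have h2 : ∀ i ∈ range L, ∏ k ∈ (range (L + 1)).erase i, pp b i k =
        (∏ k ∈ (range L).erase i, pp b i k) * pp b i L := by
      intro i hi
      rw [mem_range] at hi
      have h3 : (range (L + 1)).erase i = insert L ((range L).erase i) := by
        ext k; simp only [mem_erase, mem_range, mem_insert]; omega
      rw [h3, prod_insert (by simp), mul_comm]
    rw [prod_congr rfl h2, prod_mul_distrib, ih]
    unfold PQ
    rw [prod_range_succ]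
    have h4 : ∏ k ∈ range L, pp b L k = ∏ k ∈ range L, pp b k L :=
      prod_congr rfl fun k _ => na_pp_comm b L k
    rw [h4, mul_assoc, ← prod_mul_distrib]
    congr 1
    exact prod_congr rfl fun k _ => by ring

theorem na_s_zero : s 0 ≠ 0 := by
  unfold s
  rw [add_zero, Real.sin_pi_div_three]
  positivity

theorem na_cos (θ : ℝ) : Complex.exp (Complex.I * θ / 2) + Complex.exp (-(Complex.I * θ / 2)) =
    ((2 * Real.cos (θ / 2) : ℝ) : ℂ) := by
  push_cast
  rw [Complex.two_cos]
  congr 2 <;> ring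

/-- relation with the determinant of the formula -/
theorem NN_det (θ : ℝ) (L : ℕ) (b : ℕ → ℝ) (h : ∀ i < L, ∀ j < L, i ≠ j → pp b i j ≠ 0) :
    NN θ L b = (PQ L b : ℂ) * (Mm θ L b).det := by
  have hM : RR θ L b = Matrix.of fun (i j : Fin L) =>
      ((∏ k ∈ (range L).erase (i : ℕ), pp b i k : ℝ) : ℂ) * Mm θ L b i j := by
    ext i j
    simp only [RR, Mm, Matrix.of_apply]
    split_ifs with hij
    · subst hij
      rw [sub_self]
      have h0 : (s 0 : ℂ) ≠ 0 := by exact_mod_cast na_s_zero
      have : Complex.exp (Complex.I * θ / 2) / (s 0 : ℂ) + Complex.exp (-(Complex.I * θ / 2)) / (s 0 : ℂ) =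
          aa θ := by
        rw [← add_div, na_cos, aa]
        push_cast
        rfl
      rw [this]; ring
    · have hij' : (i : ℕ) ≠ j := fun hh => hij (Fin.ext hh)
      have hne := h i i.2 j j.2 hij'
      have h1 : ∏ k ∈ (range L).erase (i : ℕ), pp b i k =
          pp b i j * ∏ k ∈ ((range L).erase (i : ℕ)).erase (j : ℕ), pp b i k := by
        rw [Finset.mul_prod_erase]
        rw [mem_erase, mem_range]
        exact ⟨hij'.symm, j.2⟩
      rw [h1]
      have h2 : s (b i - b j) ≠ 0 := left_ne_zero_of_mul hne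
      have h3 : s (b j - b i) ≠ 0 := right_ne_zero_of_mul hne
      have h2' : (s (b i - b j) : ℂ) ≠ 0 := by exact_mod_cast h2
      have h3' : (s (b j - b i) : ℂ) ≠ 0 := by exact_mod_cast h3
      simp only [mm, pp]
      push_cast
      field_simp
  unfold NN
  rw [hM, Matrix.det_mul_column]
  congr 1
  rw [← na_PQ, Finset.prod_range]
  push_cast
  rfl

theorem NN_one (θ : ℝ) (b : ℕ → ℝ) : NN θ 1 b = aa θ := by
  unfold NN
  rw [Matrix.det_fin_one]
  simp [RR]


theorem na_rec_pp (b : ℕ → ℝ) (h : b 1 = b 0 + π / 3) (k : ℕ) :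
    pp b 0 k * pp b 1 k = s (b k - b 0) ^ 2 * (Real.sin (b k - b 0) * Real.sin (b 1 - b k)) := by
  simp only [pp, s]
  rw [h]
  have h1 : π / 3 + (b 0 - b k) = b 0 + π / 3 - b k := by ring
  have h2 : π / 3 + (b k - (b 0 + π / 3)) = b k - b 0 := by ring
  have h3 : Real.sin (π / 3 + (b 0 + π / 3 - b k)) = Real.sin (π / 3 + (b k - b 0)) := by
    rw [← Real.sin_pi_sub]; congr 1; ring
  rw [h1, h2, h3]; ring

/-- recursion: at `b 1 = b 0 + π/3` only the entries (0,1), (1,0) survive in the rows 0, 1 -/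
theorem NN_rec (θ : ℝ) (L : ℕ) (b : ℕ → ℝ) (h : b 1 = b 0 + π / 3) :
    NN θ (L + 2) b = -(3 / 4) *
      ((∏ k ∈ range L, (s (b (k + 2) - b 0) ^ 4 * (Real.sin (b 0 - b (k + 2)) ^ 2 *
        Real.sin (b 1 - b (k + 2)) ^ 2)) : ℝ) : ℂ) * NN θ L (fun j => b (j + 2)) := by
  have hs1 : s (b 0 - b 1) = 0 := by
    rw [h]; unfold s
    have : π / 3 + (b 0 - (b 0 + π / 3)) = 0 := by ring
    rw [this, Real.sin_zero]
  have hs2 : s (b 1 - b 0) = Real.sqrt 3 / 2 := by
    rw [h]; unfold s
    have : π / 3 + (b 0 + π / 3 - b 0) = π - π / 3 := by ring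
    rw [this, Real.sin_pi_sub, Real.sin_pi_div_three]
  have hp01 : pp b 0 1 = 0 := by simp only [pp, hs1, zero_mul]
  have hp10 : pp b 1 0 = 0 := by simp only [pp, hs1, mul_zero]
  set M := RR θ (L + 2) b with hMdef
  -- products over the range without small elements
  have hr01 : ((range (L + 2)).erase 0).erase 1 = (range L).map ⟨fun k => k + 2, fun a c hac => by simpa using hac⟩ := by
    ext k
    simp only [mem_erase, mem_range, Finset.mem_map, Function.Embedding.coeFn_mk]
    constructor
    · intro hk; exact ⟨k - 2, by omega, by omega⟩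
    · rintro ⟨a, ha, rfl⟩; omega
  have hr10 : ((range (L + 2)).erase 1).erase 0 = (range L).map ⟨fun k => k + 2, fun a c hac => by simpa using hac⟩ := by
    rw [Finset.erase_right_comm, hr01]
  have M01 : M 0 1 = Complex.exp (-(Complex.I * θ / 2)) * (Real.sqrt 3 / 2 : ℝ) *
      ((∏ k ∈ range L, pp b 0 (k + 2) : ℝ) : ℂ) := by
    simp only [hMdef, RR, Matrix.of_apply]
    rw [if_neg (by simp)]
    have : ((0 : Fin (L + 2)) : ℕ) = 0 := rfl
    have h1 : ((1 : Fin (L + 2)) : ℕ) = 1 := rfl
    rw [this, h1, hr01, prod_map]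
    simp only [mm, hs1, hs2, Function.Embedding.coeFn_mk]
    push_cast
    ring
  have M10 : M 1 0 = Complex.exp (Complex.I * θ / 2) * (Real.sqrt 3 / 2 : ℝ) *
      ((∏ k ∈ range L, pp b 1 (k + 2) : ℝ) : ℂ) := by
    simp only [hMdef, RR, Matrix.of_apply]
    rw [if_neg (by simp)]
    have : ((0 : Fin (L + 2)) : ℕ) = 0 := rfl
    have h1 : ((1 : Fin (L + 2)) : ℕ) = 1 := rfl
    rw [this, h1, hr10, prod_map]
    simp only [mm, hs1, hs2, Function.Embedding.coeFn_mk]
    push_cast
    ring
  have M0 : ∀ j : Fin (L + 2), j ≠ 1 → M 0 j = 0 := by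
    intro j hj
    have hj' : (j : ℕ) ≠ 1 := fun hh => hj (Fin.ext hh)
    simp only [hMdef, RR, Matrix.of_apply]
    have h0 : ((0 : Fin (L + 2)) : ℕ) = 0 := rfl
    split_ifs with hh
    · rw [h0, Finset.prod_eq_zero (i := 1) (by rw [mem_erase, mem_range]; omega) hp01]; simp
    · rw [h0, Finset.prod_eq_zero (i := 1) (by rw [mem_erase, mem_erase, mem_range]; omega) hp01]; simp
  have M1 : ∀ j : Fin (L + 2), j ≠ 0 → M 1 j = 0 := by
    intro j hj
    have hj' : (j : ℕ) ≠ 0 := fun hh => hj (Fin.ext hh)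
    simp only [hMdef, RR, Matrix.of_apply]
    have h0 : ((1 : Fin (L + 2)) : ℕ) = 1 := rfl
    split_ifs with hh
    · rw [h0, Finset.prod_eq_zero (i := 0) (by rw [mem_erase, mem_range]; omega) hp10]; simp
    · rw [h0, Finset.prod_eq_zero (i := 0) (by rw [mem_erase, mem_erase, mem_range]; omega) hp10]; simp
  have hdet1 : M.det = -(M 0 1) * (M.submatrix Fin.succ (Fin.succAbove 1)).det := by
    rw [Matrix.det_succ_row_zero, Finset.sum_eq_single (1 : Fin (L + 2))]
    · simp
    · intro j _ hj
      rw [M0 j hj]; simp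
    · intro hh; exact absurd (mem_univ _) hh
  set N := M.submatrix Fin.succ (Fin.succAbove (1 : Fin (L + 2))) with hN
  have hN00 : N 0 0 = M 1 0 := by
    rw [hN, Matrix.submatrix_apply]
    congr 1
  have hN0 : ∀ j : Fin (L + 1), j ≠ 0 → N 0 j = 0 := by
    intro j hj
    rw [hN, Matrix.submatrix_apply]
    have : (Fin.succ (0 : Fin (L + 1))) = 1 := rfl
    rw [this]
    apply M1
    intro hh
    apply hj
    have h2 : (1 : Fin (L + 2)).succAbove 0 = 0 := by
      have := Fin.succAbove_ne_zero_zero (n := L + 1) (a := (1 : Fin (L + 2))) (by simp)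
      exact this
    exact Fin.succAbove_right_injective (hh.trans h2.symm)
  have hdet2 : N.det = M 1 0 * (N.submatrix Fin.succ Fin.succ).det := by
    rw [Matrix.det_succ_row_zero, Finset.sum_eq_single (0 : Fin (L + 1))]
    · rw [hN00]; simp [Fin.succAbove_zero]
    · intro j _ hj
      rw [hN0 j hj]; simp
    · intro hh; exact absurd (mem_univ _) hh
  have hP : N.submatrix Fin.succ Fin.succ = Matrix.of fun (i j : Fin L) =>
      ((pp b 0 (i + 2) * pp b 1 (i + 2) : ℝ) : ℂ) * RR θ L (fun j => b (j + 2)) i j := by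
    ext i j
    rw [hN, Matrix.submatrix_apply, Matrix.submatrix_apply]
    have hc : (1 : Fin (L + 2)).succAbove (Fin.succ j) = j.succ.succ := by
      have : (1 : Fin (L + 2)) = Fin.succ 0 := rfl
      rw [this, Fin.succ_succAbove_succ, Fin.succAbove_zero]
    rw [hc]
    simp only [hMdef, RR, Matrix.of_apply, Fin.val_succ, Fin.succ_inj]
    have e1 : ((i : ℕ) + 1 + 1) = i + 2 := rfl
    have e2 : ((j : ℕ) + 1 + 1) = j + 2 := rfl
    rw [e1, e2]
    split_ifs with hij
    · have h3 : (range (L + 2)).erase ((i : ℕ) + 2) =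
          insert 0 (insert 1 (((range L).erase (i : ℕ)).map ⟨fun k => k + 2, fun a c hac => by simpa using hac⟩)) := by
        ext k
        simp only [mem_erase, mem_range, Finset.mem_map, mem_insert, Function.Embedding.coeFn_mk]
        constructor
        · intro hk
          by_cases h0 : k = 0
          · exact Or.inl h0
          · by_cases h1 : k = 1
            · exact Or.inr (Or.inl h1)
            · exact Or.inr (Or.inr ⟨k - 2, by omega, by omega⟩)
        · rintro (rfl | rfl | ⟨a, ha, rfl⟩)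
          · omega
          · omega
          · omega
      rw [h3, prod_insert (by simp), prod_insert (by simp), prod_map]
      simp only [Function.Embedding.coeFn_mk, pp]
      push_cast
      ring
    · have hij' : (i : ℕ) ≠ j := fun hh => hij (Fin.ext hh)
      have h3 : ((range (L + 2)).erase ((i : ℕ) + 2)).erase ((j : ℕ) + 2) =
          insert 0 (insert 1 ((((range L).erase (i : ℕ)).erase (j : ℕ)).map ⟨fun k => k + 2, fun a c hac => by simpa using hac⟩)) := by
        ext k
        simp only [mem_erase, mem_range, Finset.mem_map, mem_insert, Function.Embedding.coeFn_mk]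
        constructor
        · intro hk
          by_cases h0 : k = 0
          · exact Or.inl h0
          · by_cases h1 : k = 1
            · exact Or.inr (Or.inl h1)
            · exact Or.inr (Or.inr ⟨k - 2, by omega, by omega⟩)
        · rintro (rfl | rfl | ⟨a, ha, rfl⟩)
          · omega
          · omega
          · omega
      rw [h3, prod_insert (by simp), prod_insert (by simp), prod_map]
      simp only [Function.Embedding.coeFn_mk, pp, mm]
      push_cast
      ring
  have hsq : (Real.sqrt 3 / 2 : ℝ) * (Real.sqrt 3 / 2 : ℝ) = 3 / 4 := by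
    have := Real.mul_self_sqrt (show (0 : ℝ) ≤ 3 by norm_num)
    linear_combination this / 4
  have hexp : Complex.exp (-(Complex.I * θ / 2)) * Complex.exp (Complex.I * θ / 2) = 1 := by
    rw [← Complex.exp_add]; simp
  have hprod : (∏ k ∈ range L, (s (b (k + 2) - b 0) ^ 4 * (Real.sin (b 0 - b (k + 2)) ^ 2 *
        Real.sin (b 1 - b (k + 2)) ^ 2))) =
      (∏ k ∈ range L, pp b 0 (k + 2)) * (∏ k ∈ range L, pp b 1 (k + 2)) *
        ∏ k ∈ range L, (pp b 0 (k + 2) * pp b 1 (k + 2)) := by
    rw [← prod_mul_distrib, ← prod_mul_distrib]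
    refine prod_congr rfl fun k _ => ?_
    rw [na_rec_pp b h]
    have : Real.sin (b 0 - b (k + 2)) = - Real.sin (b (k + 2) - b 0) := by
      rw [← Real.sin_neg]; congr 1; ring
    rw [this]; ring
  unfold NN
  rw [← hMdef, hdet1, hdet2, hP, Matrix.det_mul_column, M01, M10, hprod, Finset.prod_range (n := L) (f := fun k => pp b 0 (k + 2) * pp b 1 (k + 2))]
  have hsqC : (((Real.sqrt 3 / 2 : ℝ) : ℂ)) * (((Real.sqrt 3 / 2 : ℝ) : ℂ)) = 3 / 4 := by
    rw [← Complex.ofReal_mul, hsq]; push_cast; rfl
  push_cast at hsqC ⊢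
  linear_combination (-(∏ k ∈ range L, (pp b 0 (k + 2) : ℂ)) * (∏ k ∈ range L, (pp b 1 (k + 2) : ℂ)) *
    (∏ k : Fin L, ((pp b 0 (k + 2) : ℂ) * (pp b 1 (k + 2) : ℂ))) * (RR θ L (fun j => b (j + 2))).det) *
    ((Real.sqrt 3 / 2 : ℂ) * (Real.sqrt 3 / 2 : ℂ) * hexp + hsqC)

/-- continuity along a line -/
theorem NN_continuous_line (θ : ℝ) (L : ℕ) (b v : ℕ → ℝ) :
    Continuous (fun t : ℝ => NN θ L (fun j => b j + t * v j)) := by
  have hs : ∀ i j : ℕ, Continuous (fun t : ℝ => s (b i + t * v i - (b j + t * v j))) := by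
    intro i j
    unfold s
    exact Real.continuous_sin.comp (by fun_prop)
  have hp : ∀ i j : ℕ, Continuous (fun t : ℝ => pp (fun j => b j + t * v j) i j) := by
    intro i j
    unfold pp
    exact (hs i j).mul (hs j i)
  have hm : ∀ i j : ℕ, Continuous (fun t : ℝ => mm θ (fun j => b j + t * v j) i j) := by
    intro i j
    unfold mm
    exact (continuous_const.mul (Complex.continuous_ofReal.comp (hs i j))).add
      (continuous_const.mul (Complex.continuous_ofReal.comp (hs j i)))
  unfold NN
  refine Continuous.matrix_det (continuous_matrix fun i j => ?_)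
  simp only [RR, Matrix.of_apply]
  split_ifs with hij
  · exact continuous_const.mul (Complex.continuous_ofReal.comp (continuous_finsetProd _ fun k _ => hp i k))
  · exact (hm i j).mul (Complex.continuous_ofReal.comp (continuous_finsetProd _ fun k _ => hp i k))

end OneArm
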