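import Pool.Agent.Helper64.IPC.TPC
import Pool.Agent.Helper64.IPC.Defs

/-! MODULE Tc: top coefficient of complex trigonometric polynomials, division, factorisation. -/

namespace OneArm
open IP IPC Finset Real Filter Topology

/-! ### closure -/

theorem tc_TPC_const (c : ℂ) : TPC 0 (fun _ => c) := by
  refine ⟨Polynomial.C c, by simp, fun x => ?_⟩
  simp

theorem tc_TPC_zero (m : ℕ) : TPC m (fun _ => (0 : ℂ)) := by
  refine ⟨0, by simp, fun x => ?_⟩
  simp

theorem tc_TPC_congr {m : ℕ} {F G : ℝ → ℂ} (hF : TPC m F) (h : ∀ x, G x = F x) : TPC m G := by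
  obtain ⟨P, hP, h1⟩ := hF
  exact ⟨P, hP, fun x => by rw [h x, h1 x]⟩

/-- raising the degree by an even number -/
theorem tc_TPC_mono {m : ℕ} {F : ℝ → ℂ} (k : ℕ) (hF : TPC m F) : TPC (m + 2 * k) F := by
  obtain ⟨P, hP, h1⟩ := hF
  refine ⟨P * Polynomial.X ^ k, ?_, fun x => ?_⟩
  · refine (Polynomial.natDegree_mul_le).trans ?_
    have := Polynomial.natDegree_X_pow_le (R := ℂ) k
    omega
  · rw [h1 x, Polynomial.eval_mul, Polynomial.eval_pow, Polynomial.eval_X, ← Complex.exp_nat_mul]
    rw [mul_comm (P.eval _) (Complex.exp _), ← mul_assoc, ← Complex.exp_add]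
    congr 2
    push_cast
    ring

theorem tc_TPC_sum {ι : Type*} (t : Finset ι) {m : ℕ} {F : ι → ℝ → ℂ} (h : ∀ i ∈ t, TPC m (F i)) :
    TPC m (fun x => ∑ i ∈ t, F i x) := by
  classical
  induction t using Finset.induction_on with
  | empty => simpa using tc_TPC_zero m
  | insert a t ha ih =>
    refine tc_TPC_congr ((h a (mem_insert_self _ _)).add (ih fun i hi => h i (mem_insert_of_mem hi))) ?_
    intro x
    rw [sum_insert ha]

theorem tc_TPC_prod {ι : Type*} (t : Finset ι) {m : ι → ℕ} {F : ι → ℝ → ℂ}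
    (h : ∀ i ∈ t, TPC (m i) (F i)) : TPC (∑ i ∈ t, m i) (fun x => ∏ i ∈ t, F i x) := by
  classical
  induction t using Finset.induction_on with
  | empty => simpa using tc_TPC_const 1
  | insert a t ha ih =>
    rw [sum_insert ha]
    refine tc_TPC_congr ((h a (mem_insert_self _ _)).mul (ih fun i hi => h i (mem_insert_of_mem hi))) ?_
    intro x
    rw [prod_insert ha]

theorem tc_TPC_continuous {m : ℕ} {F : ℝ → ℂ} (hF : TPC m F) : Continuous F := by
  obtain ⟨P, _, h⟩ := hF
  have h1 : F = fun x : ℝ => Complex.exp (-(m * x * Complex.I)) *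
      P.eval (Complex.exp (2 * x * Complex.I)) := funext h
  rw [h1]
  have h2 := P.continuous
  fun_prop

/-! ### the top coefficient -/

/-- top coefficient (frequency `m`) by discrete Fourier transform -/
noncomputable def tc (m : ℕ) (F : ℝ → ℂ) : ℂ :=
  ((m : ℂ) + 1)⁻¹ * ∑ k ∈ range (m + 1),
    Complex.exp (-(m * (π * k / (m + 1) : ℝ) * Complex.I)) * F (π * k / (m + 1))

theorem tc_eq {m : ℕ} {F : ℝ → ℂ} (P : Polynomial ℂ) (hP : P.natDegree ≤ m)
    (h : ∀ x : ℝ, F x = Complex.exp (-(m * x * Complex.I)) * P.eval (Complex.exp (2 * x * Complex.I))) :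
    tc m F = P.coeff m := by
  unfold tc
  set ζ : ℂ := Complex.exp (2 * π * Complex.I / ((m + 1 : ℕ) : ℂ)) with hζ
  have hprim : IsPrimitiveRoot ζ (m + 1) := Complex.isPrimitiveRoot_exp (m + 1) (by omega)
  have hm : ((m : ℂ) + 1) ≠ 0 := by exact_mod_cast (by omega : m + 1 ≠ 0)
  have h1 : ∀ k : ℕ, Complex.exp (2 * ((π * k / (m + 1) : ℝ) : ℂ) * Complex.I) = ζ ^ k := by
    intro k
    rw [hζ, ← Complex.exp_nat_mul]
    congr 1
    push_cast
    field_simp
  have h2 : ∀ k : ℕ, Complex.exp (-(m * ((π * k / (m + 1) : ℝ) : ℂ) * Complex.I)) *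
      Complex.exp (-(m * ((π * k / (m + 1) : ℝ) : ℂ) * Complex.I)) = ζ ^ k := by
    intro k
    rw [← Complex.exp_add]
    have h3 : -(m * ((π * k / (m + 1) : ℝ) : ℂ) * Complex.I) + -(m * ((π * k / (m + 1) : ℝ) : ℂ) * Complex.I) =
        2 * ((π * k / (m + 1) : ℝ) : ℂ) * Complex.I - (k : ℕ) * (2 * π * Complex.I) := by
      push_cast
      field_simp
      ring
    rw [h3, Complex.exp_sub, Complex.exp_nat_mul_two_pi_mul_I, div_one, h1]
  have h4 : ∀ k ∈ range (m + 1), Complex.exp (-(m * ((π * k / (m + 1) : ℝ) : ℂ) * Complex.I)) *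
      F (π * k / (m + 1)) = ∑ l ∈ range (m + 1), P.coeff l * (ζ ^ (l + 1)) ^ k := by
    intro k _
    rw [h, ← mul_assoc, h2, h1, Polynomial.eval_eq_sum_range' (Nat.lt_succ_of_le hP), mul_sum]
    refine sum_congr rfl fun l _ => ?_
    ring
  rw [sum_congr rfl h4, sum_comm]
  have h5 : ∀ l ∈ range (m + 1), ∑ k ∈ range (m + 1), P.coeff l * (ζ ^ (l + 1)) ^ k =
      if l = m then P.coeff m * (m + 1) else 0 := by
    intro l hl
    rw [← mul_sum]
    rw [mem_range] at hl
    split_ifs with hlm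
    · subst hlm
      rw [hprim.pow_eq_one]
      simp
    · have h6 : ζ ^ (l + 1) ≠ 1 := by
        intro h7
        have := hprim.dvd_of_pow_eq_one _ h7
        have := Nat.le_of_dvd (by omega) this
        omega
      rw [geom_sum_eq h6, ← pow_mul, mul_comm (l + 1), pow_mul, hprim.pow_eq_one, one_pow, sub_self,
        zero_div, mul_zero]
  rw [sum_congr rfl h5, sum_ite_eq' (range (m + 1)) m, if_pos (mem_range.2 (Nat.lt_succ_self m))]
  field_simp

theorem tc_add (m : ℕ) (F G : ℝ → ℂ) : tc m (fun x => F x + G x) = tc m F + tc m G := by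
  unfold tc
  rw [← mul_add, ← sum_add_distrib]
  congr 1
  refine sum_congr rfl fun k _ => ?_
  ring

theorem tc_sub (m : ℕ) (F G : ℝ → ℂ) : tc m (fun x => F x - G x) = tc m F - tc m G := by
  unfold tc
  rw [← mul_sub, ← sum_sub_distrib]
  congr 1
  refine sum_congr rfl fun k _ => ?_
  ring

theorem tc_const_mul (m : ℕ) (c : ℂ) (F : ℝ → ℂ) : tc m (fun x => c * F x) = c * tc m F := by
  unfold tc
  rw [← mul_assoc, mul_comm c, mul_assoc, mul_sum (range (m + 1)) _ c]
  congr 1
  refine sum_congr rfl fun k _ => ?_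
  ring

theorem tc_mul_const (m : ℕ) (c : ℂ) (F : ℝ → ℂ) : tc m (fun x => F x * c) = tc m F * c := by
  rw [mul_comm, ← tc_const_mul]
  congr 1
  funext x
  ring

theorem tc_sum {ι : Type*} (t : Finset ι) (m : ℕ) (F : ι → ℝ → ℂ) :
    tc m (fun x => ∑ i ∈ t, F i x) = ∑ i ∈ t, tc m (F i) := by
  unfold tc
  rw [← mul_sum, sum_comm]
  congr 1
  refine sum_congr rfl fun k _ => ?_
  rw [mul_sum]

theorem tc_congr {m : ℕ} {F G : ℝ → ℂ} (h : ∀ x, F x = G x) : tc m F = tc m G := by
  rw [funext h]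

theorem tc_mul {m k : ℕ} {F G : ℝ → ℂ} (hF : TPC m F) (hG : TPC k G) :
    tc (m + k) (fun x => F x * G x) = tc m F * tc k G := by
  obtain ⟨P, hP, h1⟩ := hF
  obtain ⟨Q, hQ, h2⟩ := hG
  rw [tc_eq P hP h1, tc_eq Q hQ h2]
  have h3 := tc_eq (m := m + k) (F := fun x => F x * G x) (P * Q)
    ((Polynomial.natDegree_mul_le).trans (by omega)) (fun x => by
      rw [h1 x, h2 x, Polynomial.eval_mul]
      have : Complex.exp (-(((m + k : ℕ) : ℂ) * x * Complex.I)) =
          Complex.exp (-(m * x * Complex.I)) * Complex.exp (-(k * x * Complex.I)) := by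
        rw [← Complex.exp_add]
        congr 1
        push_cast
        ring
      rw [this]
      ring)
  rw [h3, Polynomial.coeff_mul_add_eq_of_natDegree_le hP hQ]

theorem tc_const (c : ℂ) : tc 0 (fun _ => c) = c := by
  have := tc_eq (m := 0) (F := fun _ => c) (Polynomial.C c) (by simp) (fun x => by simp)
  rw [this]
  simp

/-- the top coefficient of a function of smaller degree is zero -/
theorem tc_lower {m : ℕ} {F : ℝ → ℂ} (k : ℕ) (hk : k ≠ 0) (hF : TPC m F) : tc (m + 2 * k) F = 0 := by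
  obtain ⟨P, hP, h1⟩ := hF
  have h2 := tc_eq (m := m + 2 * k) (F := F) (P * Polynomial.X ^ k)
    ((Polynomial.natDegree_mul_le).trans (by
      have := Polynomial.natDegree_X_pow_le (R := ℂ) k
      omega)) (fun x => by
      rw [h1 x, Polynomial.eval_mul, Polynomial.eval_pow, Polynomial.eval_X, ← Complex.exp_nat_mul]
      rw [mul_comm (P.eval _) (Complex.exp _), ← mul_assoc, ← Complex.exp_add]
      congr 2
      push_cast
      ring)
  rw [h2]
  apply Polynomial.coeff_eq_zero_of_natDegree_lt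
  refine lt_of_le_of_lt (Polynomial.natDegree_mul_le) ?_
  have := Polynomial.natDegree_X_pow_le (R := ℂ) k
  omega

theorem tc_prod {ι : Type*} (t : Finset ι) (m : ι → ℕ) (F : ι → ℝ → ℂ)
    (h : ∀ i ∈ t, TPC (m i) (F i)) : tc (∑ i ∈ t, m i) (fun x => ∏ i ∈ t, F i x) =
      ∏ i ∈ t, tc (m i) (F i) := by
  classical
  induction t using Finset.induction_on with
  | empty => simpa using tc_const 1
  | insert a t ha ih =>
    rw [sum_insert ha, prod_insert ha, ← ih fun i hi => h i (mem_insert_of_mem hi),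
      ← tc_mul (h a (mem_insert_self _ _)) (tc_TPC_prod t fun i hi => h i (mem_insert_of_mem hi))]
    refine tc_congr fun x => ?_
    rw [prod_insert ha]

/-- equal degrees -/
theorem tc_prod_const {ι : Type*} (t : Finset ι) (m : ℕ) (F : ι → ℝ → ℂ)
    (h : ∀ i ∈ t, TPC m (F i)) : tc (t.card * m) (fun x => ∏ i ∈ t, F i x) = ∏ i ∈ t, tc m (F i) := by
  rw [← tc_prod t (fun _ => m) F h, sum_const, smul_eq_mul]

theorem tc_TPC_prod_const {ι : Type*} (t : Finset ι) (m : ℕ) (F : ι → ℝ → ℂ)
    (h : ∀ i ∈ t, TPC m (F i)) : TPC (t.card * m) (fun x => ∏ i ∈ t, F i x) := by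
  have := tc_TPC_prod t (m := fun _ => m) h
  rwa [sum_const, smul_eq_mul] at this

/-! ### elementary functions -/

/-- `A e^{ix} + B e^{-ix}` -/
theorem tc_lin_TPC (A B : ℂ) : TPC 1 (fun x : ℝ => A * Complex.exp (x * Complex.I) +
    B * Complex.exp (-(x * Complex.I))) := by
  refine ⟨Polynomial.C A * Polynomial.X + Polynomial.C B, ?_, fun x => ?_⟩
  · exact Polynomial.natDegree_linear_le
  · simp only [Polynomial.eval_add, Polynomial.eval_mul, Polynomial.eval_C, Polynomial.eval_X]
    rw [mul_add, mul_left_comm, ← Complex.exp_add, mul_comm _ B]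
    congr 2
    · congr 1
      push_cast
      ring
    · congr 1
      push_cast
      ring

theorem tc_lin (A B : ℂ) : tc 1 (fun x : ℝ => A * Complex.exp (x * Complex.I) +
    B * Complex.exp (-(x * Complex.I))) = A := by
  have := tc_eq (m := 1) (F := fun x : ℝ => A * Complex.exp (x * Complex.I) +
    B * Complex.exp (-(x * Complex.I))) (Polynomial.C A * Polynomial.X + Polynomial.C B)
    Polynomial.natDegree_linear_le (fun x => by
      simp only [Polynomial.eval_add, Polynomial.eval_mul, Polynomial.eval_C, Polynomial.eval_X]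
      rw [mul_add, mul_left_comm, ← Complex.exp_add, mul_comm _ B]
      congr 2
      · congr 1
        push_cast
        ring
      · congr 1
        push_cast
        ring)
  rw [this]
  simp

theorem tc_sin_form (a y : ℝ) : ∀ x : ℝ, ((Real.sin (a + (x - y)) : ℝ) : ℂ) =
    (Complex.exp (a * Complex.I) * Complex.exp (-(y * Complex.I)) / (2 * Complex.I)) *
      Complex.exp (x * Complex.I) +
    (-(Complex.exp (-(a * Complex.I)) * Complex.exp (y * Complex.I)) / (2 * Complex.I)) *
      Complex.exp (-(x * Complex.I)) := by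
  intro x
  have h1 : Complex.exp (a * Complex.I) * Complex.exp (-(y * Complex.I)) * Complex.exp (x * Complex.I) =
      Complex.exp ((a + (x - y)) * Complex.I) := by
    rw [← Complex.exp_add, ← Complex.exp_add]
    congr 1
    ring
  have h2 : Complex.exp (-(a * Complex.I)) * Complex.exp (y * Complex.I) * Complex.exp (-(x * Complex.I)) =
      Complex.exp (-(a + (x - y)) * Complex.I) := by
    rw [← Complex.exp_add, ← Complex.exp_add]
    congr 1
    ring
  have hI : (2 * Complex.I) ≠ 0 := by simp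
  rw [div_mul_eq_mul_div, div_mul_eq_mul_div, ← add_div, neg_mul, h1, h2, eq_div_iff hI]
  push_cast
  rw [Complex.sin]
  have : (Complex.I) ^ 2 = -1 := Complex.I_sq
  linear_combination (Complex.exp (-(a + (x - y)) * Complex.I) - Complex.exp ((a + (x - y)) * Complex.I)) * this

theorem tc_sin_form' (a y : ℝ) : ∀ x : ℝ, ((Real.sin (a + (y - x)) : ℝ) : ℂ) =
    (-(Complex.exp (-(a * Complex.I)) * Complex.exp (-(y * Complex.I))) / (2 * Complex.I)) *
      Complex.exp (x * Complex.I) +
    (Complex.exp (a * Complex.I) * Complex.exp (y * Complex.I) / (2 * Complex.I)) *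
      Complex.exp (-(x * Complex.I)) := by
  intro x
  have h1 : Complex.exp (a * Complex.I) * Complex.exp (y * Complex.I) * Complex.exp (-(x * Complex.I)) =
      Complex.exp ((a + (y - x)) * Complex.I) := by
    rw [← Complex.exp_add, ← Complex.exp_add]
    congr 1
    ring
  have h2 : Complex.exp (-(a * Complex.I)) * Complex.exp (-(y * Complex.I)) * Complex.exp (x * Complex.I) =
      Complex.exp (-(a + (y - x)) * Complex.I) := by
    rw [← Complex.exp_add, ← Complex.exp_add]
    congr 1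
    ring
  have hI : (2 * Complex.I) ≠ 0 := by simp
  rw [div_mul_eq_mul_div, div_mul_eq_mul_div, ← add_div, neg_mul, h1, h2, eq_div_iff hI]
  push_cast
  rw [Complex.sin]
  have : (Complex.I) ^ 2 = -1 := Complex.I_sq
  linear_combination (Complex.exp (-(a + (y - x)) * Complex.I) - Complex.exp ((a + (y - x)) * Complex.I)) * this

theorem tc_TPC_sin (a y : ℝ) : TPC 1 (fun x : ℝ => ((Real.sin (a + (x - y)) : ℝ) : ℂ)) :=
  tc_TPC_congr (tc_lin_TPC _ _) (tc_sin_form a y)

theorem tc_TPC_sin' (a y : ℝ) : TPC 1 (fun x : ℝ => ((Real.sin (a + (y - x)) : ℝ) : ℂ)) :=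
  tc_TPC_congr (tc_lin_TPC _ _) (tc_sin_form' a y)

theorem tc_sin (a y : ℝ) : tc 1 (fun x : ℝ => ((Real.sin (a + (x - y)) : ℝ) : ℂ)) =
    Complex.exp (a * Complex.I) * Complex.exp (-(y * Complex.I)) / (2 * Complex.I) := by
  rw [tc_congr (tc_sin_form a y), tc_lin]

theorem tc_sin' (a y : ℝ) : tc 1 (fun x : ℝ => ((Real.sin (a + (y - x)) : ℝ) : ℂ)) =
    -(Complex.exp (-(a * Complex.I)) * Complex.exp (-(y * Complex.I))) / (2 * Complex.I) := by
  rw [tc_congr (tc_sin_form' a y), tc_lin]

end OneArm
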