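import Pool.Agent.Helper18.OneArm.Tc2

/-! MODULE TwoVar: two-variable uniqueness lemma. -/

namespace OneArm
open IP IPC Finset Real Filter Topology

theorem qq_ne {u : ℝ} (h1 : Real.sin u ≠ 0) (h2 : Real.sin (u + π / 3) ≠ 0) (h3 : Real.sin (u - π / 3) ≠ 0) :
    qq u ≠ 0 := by
  unfold qq s
  refine mul_ne_zero (pow_ne_zero 2 h1) (mul_ne_zero ?_ ?_)
  · rwa [add_comm]
  · rw [show π / 3 + -u = -(u - π / 3) by ring, Real.sin_neg, neg_ne_zero]
    exact h3

theorem sin_ne_comm {a b : ℝ} (h1 : Real.sin (a - b) ≠ 0) (h2 : Real.sin (a - b + π / 3) ≠ 0)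
    (h3 : Real.sin (a - b - π / 3) ≠ 0) :
    Real.sin (b - a) ≠ 0 ∧ Real.sin (b - a + π / 3) ≠ 0 ∧ Real.sin (b - a - π / 3) ≠ 0 := by
  refine ⟨?_, ?_, ?_⟩
  · rw [show b - a = -(a - b) by ring, Real.sin_neg, neg_ne_zero]; exact h1
  · rw [show b - a + π / 3 = -(a - b - π / 3) by ring, Real.sin_neg, neg_ne_zero]; exact h3
  · rw [show b - a - π / 3 = -(a - b + π / 3) by ring, Real.sin_neg, neg_ne_zero]; exact h2

theorem Good_cons {m : ℕ} {β : ℕ → ℝ} (hβ : Good m β) {y : ℝ}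
    (h : ∀ k < m, Real.sin (y - β k) ≠ 0 ∧ Real.sin (y - β k + π / 3) ≠ 0 ∧ Real.sin (y - β k - π / 3) ≠ 0) :
    Good (m + 1) (IPC.cons y β) := by
  intro i hi j hj hij
  rcases i with _ | i <;> rcases j with _ | j
  · exact absurd rfl hij
  · exact h j (by omega)
  · exact sin_ne_comm (h i (by omega)).1 (h i (by omega)).2.1 (h i (by omega)).2.2
  · exact hβ i (by omega) j (by omega) (fun h => hij (by rw [h]))

theorem Good_tail {m : ℕ} {c : ℕ → ℝ} (h : Good (m + 1) c) : Good m (fun j => c (j + 1)) :=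
  fun i hi j hj hij => h (i + 1) (by omega) (j + 1) (by omega) (by omega)

theorem sin_ne_punctured' (y c a : ℝ) : ∀ᶠ x : ℝ in 𝓝[≠] y, Real.sin (x - c + a) ≠ 0 := by
  filter_upwards [sin_ne_punctured y (c - a)] with x hx
  rwa [show x - c + a = x - (c - a) by ring]

theorem Good_punctured {m : ℕ} {β : ℕ → ℝ} (hβ : Good m β) (y₀ : ℝ) :
    ∀ᶠ y : ℝ in 𝓝[≠] y₀, Good (m + 1) (IPC.cons y β) := by
  have h1 : ∀ k ∈ range m, ∀ᶠ y : ℝ in 𝓝[≠] y₀, Real.sin (y - β k) ≠ 0 ∧
      Real.sin (y - β k + π / 3) ≠ 0 ∧ Real.sin (y - β k - π / 3) ≠ 0 := by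
    intro k _
    filter_upwards [sin_ne_punctured y₀ (β k), sin_ne_punctured' y₀ (β k) (π / 3),
      sin_ne_punctured' y₀ (β k) (-(π / 3))] with y h2 h3 h4
    exact ⟨h2, h3, by rwa [sub_eq_add_neg (y - β k)]⟩
  have h2 := (Finset.eventually_all (range m)).2 h1
  filter_upwards [h2] with y hy
  exact Good_cons hβ fun k hk => hy k (mem_range.2 hk)

/-- two continuous functions that agree in punctured neighbourhoods agree -/
theorem eq_of_punctured {f g : ℝ → ℂ} (hf : Continuous f) (hg : Continuous g) (y₀ : ℝ)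
    (h : ∀ᶠ y : ℝ in 𝓝[≠] y₀, f y = g y) : f y₀ = g y₀ :=
  tendsto_nhds_unique_of_eventuallyEq ((hf.tendsto y₀).mono_left nhdsWithin_le_nhds)
    ((hg.tendsto y₀).mono_left nhdsWithin_le_nhds) h

theorem cexp_ne (x : ℝ) : Complex.exp (-(4 * x * Complex.I)) ≠ 0 := Complex.exp_ne_zero _

theorem two_var {m : ℕ} {β : ℕ → ℝ} (hβ : Good m β) (f : ℝ → ℝ → ℂ)
    (hsym : ∀ x y, f x y = f y x)
    (hx : ∀ y, TPC (4 * (m + 1)) (fun x => f x y))
    (hfac : ∀ y, Good (m + 1) (IPC.cons y β) →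
      ∃ C : ℂ, ∀ x, f x y = C * ((∏ i ∈ range (m + 1), qq (x - IPC.cons y β i) : ℝ) : ℂ))
    (hlead : tc (4 * m) (fun y => Complex.exp (4 * y * Complex.I) *
      tc (4 * (m + 1)) (fun x => f x y)) = 0) :
    ∀ x y, f x y = 0 := by
  set D : ℝ → ℂ := fun y => Complex.exp (4 * y * Complex.I) * tc (4 * (m + 1)) (fun x => f x y) with hD
  set K : ℂ := -(1 / 16) * ∏ k ∈ range m, (-(1 / 16) * Complex.exp (-(4 * β k * Complex.I))) with hK
  have hK0 : K ≠ 0 := by
    rw [hK]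
    refine mul_ne_zero (by norm_num) (prod_ne_zero_iff.2 fun k _ => ?_)
    exact mul_ne_zero (by norm_num) (Complex.exp_ne_zero _)
  have hprod : ∀ x y, (∏ i ∈ range (m + 1), qq (x - IPC.cons y β i)) =
      qq (x - y) * ∏ k ∈ range m, qq (x - β k) := by
    intro x y
    rw [prod_range_succ', mul_comm]
    rfl
  have hyc : ∀ x, Continuous (fun y => f x y) := by
    intro x
    have : (fun y => f x y) = fun y => f y x := by
      funext y
      exact hsym x y
    rw [this]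
    exact tc_TPC_continuous (hx x)
  have hDc : Continuous D := by
    have h1 : Continuous (fun y : ℝ => Complex.exp (4 * y * Complex.I)) := by fun_prop
    refine h1.mul ?_
    unfold tc
    refine continuous_const.mul (continuous_finsetSum _ fun k _ => continuous_const.mul (hyc _))
  have hqc : ∀ x, Continuous (fun y : ℝ => ((qq (x - y) : ℝ) : ℂ)) := by
    intro x
    unfold qq s
    fun_prop
  -- identity for good `y`
  have hgood : ∀ y, Good (m + 1) (IPC.cons y β) → ∀ x,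
      K * f x y = D y * ((qq (x - y) : ℝ) : ℂ) * ((∏ k ∈ range m, qq (x - β k) : ℝ) : ℂ) := by
    intro y hy x
    obtain ⟨C, hC⟩ := hfac y hy
    have h1 : tc (4 * (m + 1)) (fun x => f x y) = C * (K * Complex.exp (-(4 * y * Complex.I))) := by
      rw [tc_congr hC, tc_const_mul, tc_prod_qq, prod_range_succ', hK]
      simp only [IPC.cons]
      ring
    have h2 : D y = C * K := by
      rw [hD]
      beta_reduce
      rw [h1]
      have h3 : Complex.exp (4 * y * Complex.I) * Complex.exp (-(4 * y * Complex.I)) = 1 := by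
        rw [← Complex.exp_add]; simp
      linear_combination C * K * h3
    rw [hC x, h2, hprod]
    push_cast
    ring
  have hall : ∀ x y, K * f x y = D y * ((qq (x - y) : ℝ) : ℂ) * ((∏ k ∈ range m, qq (x - β k) : ℝ) : ℂ) := by
    intro x y
    refine eq_of_punctured (f := fun y => K * f x y)
      (g := fun y => D y * ((qq (x - y) : ℝ) : ℂ) * ((∏ k ∈ range m, qq (x - β k) : ℝ) : ℂ))
      (continuous_const.mul (hyc x)) ((hDc.mul (hqc x)).mul continuous_const) y ?_
    filter_upwards [Good_punctured hβ y] with y' hy'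
    exact hgood y' hy' x
  -- a good `x₀`
  obtain ⟨x₀, hx₀⟩ : ∃ x₀ : ℝ, Good (m + 1) (IPC.cons x₀ β) := (Good_punctured hβ 0).exists
  have hQ : (∏ k ∈ range m, qq (x₀ - β k)) ≠ 0 := by
    refine prod_ne_zero_iff.2 fun k hk => ?_
    have := hx₀ 0 (by omega) (k + 1) (by have := mem_range.1 hk; omega) (by omega)
    exact qq_ne this.1 this.2.1 this.2.2
  obtain ⟨C₀, hC₀⟩ := hfac x₀ hx₀
  set Q₀ : ℂ := ((∏ k ∈ range m, qq (x₀ - β k) : ℝ) : ℂ) with hQ₀
  have hQ₀0 : Q₀ ≠ 0 := by rw [hQ₀]; exact_mod_cast hQ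
  have hDall : ∀ y, D y = (K * C₀ / Q₀) * ((∏ k ∈ range m, qq (y - β k) : ℝ) : ℂ) := by
    intro y
    have hpc : Continuous (fun y : ℝ => ((∏ k ∈ range m, qq (y - β k) : ℝ) : ℂ)) :=
      tc_TPC_continuous (TPC_prod_qq m β)
    refine eq_of_punctured (g := fun y => (K * C₀ / Q₀) * ((∏ k ∈ range m, qq (y - β k) : ℝ) : ℂ)) hDc
      (continuous_const.mul hpc) y ?_
    filter_upwards [sin_ne_punctured y x₀, sin_ne_punctured' y x₀ (π / 3),
      sin_ne_punctured' y x₀ (-(π / 3))] with y' h1 h2 h3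
    rw [← sub_eq_add_neg] at h3
    have h4 : ((qq (y' - x₀) : ℝ) : ℂ) ≠ 0 := by exact_mod_cast qq_ne h1 h2 h3
    have h5 := hall x₀ y'
    rw [hsym x₀ y', hC₀ y', hprod, show x₀ - y' = -(y' - x₀) by ring, qq_neg, Complex.ofReal_mul,
      ← hQ₀] at h5
    have h6 : D y' * Q₀ = K * C₀ * ((∏ k ∈ range m, qq (y' - β k) : ℝ) : ℂ) := by
      apply mul_left_cancel₀ h4
      linear_combination -h5
    rw [div_mul_eq_mul_div, eq_div_iff hQ₀0]
    exact h6
  have hlead' : (K * C₀ / Q₀) * ∏ k ∈ range m, (-(1 / 16) * Complex.exp (-(4 * β k * Complex.I))) = 0 := by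
    rw [← tc_prod_qq, ← tc_const_mul, ← hlead]
    exact tc_congr fun y => (hDall y).symm
  have hc0 : K * C₀ / Q₀ = 0 := by
    rcases mul_eq_zero.1 hlead' with h | h
    · exact h
    · exfalso
      rw [prod_eq_zero_iff] at h
      obtain ⟨k, _, hk⟩ := h
      exact mul_ne_zero (by norm_num) (Complex.exp_ne_zero _) hk
  intro x y
  have h1 := hall x y
  rw [hDall y, hc0, zero_mul, zero_mul, zero_mul] at h1
  exact (mul_eq_zero.1 h1).resolve_left hK0

end OneArm
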